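import Mathlib

/-!
# Mate labels

`X` is the set of vertices, `Λ` the set of the labels `l = (y, i)` of the main law `π`,
`k x l ≥ 0` the own kernel, `a x > 0` the scale, `n` the node law.  A typed label is a pair
`p = (l, z)`; its weight `rhoM` is the flux of the mate `z` into `l`, and its own kernel is
`k x l * e x z`, where `e x z ∈ [0, 1]` says that `x` and `z` have the same heights and
`lo l z ∈ [0, 1]` that the hub of `l` is low with respect to `z`.
-/

set_option autoImplicit false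

open Finset

namespace Pool.Agent.Lib.GSLE

section mate

variable {X Λ : Type*} [Fintype X] [Fintype Λ]

/-- The weight of the label `(l, z)`: the flux of the mate `z` into `l`. -/
noncomputable def rhoM (n a : X → ℝ) (π : Λ → ℝ) (k : X → Λ → ℝ) (lo : Λ → X → ℝ)
    (p : Λ × X) : ℝ :=
  π p.1 * (n p.2 / a p.2 * k p.2 p.1 * lo p.1 p.2)

/-- The own kernel of the labels. -/
def CM (k : X → Λ → ℝ) (e : X → X → ℝ) (x : X) (p : Λ × X) : ℝ :=
  k x p.1 * e x p.2

/-- The scale of the typed law. -/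
noncomputable def AM (n a : X → ℝ) (π : Λ → ℝ) (k : X → Λ → ℝ) (lo : Λ → X → ℝ)
    (e : X → X → ℝ) (x : X) : ℝ :=
  ∑ p, rhoM n a π k lo p * CM k e x p

/-- The own mass of the label `p` for the scale `A`. -/
noncomputable def DM (n A : X → ℝ) (k : X → Λ → ℝ) (e : X → X → ℝ) (p : Λ × X) : ℝ :=
  ∑ x, n x * CM k e x p / A x

variable {n a A : X → ℝ} {π : Λ → ℝ} {k : X → Λ → ℝ} {lo : Λ → X → ℝ} {e : X → X → ℝ}

omit [Fintype X] [Fintype Λ] in
theorem rhoM_nonneg (hn : ∀ x, 0 ≤ n x) (ha : ∀ x, 0 < a x) (hπ : ∀ l, 0 ≤ π l)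
    (hk : ∀ x l, 0 ≤ k x l) (hlo : ∀ l x, 0 ≤ lo l x) (p : Λ × X) :
    0 ≤ rhoM n a π k lo p :=
  mul_nonneg (hπ _) (mul_nonneg (mul_nonneg (div_nonneg (hn _) (ha _).le) (hk _ _)) (hlo _ _))

omit [Fintype X] [Fintype Λ] in
theorem CM_nonneg (hk : ∀ x l, 0 ≤ k x l) (he : ∀ x z, 0 ≤ e x z) (x : X) (p : Λ × X) :
    0 ≤ CM k e x p :=
  mul_nonneg (hk _ _) (he _ _)

omit [Fintype X] [Fintype Λ] in
theorem CM_le (hk : ∀ x l, 0 ≤ k x l) (he1 : ∀ x z, e x z ≤ 1) (x : X) (p : Λ × X) :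
    CM k e x p ≤ k x p.1 :=
  mul_le_of_le_one_right (hk _ _) (he1 _ _)

theorem AM_nonneg (hn : ∀ x, 0 ≤ n x) (ha : ∀ x, 0 < a x) (hπ : ∀ l, 0 ≤ π l)
    (hk : ∀ x l, 0 ≤ k x l) (hlo : ∀ l x, 0 ≤ lo l x) (he : ∀ x z, 0 ≤ e x z) (x : X) :
    0 ≤ AM n a π k lo e x :=
  Finset.sum_nonneg fun p _ => mul_nonneg (rhoM_nonneg hn ha hπ hk hlo p) (CM_nonneg hk he x p)

/-- The labels over a weighted set of main labels: every bound for the main law passes to the
typed law. -/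
theorem sum_rhoM_le (hn : ∀ x, 0 ≤ n x) (ha : ∀ x, 0 < a x) (hπ : ∀ l, 0 ≤ π l)
    (hk : ∀ x l, 0 ≤ k x l) (hlo : ∀ l x, 0 ≤ lo l x) (hlo1 : ∀ l x, lo l x ≤ 1) {Δ : ℝ}
    (hΔ : ∀ l, ∑ x, n x / a x * k x l ≤ Δ) (w : Λ → ℝ) (hw : ∀ l, 0 ≤ w l)
    (T : Finset (Λ × X)) :
    ∑ p ∈ T, w p.1 * rhoM n a π k lo p ≤ Δ * ∑ l, w l * π l := by
  refine (Finset.sum_le_sum_of_subset_of_nonneg (Finset.subset_univ T) fun p _ _ =>
    mul_nonneg (hw _) (rhoM_nonneg hn ha hπ hk hlo p)).trans ?_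
  rw [← Finset.univ_product_univ, Finset.sum_product, Finset.mul_sum]
  refine Finset.sum_le_sum fun l _ => ?_
  have h1 : ∑ z, w l * rhoM n a π k lo (l, z) ≤ w l * π l * ∑ z, n z / a z * k z l := by
    rw [Finset.mul_sum]
    refine Finset.sum_le_sum fun z _ => ?_
    unfold rhoM
    have h2 : 0 ≤ n z / a z * k z l := mul_nonneg (div_nonneg (hn z) (ha z).le) (hk z l)
    have h3 := mul_le_mul_of_nonneg_left (mul_le_of_le_one_right h2 (hlo1 l z))
      (mul_nonneg (hw l) (hπ l))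
    calc w l * (π l * (n z / a z * k z l * lo l z)) =
        w l * π l * (n z / a z * k z l * lo l z) := by ring
      _ ≤ _ := h3
  refine h1.trans ?_
  rw [mul_comm Δ]
  exact mul_le_mul_of_nonneg_left (hΔ l) (mul_nonneg (hw l) (hπ l))

/-- The typed scale is bounded by the main scale. -/
theorem AM_le (hn : ∀ x, 0 ≤ n x) (ha : ∀ x, 0 < a x) (hπ : ∀ l, 0 ≤ π l)
    (hk : ∀ x l, 0 ≤ k x l) (hlo : ∀ l x, 0 ≤ lo l x) (hlo1 : ∀ l x, lo l x ≤ 1)
    (he1 : ∀ x z, e x z ≤ 1) {Δ : ℝ} (hΔ : ∀ l, ∑ x, n x / a x * k x l ≤ Δ) (x : X) :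
    AM n a π k lo e x ≤ Δ * ∑ l, k x l * π l := by
  refine le_trans ?_ (sum_rhoM_le (lo := lo) hn ha hπ hk hlo hlo1 hΔ (fun l => k x l)
    (fun l => hk x l) Finset.univ)
  refine Finset.sum_le_sum fun p _ => ?_
  rw [mul_comm]
  exact mul_le_mul_of_nonneg_right (CM_le hk he1 x p) (rhoM_nonneg hn ha hπ hk hlo p)

/-- The kernel of the typed law. -/
theorem PM_le (hn : ∀ x, 0 ≤ n x) (ha : ∀ x, 0 < a x) (hπ : ∀ l, 0 ≤ π l)
    (hk : ∀ x l, 0 ≤ k x l) (hlo : ∀ l x, 0 ≤ lo l x)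
    (he1 : ∀ x z, e x z ≤ 1) {ε : ℝ} (hε : 0 < ε) {x : X} (hA : ε * a x ≤ A x) (p : Λ × X) :
    rhoM n a π k lo p * CM k e x p / A x ≤ rhoM n a π k lo p * k x p.1 / (ε * a x) := by
  have h1 := rhoM_nonneg (lo := lo) hn ha hπ hk hlo p
  have h2 : 0 < ε * a x := mul_pos hε (ha x)
  have h3 := mul_le_mul_of_nonneg_left (CM_le (e := e) hk he1 x p) h1
  exact div_le_div₀ (mul_nonneg h1 (hk _ _)) h3 h2 hA

/-- Level-wise bounds of the own masses. -/
theorem DM_window (hn : ∀ x, 0 ≤ n x) (ha : ∀ x, 0 < a x) (hk : ∀ x l, 0 ≤ k x l)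
    (he1 : ∀ x z, e x z ≤ 1) {ε : ℝ} (hε : 0 < ε)
    (hA : ∀ x, n x ≠ 0 → ε * a x ≤ A x) (T : Finset X) (p : Λ × X) :
    ∑ x ∈ T, n x * CM k e x p / A x ≤ 1 / ε * ∑ x ∈ T, n x / a x * k x p.1 := by
  rw [Finset.mul_sum]
  refine Finset.sum_le_sum fun x _ => ?_
  by_cases hx : n x = 0
  · simp [hx]
  · have h2 : 0 < ε * a x := mul_pos hε (ha x)
    have h3 := mul_le_mul_of_nonneg_left (CM_le (e := e) hk he1 x p) (hn x)
    refine (div_le_div₀ (mul_nonneg (hn x) (hk _ _)) h3 h2 (hA x hx)).trans (le_of_eq ?_)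
    have := (ha x).ne'
    field_simp

theorem DM_le (hn : ∀ x, 0 ≤ n x) (ha : ∀ x, 0 < a x) (hk : ∀ x l, 0 ≤ k x l)
    (he1 : ∀ x z, e x z ≤ 1) {ε : ℝ} (hε : 0 < ε)
    (hA : ∀ x, n x ≠ 0 → ε * a x ≤ A x) {Δ : ℝ} (hΔ : ∀ l, ∑ x, n x / a x * k x l ≤ Δ)
    (p : Λ × X) : DM n A k e p ≤ Δ / ε := by
  refine (DM_window hn ha hk he1 hε hA Finset.univ p).trans ?_
  rw [one_div, inv_mul_eq_div]
  exact div_le_div_of_nonneg_right (hΔ p.1) hε.le

/-- The flux of the typed law. -/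
theorem sum_flux (m : X → ℝ) :
    ∑ p, rhoM n a π k lo p * DM m A k e p = ∑ x, m x * (AM n a π k lo e x / A x) := by
  unfold DM AM
  simp_rw [Finset.mul_sum]
  rw [Finset.sum_comm]
  refine Finset.sum_congr rfl fun x _ => ?_
  rw [Finset.sum_div, Finset.mul_sum]
  exact Finset.sum_congr rfl fun p _ => by ring

/-- The flux of the typed law if the scale is the typed scale on the nodes. -/
theorem sum_flux_eq (m : X → ℝ)
    (hA : ∀ x, m x ≠ 0 → A x = AM n a π k lo e x ∧ A x ≠ 0) :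
    ∑ p, rhoM n a π k lo p * DM m A k e p = ∑ x, m x := by
  rw [sum_flux]
  refine Finset.sum_congr rfl fun x _ => ?_
  by_cases hx : m x = 0
  · simp [hx]
  · obtain ⟨h1, h2⟩ := hA x hx
    rw [← h1, div_self h2, mul_one]

/-- Labels with a small own mass carry a small part of the flux. -/
theorem small_own (hn : ∀ x, 0 ≤ n x) (ha : ∀ x, 0 < a x) (hπ : ∀ l, 0 ≤ π l)
    (hk : ∀ x l, 0 ≤ k x l) (hlo : ∀ l x, 0 ≤ lo l x) {δ : ℝ} (hδ : 0 ≤ δ) (f : Λ × X → ℝ)
    (T : Finset (Λ × X)) (hT : ∀ p ∈ T, f p ≤ δ) :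
    ∑ p ∈ T, rhoM n a π k lo p * f p ≤ δ * ∑ p, rhoM n a π k lo p := by
  rw [Finset.mul_sum]
  refine (Finset.sum_le_sum fun p hp => ?_).trans
    (Finset.sum_le_sum_of_subset_of_nonneg (Finset.subset_univ T) fun p _ _ =>
      mul_nonneg hδ (rhoM_nonneg hn ha hπ hk hlo p))
  rw [mul_comm δ]
  exact mul_le_mul_of_nonneg_left (hT p hp) (rhoM_nonneg hn ha hπ hk hlo p)

/-- Size bias: labels in which the part `m` of the nodes has a small share carry a small part of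
the flux of `m`. -/
theorem small_share (hn : ∀ x, 0 ≤ n x) (ha : ∀ x, 0 < a x) (hπ : ∀ l, 0 ≤ π l)
    (hk : ∀ x l, 0 ≤ k x l) (hlo : ∀ l x, 0 ≤ lo l x) (he : ∀ x z, 0 ≤ e x z) {δ : ℝ}
    (hδ : 0 ≤ δ) (m : X → ℝ) (hA0 : ∀ x, 0 ≤ A x)
    (hA : ∀ x, AM n a π k lo e x ≤ A x) (T : Finset (Λ × X))
    (hT : ∀ p ∈ T, DM m A k e p ≤ δ * DM n A k e p) :
    ∑ p ∈ T, rhoM n a π k lo p * DM m A k e p ≤ δ * ∑ x, n x := by
  have h0 : ∀ p, 0 ≤ DM n A k e p := fun p =>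
    Finset.sum_nonneg fun x _ => div_nonneg (mul_nonneg (hn x) (CM_nonneg hk he x p)) (hA0 x)
  calc ∑ p ∈ T, rhoM n a π k lo p * DM m A k e p
      ≤ ∑ p ∈ T, δ * (rhoM n a π k lo p * DM n A k e p) := by
        refine Finset.sum_le_sum fun p hp => ?_
        have h1 := mul_le_mul_of_nonneg_left (hT p hp)
          (rhoM_nonneg (lo := lo) hn ha hπ hk hlo p)
        calc _ ≤ _ := h1
          _ = _ := by ring
    _ ≤ ∑ p, δ * (rhoM n a π k lo p * DM n A k e p) :=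
        Finset.sum_le_sum_of_subset_of_nonneg (Finset.subset_univ T) fun p _ _ =>
          mul_nonneg hδ (mul_nonneg (rhoM_nonneg hn ha hπ hk hlo p) (h0 p))
    _ = δ * ∑ x, n x * (AM n a π k lo e x / A x) := by rw [← Finset.mul_sum, sum_flux]
    _ ≤ δ * ∑ x, n x := by
        refine mul_le_mul_of_nonneg_left (Finset.sum_le_sum fun x _ => ?_) hδ
        refine mul_le_of_le_one_right (hn x) ?_
        exact div_le_one_of_le₀ (hA x) (hA0 x)

/-! ### The NO side -/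

/-- The weight of the linked mates via the law `q` inside `W`. -/
noncomputable def lkM (ν aq : X → ℝ) (q : Λ → ℝ) (k : X → Λ → ℝ) (e : X → X → ℝ)
    (W : Finset X) : ℝ :=
  ∑ l, q l / (∑ x ∈ W, ν x * k x l / aq x) *
    ∑ x ∈ W, ∑ z ∈ W, (ν x * k x l / aq x) * (ν z * k z l / aq z) * e x z

/-- If the typed scale is small on `W` then the mates via any part `q` of the main law are
linked with small probability. -/
theorem lkM_le (ha : ∀ x, 0 < a x) (hn : ∀ x, 0 ≤ n x)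
    (hk : ∀ x l, 0 ≤ k x l) (hlo : ∀ l x, 0 ≤ lo l x) (hlo1 : ∀ l x, lo l x ≤ 1)
    (he : ∀ x z, 0 ≤ e x z) (he1 : ∀ x z, e x z ≤ 1) {ν aq : X → ℝ} {q : Λ → ℝ}
    (hν : ∀ x, 0 ≤ ν x) (hνn : ∀ x, ν x ≤ n x) (hq : ∀ l, 0 ≤ q l) (hqπ : ∀ l, q l ≤ π l)
    {W : Finset X} {c₁ : ℝ} (hc₁ : 0 < c₁) (haq : ∀ x ∈ W, c₁ * a x ≤ aq x)
    {ε : ℝ} (hAM : ∀ x ∈ W, AM n a π k lo e x ≤ ε * a x)
    {ε₃ : ℝ} (hlow : ∀ x ∈ W, ∑ l, π l * k x l * (1 - lo l x) ≤ ε₃ * a x)
    {η : ℝ} (hη : 0 < η) :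
    lkM ν aq q k e W ≤ η * ∑ l, q l + (ε / (c₁ ^ 2 * η) + ε₃ / c₁) * ∑ x ∈ W, ν x := by
  have hc : ∀ x ∈ W, 0 < aq x := fun x hx => lt_of_lt_of_le (mul_pos hc₁ (ha x)) (haq x hx)
  set u : Λ → X → ℝ := fun l x => ν x * k x l / aq x with hu
  have hu0 : ∀ l, ∀ x ∈ W, 0 ≤ u l x := fun l x hx =>
    div_nonneg (mul_nonneg (hν x) (hk x l)) (hc x hx).le
  -- one label
  have hterm : ∀ l, q l / (∑ x ∈ W, u l x) * ∑ x ∈ W, ∑ z ∈ W, u l x * u l z * e x z ≤
      η * q l + q l / η * (∑ x ∈ W, ∑ z ∈ W, u l x * u l z * (lo l z * e x z)) +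
        q l * ∑ z ∈ W, u l z * (1 - lo l z) := by
    intro l
    set D : ℝ := ∑ x ∈ W, u l x with hD
    have hD0 : 0 ≤ D := Finset.sum_nonneg (hu0 l)
    have hS1 : 0 ≤ ∑ x ∈ W, ∑ z ∈ W, u l x * u l z * (lo l z * e x z) :=
      Finset.sum_nonneg fun x hx => Finset.sum_nonneg fun z hz =>
        mul_nonneg (mul_nonneg (hu0 l x hx) (hu0 l z hz)) (mul_nonneg (hlo l z) (he x z))
    have hS2 : 0 ≤ ∑ z ∈ W, u l z * (1 - lo l z) :=
      Finset.sum_nonneg fun z hz => mul_nonneg (hu0 l z hz) (by linarith [hlo1 l z])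
    have hq0 := hq l
    rcases hD0.eq_or_lt with hD1 | hD1
    · rw [← hD1, div_zero, zero_mul]
      positivity
    -- split of `e`
    have h1 : ∑ x ∈ W, ∑ z ∈ W, u l x * u l z * e x z ≤
        ∑ x ∈ W, ∑ z ∈ W, u l x * u l z * (lo l z * e x z) +
          D * ∑ z ∈ W, u l z * (1 - lo l z) := by
      rw [hD, Finset.sum_mul_sum, ← Finset.sum_add_distrib]
      refine Finset.sum_le_sum fun x hx => ?_
      rw [← Finset.sum_add_distrib]
      refine Finset.sum_le_sum fun z hz => ?_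
      have h2 : 0 ≤ u l x * u l z := mul_nonneg (hu0 l x hx) (hu0 l z hz)
      have h3 : e x z ≤ lo l z * e x z + (1 - lo l z) := by
        nlinarith [he x z, he1 x z, hlo l z, hlo1 l z]
      calc u l x * u l z * e x z ≤ u l x * u l z * (lo l z * e x z + (1 - lo l z)) :=
            mul_le_mul_of_nonneg_left h3 h2
        _ = _ := by ring
    have h4 : q l / D * (∑ x ∈ W, ∑ z ∈ W, u l x * u l z * e x z) ≤
        q l / D * (∑ x ∈ W, ∑ z ∈ W, u l x * u l z * (lo l z * e x z)) +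
          q l * ∑ z ∈ W, u l z * (1 - lo l z) := by
      refine (mul_le_mul_of_nonneg_left h1 (div_nonneg hq0 hD0)).trans (le_of_eq ?_)
      field_simp
    refine h4.trans (add_le_add ?_ le_rfl)
    rcases le_total D η with h5 | h5
    · -- small labels
      have h6 : ∑ x ∈ W, ∑ z ∈ W, u l x * u l z * (lo l z * e x z) ≤ D * D := by
        rw [hD, Finset.sum_mul_sum]
        refine Finset.sum_le_sum fun x hx => Finset.sum_le_sum fun z hz => ?_
        refine mul_le_of_le_one_right (mul_nonneg (hu0 l x hx) (hu0 l z hz)) ?_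
        exact mul_le_one₀ (hlo1 l z) (he x z) (he1 x z)
      have h7 : q l / D * (∑ x ∈ W, ∑ z ∈ W, u l x * u l z * (lo l z * e x z)) ≤ q l * D := by
        refine (mul_le_mul_of_nonneg_left h6 (div_nonneg hq0 hD0)).trans (le_of_eq ?_)
        field_simp
      have h8 : q l * D ≤ η * q l := by
        rw [mul_comm]
        exact mul_le_mul_of_nonneg_right h5 hq0
      have h9 : 0 ≤ q l / η * ∑ x ∈ W, ∑ z ∈ W, u l x * u l z * (lo l z * e x z) :=
        mul_nonneg (div_nonneg hq0 hη.le) hS1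
      linarith
    · have h6 : q l / D * (∑ x ∈ W, ∑ z ∈ W, u l x * u l z * (lo l z * e x z)) ≤
          q l / η * ∑ x ∈ W, ∑ z ∈ W, u l x * u l z * (lo l z * e x z) :=
        mul_le_mul_of_nonneg_right (div_le_div_of_nonneg_left hq0 hη h5) hS1
      have h7 : 0 ≤ η * q l := mul_nonneg hη.le hq0
      linarith
  -- the comparison with the main law
  have hux : ∀ l, ∀ x ∈ W, u l x ≤ 1 / c₁ * (ν x / a x * k x l) := by
    intro l x hx
    have h2 : 0 < c₁ * a x := mul_pos hc₁ (ha x)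
    refine (div_le_div_of_nonneg_left (mul_nonneg (hν x) (hk x l)) h2 (haq x hx)).trans
      (le_of_eq ?_)
    have := (ha x).ne'
    field_simp
  have hun : ∀ l, ∀ x ∈ W, u l x ≤ 1 / c₁ * (n x / a x * k x l) := by
    intro l x hx
    refine (hux l x hx).trans (mul_le_mul_of_nonneg_left ?_ (by positivity))
    exact mul_le_mul_of_nonneg_right (div_le_div_of_nonneg_right (hνn x) (ha x).le) (hk x l)
  have hA : ∑ l, q l / η * (∑ x ∈ W, ∑ z ∈ W, u l x * u l z * (lo l z * e x z)) ≤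
      ε / (c₁ ^ 2 * η) * ∑ x ∈ W, ν x := by
    have h1 : ∀ l, q l / η * (∑ x ∈ W, ∑ z ∈ W, u l x * u l z * (lo l z * e x z)) ≤
        ∑ x ∈ W, 1 / (c₁ ^ 2 * η) * (ν x / a x) *
          ∑ z, rhoM n a π k lo (l, z) * CM k e x (l, z) := by
      intro l
      have hπ0 : 0 ≤ π l := (hq l).trans (hqπ l)
      rw [Finset.mul_sum]
      refine Finset.sum_le_sum fun x hx => ?_
      rw [Finset.mul_sum, Finset.mul_sum]
      refine le_trans ?_ (Finset.sum_le_sum_of_subset_of_nonneg (Finset.subset_univ W)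
        fun z _ _ => ?_)
      · refine Finset.sum_le_sum fun z hz => ?_
        have h2 : u l x * u l z ≤ 1 / c₁ * (ν x / a x * k x l) * (1 / c₁ * (n z / a z * k z l)) :=
          mul_le_mul (hux l x hx) (hun l z hz) (hu0 l z hz)
            (mul_nonneg (by positivity) (mul_nonneg (div_nonneg (hν x) (ha x).le) (hk x l)))
        have h3 : 0 ≤ lo l z * e x z := mul_nonneg (hlo l z) (he x z)
        have h4 : 0 ≤ 1 / c₁ * (ν x / a x * k x l) * (1 / c₁ * (n z / a z * k z l)) *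
            (lo l z * e x z) :=
          mul_nonneg (mul_nonneg (mul_nonneg (by positivity)
            (mul_nonneg (div_nonneg (hν x) (ha x).le) (hk x l)))
            (mul_nonneg (by positivity) (mul_nonneg (div_nonneg (hn z) (ha z).le) (hk z l)))) h3
        calc q l / η * (u l x * u l z * (lo l z * e x z)) ≤
            π l / η * (1 / c₁ * (ν x / a x * k x l) * (1 / c₁ * (n z / a z * k z l)) *
              (lo l z * e x z)) := by
              refine mul_le_mul (div_le_div_of_nonneg_right (hqπ l) hη.le)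
                (mul_le_mul_of_nonneg_right h2 h3) ?_ (div_nonneg hπ0 hη.le)
              exact mul_nonneg (mul_nonneg (hu0 l x hx) (hu0 l z hz)) h3
          _ = _ := by
              unfold rhoM CM
              field_simp
      · have h5 : 0 ≤ rhoM n a π k lo (l, z) * CM k e x (l, z) := by
          refine mul_nonneg ?_ (CM_nonneg hk he x _)
          exact mul_nonneg hπ0 (mul_nonneg (mul_nonneg (div_nonneg (hn _) (ha _).le) (hk _ _))
            (hlo _ _))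
        exact mul_nonneg (mul_nonneg (by positivity) (div_nonneg (hν x) (ha x).le)) h5
    refine (Finset.sum_le_sum fun l _ => h1 l).trans ?_
    rw [Finset.sum_comm, Finset.mul_sum]
    refine Finset.sum_le_sum fun x hx => ?_
    rw [← Finset.mul_sum]
    have h2 : ∑ l, ∑ z, rhoM n a π k lo (l, z) * CM k e x (l, z) = AM n a π k lo e x := by
      unfold AM
      rw [← Finset.univ_product_univ, Finset.sum_product]
    rw [h2]
    have h3 : 0 ≤ 1 / (c₁ ^ 2 * η) * (ν x / a x) :=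
      mul_nonneg (by positivity) (div_nonneg (hν x) (ha x).le)
    refine (mul_le_mul_of_nonneg_left (hAM x hx) h3).trans (le_of_eq ?_)
    have := (ha x).ne'
    field_simp
  have hB : ∑ l, q l * ∑ z ∈ W, u l z * (1 - lo l z) ≤ ε₃ / c₁ * ∑ x ∈ W, ν x := by
    have h1 : ∀ l, q l * ∑ z ∈ W, u l z * (1 - lo l z) ≤
        ∑ z ∈ W, 1 / c₁ * (ν z / a z) * (π l * k z l * (1 - lo l z)) := by
      intro l
      rw [Finset.mul_sum]
      refine Finset.sum_le_sum fun z hz => ?_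
      have h3 : 0 ≤ 1 - lo l z := by linarith [hlo1 l z]
      calc q l * (u l z * (1 - lo l z)) ≤ π l * (1 / c₁ * (ν z / a z * k z l) * (1 - lo l z)) := by
            refine mul_le_mul (hqπ l) (mul_le_mul_of_nonneg_right (hux l z hz) h3)
              (mul_nonneg (hu0 l z hz) h3) ((hq l).trans (hqπ l))
        _ = _ := by ring
    refine (Finset.sum_le_sum fun l _ => h1 l).trans ?_
    rw [Finset.sum_comm, Finset.mul_sum]
    refine Finset.sum_le_sum fun z hz => ?_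
    rw [← Finset.mul_sum]
    have h3 : 0 ≤ 1 / c₁ * (ν z / a z) :=
      mul_nonneg (by positivity) (div_nonneg (hν z) (ha z).le)
    refine (mul_le_mul_of_nonneg_left (hlow z hz) h3).trans (le_of_eq ?_)
    have := (ha z).ne'
    field_simp
  unfold lkM
  calc ∑ l, q l / (∑ x ∈ W, ν x * k x l / aq x) *
        ∑ x ∈ W, ∑ z ∈ W, (ν x * k x l / aq x) * (ν z * k z l / aq z) * e x z
      ≤ ∑ l, (η * q l + q l / η * (∑ x ∈ W, ∑ z ∈ W, u l x * u l z * (lo l z * e x z)) +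
        q l * ∑ z ∈ W, u l z * (1 - lo l z)) := Finset.sum_le_sum fun l _ => hterm l
    _ = η * ∑ l, q l + ∑ l, q l / η * (∑ x ∈ W, ∑ z ∈ W, u l x * u l z * (lo l z * e x z)) +
        ∑ l, q l * ∑ z ∈ W, u l z * (1 - lo l z) := by
        rw [Finset.sum_add_distrib, Finset.sum_add_distrib, Finset.mul_sum]
    _ ≤ η * ∑ l, q l + ε / (c₁ ^ 2 * η) * ∑ x ∈ W, ν x + ε₃ / c₁ * ∑ x ∈ W, ν x :=
        add_le_add (add_le_add le_rfl hA) hB
    _ = _ := by ring

end mate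

end Pool.Agent.Lib.GSLE
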