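import Pool.Agent.Lib.GSLE.LE

/-!
# Thin vertices: level-wise bounds, DOWN, UP and EQ edges

`n` is a measure on the vertices of a finite graph, `a > 0` a scale.  `Lvl G n a C z`: the
neighbours of `z` in a window `[A, 2 A]` of the scale have `n / a`-mass at most `C`.  In a
localised equilibrium this is true for all the vertices of the hub world (`lvl_of_DD`).
-/

set_option autoImplicit false

open Finset Classical

namespace Pool.Agent.Lib.GSLE

variable {V : Type*} [Fintype V]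

/-- The neighbours of `z` in a window of the scale `a` have `n / a`-mass at most `C`. -/
def Lvl (G : SimpleGraph V) (n a : V → ℝ) (C : ℝ) (z : V) : Prop :=
  ∀ A : ℝ, 0 < A → ∑ x with G.Adj z x ∧ A ≤ a x ∧ a x ≤ 2 * A, n x / a x ≤ C

/-- The neighbours of `z` of scale at most `A` have mass at most `C * A`. -/
def Low (G : SimpleGraph V) (n a : V → ℝ) (C : ℝ) (z : V) : Prop :=
  ∀ A : ℝ, 0 ≤ A → ∑ x with G.Adj z x ∧ a x ≤ A, n x ≤ C * A

section Basic

variable {G : SimpleGraph V} {n a : V → ℝ}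

theorem Lvl.mono {C C' : ℝ} {z : V} (h : Lvl G n a C z) (hC : C ≤ C') : Lvl G n a C' z :=
  fun A hA => (h A hA).trans hC

theorem Low.mono {C C' : ℝ} {z : V} (h : Low G n a C z) (hC : C ≤ C') : Low G n a C' z :=
  fun A hA => (h A hA).trans (mul_le_mul_of_nonneg_right hC hA)

theorem Lvl.nonneg {C : ℝ} {z : V} (hn : ∀ x, 0 ≤ n x) (ha : ∀ x, 0 < a x)
    (h : Lvl G n a C z) : 0 ≤ C :=
  (Finset.sum_nonneg fun x _ => div_nonneg (hn x) (ha x).le).trans (h 1 one_pos)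

/-- A level-wise bound gives a bound for all the neighbours of small scale. -/
theorem Lvl.low {C : ℝ} {z : V} (hn : ∀ x, 0 ≤ n x) (ha : ∀ x, 0 < a x)
    (h : Lvl G n a C z) : Low G n a (2 * C) z := by
  have hC := h.nonneg hn ha
  -- all the scales are above `A / 2 ^ m`
  have key : ∀ m : ℕ, ∀ A : ℝ, 0 < A → (∀ x, A / 2 ^ m < a x) →
      ∑ x with G.Adj z x ∧ a x ≤ A, n x ≤ 2 * C * A := by
    intro m
    induction m with
    | zero =>
      intro A hA hx
      have h1 : (univ.filter fun x => G.Adj z x ∧ a x ≤ A) = ∅ := by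
        rw [Finset.filter_eq_empty_iff]
        rintro x - ⟨-, hxA⟩
        have := hx x
        rw [pow_zero, div_one] at this
        linarith
      rw [h1, Finset.sum_empty]
      positivity
    | succ m ih =>
      intro A hA hx
      have h1 := ih (A / 2) (by positivity) (fun x => by
        have := hx x
        rwa [pow_succ', ← div_div] at this)
      have h2 := h (A / 2) (by positivity)
      have h3 : ∑ x with G.Adj z x ∧ A / 2 ≤ a x ∧ a x ≤ 2 * (A / 2), n x ≤ C * A := by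
        refine le_trans (Finset.sum_le_sum (g := fun x => n x / a x * A) fun x hx => ?_) ?_
        · rw [Finset.mem_filter] at hx
          have h4 : a x ≤ A := by linarith [hx.2.2.2]
          rw [div_mul_eq_mul_div, le_div_iff₀ (ha x)]
          exact mul_le_mul_of_nonneg_left h4 (hn x)
        · rw [← Finset.sum_mul]
          exact mul_le_mul_of_nonneg_right h2 hA.le
      have h4 : (univ.filter fun x => G.Adj z x ∧ a x ≤ A) ⊆
          (univ.filter fun x => G.Adj z x ∧ a x ≤ A / 2) ∪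
            (univ.filter fun x => G.Adj z x ∧ A / 2 ≤ a x ∧ a x ≤ 2 * (A / 2)) := by
        intro x hx
        rw [Finset.mem_filter] at hx
        rw [Finset.mem_union, Finset.mem_filter, Finset.mem_filter]
        rcases le_total (a x) (A / 2) with h5 | h5
        · exact Or.inl ⟨mem_univ _, hx.2.1, h5⟩
        · exact Or.inr ⟨mem_univ _, hx.2.1, h5, by linarith [hx.2.2]⟩
      calc ∑ x with G.Adj z x ∧ a x ≤ A, n x
          ≤ ∑ x ∈ (univ.filter fun x => G.Adj z x ∧ a x ≤ A / 2) ∪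
            (univ.filter fun x => G.Adj z x ∧ A / 2 ≤ a x ∧ a x ≤ 2 * (A / 2)), n x :=
            Finset.sum_le_sum_of_subset_of_nonneg h4 fun x _ _ => hn x
        _ ≤ ∑ x with G.Adj z x ∧ a x ≤ A / 2, n x +
            ∑ x with G.Adj z x ∧ A / 2 ≤ a x ∧ a x ≤ 2 * (A / 2), n x := by
            rw [← Finset.sum_union_inter]
            have : 0 ≤ ∑ x ∈ (univ.filter fun x => G.Adj z x ∧ a x ≤ A / 2) ∩
              (univ.filter fun x => G.Adj z x ∧ A / 2 ≤ a x ∧ a x ≤ 2 * (A / 2)), n x :=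
              Finset.sum_nonneg fun x _ => hn x
            linarith
        _ ≤ 2 * C * A := by linarith
  intro A hA
  rcases hA.eq_or_lt with h0 | h0
  · have h1 : (univ.filter fun x => G.Adj z x ∧ a x ≤ A) = ∅ := by
      rw [Finset.filter_eq_empty_iff]
      rintro x - ⟨-, hxA⟩
      linarith [ha x]
    rw [h1, Finset.sum_empty, ← h0, mul_zero]
  · by_cases hV : Nonempty V
    · obtain ⟨x0, -, hx0⟩ := Finset.exists_min_image (univ : Finset V) a univ_nonempty
      obtain ⟨m, hm⟩ := exists_pow_lt_of_lt_one (div_pos (ha x0) h0) (by norm_num : (1 / 2 : ℝ) < 1)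
      refine key m A h0 fun x => lt_of_lt_of_le ?_ (hx0 x (mem_univ x))
      rw [one_div, inv_pow, lt_div_iff₀ h0] at hm
      calc A / 2 ^ m = (2 ^ m)⁻¹ * A := by rw [div_eq_inv_mul]
        _ < a x0 := hm
    · have : IsEmpty V := not_nonempty_iff.1 hV
      rw [Finset.univ_eq_empty, Finset.filter_empty, Finset.sum_empty]
      positivity

/-- Conversely a bound for the mass gives a level-wise bound. -/
theorem Low.lvl {C : ℝ} {z : V} (hn : ∀ x, 0 ≤ n x) (h : Low G n a C z) :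
    Lvl G n a (2 * C) z := by
  intro A hA
  have h1 := h (2 * A) (by positivity)
  calc ∑ x with G.Adj z x ∧ A ≤ a x ∧ a x ≤ 2 * A, n x / a x
      ≤ ∑ x with G.Adj z x ∧ A ≤ a x ∧ a x ≤ 2 * A, n x / A := by
        refine Finset.sum_le_sum fun x hx => ?_
        rw [Finset.mem_filter] at hx
        exact div_le_div_of_nonneg_left (hn x) hA hx.2.2.1
    _ ≤ ∑ x with G.Adj z x ∧ a x ≤ 2 * A, n x / A := by
        refine Finset.sum_le_sum_of_subset_of_nonneg ?_ fun x _ _ => div_nonneg (hn x) hA.le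
        intro x hx
        rw [Finset.mem_filter] at hx ⊢
        exact ⟨hx.1, hx.2.1, hx.2.2.2⟩
    _ ≤ 2 * C := by
        rw [← Finset.sum_div, div_le_iff₀ hA]
        linarith

/-- The bound for one dyadic level. -/
theorem Lvl.level {C : ℝ} {z : V} (hn : ∀ x, 0 ≤ n x) (ha : ∀ x, 0 < a x) (h : Lvl G n a C z)
    {k : V → ℕ} (hk : ∀ x, (1 / 2 : ℝ) ^ k x ≤ a x ∧ a x < 2 * (1 / 2 : ℝ) ^ k x) (j : ℕ) :
    ∑ x with G.Adj z x ∧ k x = j, n x / a x ≤ C := by
  refine le_trans (Finset.sum_le_sum_of_subset_of_nonneg ?_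
    fun x _ _ => div_nonneg (hn x) (ha x).le) (h ((1 / 2 : ℝ) ^ j) (by positivity))
  intro x hx
  rw [Finset.mem_filter] at hx ⊢
  obtain ⟨h1, h2⟩ := hk x
  rw [hx.2.2] at h1 h2
  exact ⟨hx.1, hx.2.1, h1, h2.le⟩

/-- The windows are covered by two dyadic levels. -/
theorem lvl_of_levels {C : ℝ} {z : V} (hn : ∀ x, 0 ≤ n x) (ha : ∀ x, 0 < a x) {k : V → ℕ}
    (hk : ∀ x, (1 / 2 : ℝ) ^ k x ≤ a x ∧ a x < 2 * (1 / 2 : ℝ) ^ k x)
    (h : ∀ j, ∑ x with G.Adj z x ∧ k x = j, n x / a x ≤ C) : Lvl G n a (3 * C) z := by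
  intro A hA
  have h0 : ∀ x, 0 ≤ n x / a x := fun x => div_nonneg (hn x) (ha x).le
  have hC : 0 ≤ C := (Finset.sum_nonneg fun x _ => h0 x).trans (h 0)
  rcases Finset.eq_empty_or_nonempty (univ.filter fun x => G.Adj z x ∧ A ≤ a x ∧ a x ≤ 2 * A) with
    h1 | ⟨x1, hx1⟩
  · rw [h1, Finset.sum_empty]
    positivity
  -- the vertex of the window with the smallest scale
  obtain ⟨x0, hx0, hmin⟩ := Finset.exists_min_image _ a ⟨x1, hx1⟩
  rw [Finset.mem_filter] at hx0
  have hcov : (univ.filter fun x => G.Adj z x ∧ A ≤ a x ∧ a x ≤ 2 * A) ⊆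
      ((univ.filter fun x => G.Adj z x ∧ k x = k x0) ∪
        (univ.filter fun x => G.Adj z x ∧ k x = k x0 - 1)) ∪
        (univ.filter fun x => G.Adj z x ∧ k x = k x0 - 2) := by
    intro x hx
    have h2 := hmin x hx
    rw [Finset.mem_filter] at hx
    obtain ⟨h3, h4⟩ := hk x
    obtain ⟨h5, h6⟩ := hk x0
    have h7 : a x ≤ 2 * a x0 := by linarith [hx.2.2.2, hx0.2.2.1]
    have h8 : k x ≤ k x0 := by
      by_contra hcon
      push Not at hcon
      have h9 : (1 / 2 : ℝ) ^ k x ≤ (1 / 2 : ℝ) ^ (k x0 + 1) :=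
        pow_le_pow_of_le_one (by norm_num) (by norm_num) hcon
      rw [pow_succ] at h9
      linarith
    have h10 : k x0 ≤ k x + 2 := by
      by_contra hcon
      push Not at hcon
      have h9 : (1 / 2 : ℝ) ^ k x0 ≤ (1 / 2 : ℝ) ^ (k x + 3) :=
        pow_le_pow_of_le_one (by norm_num) (by norm_num) hcon
      have h11 : (1 / 2 : ℝ) ^ (k x + 3) = (1 / 2 : ℝ) ^ k x / 8 := by
        rw [pow_add]
        norm_num
        ring
      have h12 : (0 : ℝ) < (1 / 2 : ℝ) ^ k x := by positivity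
      linarith
    rw [Finset.mem_union, Finset.mem_union, Finset.mem_filter, Finset.mem_filter,
      Finset.mem_filter]
    have h13 : k x = k x0 ∨ k x = k x0 - 1 ∨ k x = k x0 - 2 := by omega
    rcases h13 with h14 | h14 | h14
    · exact Or.inl (Or.inl ⟨mem_univ _, hx.2.1, h14⟩)
    · exact Or.inl (Or.inr ⟨mem_univ _, hx.2.1, h14⟩)
    · exact Or.inr ⟨mem_univ _, hx.2.1, h14⟩
  have hun : ∀ S T : Finset V, ∑ x ∈ S ∪ T, n x / a x ≤
      ∑ x ∈ S, n x / a x + ∑ x ∈ T, n x / a x := by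
    intro S T
    rw [← Finset.sum_union_inter]
    have : 0 ≤ ∑ x ∈ S ∩ T, n x / a x := Finset.sum_nonneg fun x _ => h0 x
    linarith
  refine (Finset.sum_le_sum_of_subset_of_nonneg hcov fun x _ _ => h0 x).trans ?_
  refine (hun _ _).trans ((add_le_add ((hun _ _).trans (add_le_add (h _) (h _))) (h _)).trans ?_)
  linarith

/-- The mass of the neighbours of `z` of scale less than `A`, strict form. -/
theorem Low.lt {C : ℝ} {z : V} (hn : ∀ x, 0 ≤ n x) (h : Low G n a C z) {A : ℝ} (hA : 0 ≤ A) :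
    ∑ x with G.Adj z x ∧ a x < A, n x ≤ C * A := by
  refine le_trans (Finset.sum_le_sum_of_subset_of_nonneg ?_ fun x _ _ => hn x) (h A hA)
  intro x hx
  rw [Finset.mem_filter] at hx ⊢
  exact ⟨hx.1, hx.2.1, hx.2.2.le⟩

end Basic

/-! ### Localised equilibrium -/

section LE

variable {Λ : Type*} {G : SimpleGraph V} {n e : V → ℝ} {c : V → Λ → ℝ} {π b : Λ → ℝ}

/-- A dyadic scale which is close to a window. -/
theorem exists_scale {A a0 : ℝ} {K : ℕ} (hA : 0 < A) (h2 : a0 ≤ 2 * A)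
    (h3 : (1 / 2 : ℝ) ^ K ≤ a0) :
    ∃ k ≤ K, (1 / 2 : ℝ) ^ k ≤ 2 * A ∧ (2 * A < 2 * (1 / 2 : ℝ) ^ k ∨ k = 0) := by
  rcases lt_or_ge (2 * A) 2 with h4 | h4
  · obtain ⟨k, h5, h6⟩ := exists_level (a := 2 * A) (by positivity) h4
    refine ⟨k, ?_, h5, Or.inl h6⟩
    by_contra hk
    push Not at hk
    have h7 : (1 / 2 : ℝ) ^ k ≤ (1 / 2 : ℝ) ^ (K + 1) :=
      pow_le_pow_of_le_one (by norm_num) (by norm_num) hk
    rw [pow_succ] at h7
    linarith
  · exact ⟨0, Nat.zero_le _, by rw [pow_zero]; linarith, Or.inr rfl⟩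

/-- A first order condition for the labels `l k`, `k ≤ K`, of one vertex gives a bound for all the
windows of the scale `a`.  `A' x` is the scale of the law on the labels, `P x` says which vertices
are counted, `B` bounds the ratio of `n'' / a` and `n / A'` on them. -/
theorem window_le {a A' n n'' : V → ℝ} (hn : ∀ x, 0 ≤ n x) (hA' : ∀ x, 0 < A' x)
    (hc : ∀ x l, 0 ≤ c x l) (ha : ∀ x, 0 < a x) {K : ℕ} (l : ℕ → Λ) (P : V → Prop)
    (hl : ∀ k ≤ K, ∀ x, P x → 1 ≤ c x (l k)) (hbl : ∀ k ≤ K, b (l k) = (1 / 2 : ℝ) ^ k) {Δ B : ℝ}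
    (hΔ : ∀ k ≤ K, ∑ x, n x / A' x * (c x (l k) * kp (a x / b (l k))) ≤ Δ) (hB : 0 ≤ B)
    (hr : ∀ x, P x → n'' x / a x ≤ B * (n x / A' x))
    (ha1 : ∀ x, (1 / 2 : ℝ) ^ K ≤ a x) (ha2 : ∀ x, a x < 2) {A : ℝ} (hA : 0 < A) :
    ∑ x with P x ∧ A ≤ a x ∧ a x ≤ 2 * A, n'' x / a x ≤ B * (√2 * Δ) := by
  have hs2 : 0 < √2 := Real.sqrt_pos.mpr two_pos
  have hq : ∀ l x, 0 ≤ n x / A' x * (c x l * kp (a x / b l)) := fun l x =>
    mul_nonneg (div_nonneg (hn x) (hA' x).le) (mul_nonneg (hc x l) (kp_nonneg _))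
  have hΔ0 : 0 ≤ Δ := (Finset.sum_nonneg fun x _ => hq (l 0) x).trans (hΔ 0 (Nat.zero_le _))
  rcases Finset.eq_empty_or_nonempty (univ.filter fun x => P x ∧ A ≤ a x ∧ a x ≤ 2 * A) with
    h0 | ⟨x0, hx0⟩
  · rw [h0, Finset.sum_empty]
    positivity
  · rw [Finset.mem_filter] at hx0
    obtain ⟨k, hkK, hk1, hk2⟩ := exists_scale hA hx0.2.2.2 (ha1 x0)
    have h1 : ∀ x ∈ univ.filter fun x => P x ∧ A ≤ a x ∧ a x ≤ 2 * A,
        1 ≤ √2 * kp (a x / b (l k)) := by
      intro x hx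
      rw [Finset.mem_filter] at hx
      rw [hbl k hkK]
      have hpk : (0 : ℝ) < (1 / 2 : ℝ) ^ k := by positivity
      have h3 : (1 / 2 : ℝ) ^ k ≤ 2 * a x := by linarith [hx.2.2.1]
      have h4 : a x ≤ 2 * (1 / 2 : ℝ) ^ k := by
        rcases hk2 with h | h
        · linarith [hx.2.2.2]
        · rw [h, pow_zero]
          linarith [ha2 x]
      rcases le_total (a x / (1 / 2 : ℝ) ^ k) 1 with h | h
      · rw [kp_of_le h, ← Real.sqrt_mul zero_le_two]
        refine Real.one_le_sqrt.mpr ?_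
        rw [← mul_div_assoc, one_le_div hpk]
        exact h3
      · rw [kp_of_ge h, mul_one_div, one_le_div (Real.sqrt_pos.mpr (div_pos (ha x) hpk))]
        refine Real.sqrt_le_sqrt ?_
        rw [div_le_iff₀ hpk]
        exact h4
    calc ∑ x with P x ∧ A ≤ a x ∧ a x ≤ 2 * A, n'' x / a x
        ≤ ∑ x with P x ∧ A ≤ a x ∧ a x ≤ 2 * A,
            B * (√2 * (n x / A' x * (c x (l k) * kp (a x / b (l k))))) := by
          refine Finset.sum_le_sum fun x hx => ?_
          have h5 := h1 x hx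
          rw [Finset.mem_filter] at hx
          refine (hr x hx.2.1).trans (mul_le_mul_of_nonneg_left ?_ hB)
          have h6 : 0 ≤ n x / A' x := div_nonneg (hn x) (hA' x).le
          have h7 := hl k hkK x hx.2.1
          calc n x / A' x = n x / A' x * (1 * 1) := by ring
            _ ≤ n x / A' x * (c x (l k) * (√2 * kp (a x / b (l k)))) :=
                mul_le_mul_of_nonneg_left (mul_le_mul h7 h5 zero_le_one (hc x _)) h6
            _ = √2 * (n x / A' x * (c x (l k) * kp (a x / b (l k)))) := by ring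
      _ ≤ ∑ x, B * (√2 * (n x / A' x * (c x (l k) * kp (a x / b (l k))))) :=
          Finset.sum_le_sum_of_subset_of_nonneg (Finset.filter_subset _ _) fun x _ _ =>
            mul_nonneg hB (mul_nonneg hs2.le (hq (l k) x))
      _ ≤ B * (√2 * Δ) := by
          rw [← Finset.mul_sum, ← Finset.mul_sum]
          exact mul_le_mul_of_nonneg_left (mul_le_mul_of_nonneg_left (hΔ k hkK) hs2.le) hB

/-- In a localised equilibrium the vertices whose labels have payoff at most `Δ` satisfy the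
level-wise bound.  `l k` is the label of `z` at the scale `2 ^ (-k)`, `k ≤ K`, where
`2 ^ (-K)` is at most the smallest scale. -/
theorem lvl_of_DD [Fintype Λ] (hn : ∀ x, 0 ≤ n x) (hc : ∀ x l, 0 ≤ c x l) {z : V}
    {K : ℕ} (l : ℕ → Λ) (hl : ∀ k ≤ K, ∀ x, G.Adj z x → 1 ≤ c x (l k))
    (hbl : ∀ k ≤ K, b (l k) = (1 / 2 : ℝ) ^ k) {Δ : ℝ}
    (hΔ : ∀ k ≤ K, DD n e c π b (l k) ≤ Δ)
    (ha1 : ∀ x, (1 / 2 : ℝ) ^ K ≤ alp e c π b x) (ha2 : ∀ x, alp e c π b x < 2) :
    Lvl G n (alp e c π b) (√2 * Δ) z := by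
  intro A hA
  have h := window_le (n'' := n) (B := 1) hn (alp_pos e c π b) hc (alp_pos e c π b) l
    (fun x => G.Adj z x) hl hbl hΔ zero_le_one (fun x _ => by rw [one_mul]) ha1 ha2 hA
  rwa [one_mul] at h

end LE

/-! ### DOWN, UP and EQ edges -/

section Edges

variable {G : SimpleGraph V} {n n' a : V → ℝ}

/-- Markov's inequality. -/
theorem markov_ge (hn : ∀ z, 0 ≤ n z) {f : V → ℝ} (hf : ∀ z, 0 ≤ f z) {w : ℝ} (hw : 0 < w) :
    ∑ z with w ≤ f z, n z ≤ (∑ z, n z * f z) / w := by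
  rw [le_div_iff₀ hw, Finset.sum_mul]
  refine (Finset.sum_le_sum fun z hz => ?_).trans
    (Finset.sum_le_sum_of_subset_of_nonneg (Finset.filter_subset _ _)
      fun z _ _ => mul_nonneg (hn z) (hf z))
  exact mul_le_mul_of_nonneg_left (Finset.mem_filter.1 hz).2 (hn z)

/-- The mass of the neighbours of `z` which are higher by a factor `Γ`. -/
noncomputable def DnM (G : SimpleGraph V) (n a : V → ℝ) (Γ : ℝ) (z : V) : ℝ :=
  ∑ x with G.Adj z x ∧ Γ * a z ≤ a x, n x / a x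

theorem DnM_nonneg (hn : ∀ x, 0 ≤ n x) (ha : ∀ x, 0 < a x) (Γ : ℝ) (z : V) :
    0 ≤ DnM G n a Γ z :=
  Finset.sum_nonneg fun x _ => div_nonneg (hn x) (ha x).le

/-- The DOWN flux: in the mean the neighbours of higher scale have small `n / a`-mass. -/
theorem dn_flux (hn : ∀ x, 0 ≤ n x) (ha : ∀ x, 0 < a x) {C Γ : ℝ} (hΓ : 0 < Γ)
    (h : ∀ x, n x ≠ 0 → Low G n' a C x) :
    ∑ z, n' z * DnM G n a Γ z ≤ C / Γ * ∑ x, n x := by
  have h1 : ∑ z, n' z * DnM G n a Γ z =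
      ∑ x, n x / a x * ∑ z with G.Adj x z ∧ a z ≤ a x / Γ, n' z := by
    unfold DnM
    simp_rw [Finset.mul_sum, Finset.sum_filter]
    rw [Finset.sum_comm]
    refine Finset.sum_congr rfl fun x _ => Finset.sum_congr rfl fun z _ => ?_
    by_cases hz : G.Adj z x ∧ Γ * a z ≤ a x
    · rw [if_pos hz, if_pos ⟨hz.1.symm, by rw [le_div_iff₀ hΓ, mul_comm]; exact hz.2⟩]
      ring
    · rw [if_neg hz, if_neg fun hz' => hz ⟨hz'.1.symm, by
        rw [mul_comm, ← le_div_iff₀ hΓ]; exact hz'.2⟩]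
      try simp
  rw [h1, Finset.mul_sum]
  refine Finset.sum_le_sum fun x _ => ?_
  by_cases hx : n x = 0
  · rw [hx, zero_div, zero_mul, mul_zero]
  · have h2 := h x hx (a x / Γ) (div_nonneg (ha x).le hΓ.le)
    calc n x / a x * ∑ z with G.Adj x z ∧ a z ≤ a x / Γ, n' z
        ≤ n x / a x * (C * (a x / Γ)) :=
          mul_le_mul_of_nonneg_left h2 (div_nonneg (hn x) (ha x).le)
      _ = C / Γ * n x := by
          have := (ha x).ne'
          field_simp

/-- Level-wise bound for the neighbours which are lower by the factor `Γ`. -/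
def UpL (G : SimpleGraph V) (n a : V → ℝ) (Γ C : ℝ) (z : V) : Prop :=
  ∀ A : ℝ, 0 < A → ∑ x with (G.Adj z x ∧ Γ * a x ≤ a z) ∧ A ≤ a x ∧ a x ≤ 2 * A, n x / a x ≤ C

/-- UP edges: `A'` is the scale of a law on the labels of high vertices, with the first order
condition for the node measure `n`; the measure `n'' ≤ B * n` lives on the vertices for which this
scale is at most `th * a`. -/
theorem upL_of_foc {Λ : Type*} {c : V → Λ → ℝ} {b : Λ → ℝ} {A' n'' : V → ℝ}
    (hn : ∀ x, 0 ≤ n x) (hA' : ∀ x, 0 < A' x) (hc : ∀ x l, 0 ≤ c x l) (ha : ∀ x, 0 < a x)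
    {K : ℕ} (l : ℕ → Λ) {Γ : ℝ} {z : V}
    (hl : ∀ k ≤ K, ∀ x, G.Adj z x → Γ * a x ≤ a z → 1 ≤ c x (l k))
    (hbl : ∀ k ≤ K, b (l k) = (1 / 2 : ℝ) ^ k) {Δ B th : ℝ}
    (hΔ : ∀ k ≤ K, ∑ x, n x / A' x * (c x (l k) * kp (a x / b (l k))) ≤ Δ) (hB : 0 ≤ B)
    (hth : 0 ≤ th) (hle : ∀ x, n'' x ≤ B * n x) (hstop : ∀ x, n'' x ≠ 0 → A' x ≤ th * a x)
    (ha1 : ∀ x, (1 / 2 : ℝ) ^ K ≤ a x) (ha2 : ∀ x, a x < 2) :
    UpL G n'' a Γ (B * th * (√2 * Δ)) z := by
  intro A hA
  refine le_trans (le_of_eq (Finset.sum_congr ?_ fun _ _ => rfl))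
    (window_le (n'' := n'') hn hA' hc ha l (fun x => G.Adj z x ∧ Γ * a x ≤ a z)
    (fun k hk x hx => hl k hk x hx.1 hx.2) hbl hΔ (mul_nonneg hB hth) (fun x _ => ?_) ha1 ha2 hA)
  · ext x
    simp only [Finset.mem_filter]
  by_cases hx : n'' x = 0
  · rw [hx, zero_div]
    exact mul_nonneg (mul_nonneg hB hth) (div_nonneg (hn x) (hA' x).le)
  · have h1 := hstop x hx
    have h2 := ha x
    have h3 := hA' x
    calc n'' x / a x ≤ B * n x / a x := div_le_div_of_nonneg_right (hle x) h2.le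
      _ = B * n x * (1 / a x) := by ring
      _ ≤ B * n x * (th / A' x) := by
          refine mul_le_mul_of_nonneg_left ?_ (mul_nonneg hB (hn x))
          rw [div_le_div_iff₀ h2 h3, one_mul]
          exact h1
      _ = B * th * (n x / A' x) := by ring

/-- The mass of the neighbours of comparable scale. -/
noncomputable def EqM (G : SimpleGraph V) (n a : V → ℝ) (Γ : ℝ) (z : V) : ℝ :=
  ∑ x with G.Adj z x ∧ a z ≤ Γ * a x ∧ a x ≤ Γ * a z, n x / a x

theorem EqM_nonneg (hn : ∀ x, 0 ≤ n x) (ha : ∀ x, 0 < a x) (Γ : ℝ) (z : V) :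
    0 ≤ EqM G n a Γ z :=
  Finset.sum_nonneg fun x _ => div_nonneg (hn x) (ha x).le

/-- Thin vertices. -/
theorem lvl_of_parts (hn : ∀ x, 0 ≤ n x) (ha : ∀ x, 0 < a x) {Γ u v w : ℝ} {z : V}
    (hu : UpL G n a Γ u z) (hv : EqM G n a Γ z ≤ v) (hw : DnM G n a Γ z ≤ w) :
    Lvl G n a (u + v + w) z := by
  intro A hA
  have h0 : ∀ x, 0 ≤ n x / a x := fun x => div_nonneg (hn x) (ha x).le
  have h1 : (univ.filter fun x => G.Adj z x ∧ A ≤ a x ∧ a x ≤ 2 * A) ⊆
      ((univ.filter fun x => (G.Adj z x ∧ Γ * a x ≤ a z) ∧ A ≤ a x ∧ a x ≤ 2 * A) ∪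
        (univ.filter fun x => G.Adj z x ∧ a z ≤ Γ * a x ∧ a x ≤ Γ * a z)) ∪
        (univ.filter fun x => G.Adj z x ∧ Γ * a z ≤ a x) := by
    intro x hx
    rw [Finset.mem_filter] at hx
    rw [Finset.mem_union, Finset.mem_union, Finset.mem_filter, Finset.mem_filter,
      Finset.mem_filter]
    rcases le_total (Γ * a x) (a z) with h2 | h2
    · exact Or.inl (Or.inl ⟨mem_univ _, ⟨hx.2.1, h2⟩, hx.2.2⟩)
    · rcases le_total (a x) (Γ * a z) with h3 | h3
      · exact Or.inl (Or.inr ⟨mem_univ _, hx.2.1, h2, h3⟩)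
      · exact Or.inr ⟨mem_univ _, hx.2.1, h3⟩
  have hun : ∀ S T : Finset V, ∑ x ∈ S ∪ T, n x / a x ≤
      ∑ x ∈ S, n x / a x + ∑ x ∈ T, n x / a x := by
    intro S T
    rw [← Finset.sum_union_inter]
    have : 0 ≤ ∑ x ∈ S ∩ T, n x / a x := Finset.sum_nonneg fun x _ => h0 x
    linarith
  refine (Finset.sum_le_sum_of_subset_of_nonneg h1 fun x _ _ => h0 x).trans ?_
  refine (hun _ _).trans (add_le_add ((hun _ _).trans (add_le_add (hu A hA) hv)) hw)

/-- The EQ flux: vertices with a large mass of neighbours of comparable scale are rare. -/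
theorem eq_rare (hn : ∀ x, 0 ≤ n x) (ha : ∀ x, 0 < a x) {Γ ζ v : ℝ} (hv : 0 < v)
    (h : ∑ z, n z * EqM G n a Γ z ≤ ζ) : ∑ z with v ≤ EqM G n a Γ z, n z ≤ ζ / v :=
  (markov_ge hn (EqM_nonneg hn ha Γ) hv).trans (div_le_div_of_nonneg_right h hv.le)

/-- The DOWN flux: vertices with a large mass of neighbours of higher scale are rare. -/
theorem dn_rare (hn : ∀ x, 0 ≤ n x) (ha : ∀ x, 0 < a x) {C Γ w : ℝ} (hΓ : 0 < Γ) (hw : 0 < w)
    (h : ∀ x, n x ≠ 0 → Low G n a C x) :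
    ∑ z with w ≤ DnM G n a Γ z, n z ≤ C / (Γ * w) * ∑ x, n x := by
  refine (markov_ge hn (DnM_nonneg hn ha Γ) hw).trans ?_
  rw [div_le_iff₀ hw]
  refine (dn_flux hn ha hΓ h).trans (le_of_eq ?_)
  have h1 := hΓ.ne'
  have h2 := hw.ne'
  field_simp

end Edges

/-! ### Labels with few users -/

section Few

/-- Vertices which use labels with few users have small mass, if there are no atoms. -/
theorem few_users {V Λ : Type*} [Fintype Λ] {n a : V → ℝ} {q : V → Λ → ℝ} {π : Λ → ℝ}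
    {Y : Finset V} (hπ : ∀ l, 0 ≤ π l) (hq1 : ∀ x l, q x l ≤ π l)
    {th ξ D : ℝ} (hth : 0 < th) (hξ : 0 ≤ ξ)
    (hat : ∀ x ∈ Y, n x ≤ ξ * a x) (Gd : V → Finset Λ)
    (hx : ∀ x ∈ Y, th * a x ≤ ∑ l ∈ Gd x, q x l)
    (hD : ∀ l, ((Y.filter fun x => l ∈ Gd x).card : ℝ) ≤ D) :
    ∑ x ∈ Y, n x ≤ ξ * D / th * ∑ l, π l := by
  have h1 : ∀ x ∈ Y, n x ≤ ξ / th * ∑ l ∈ Gd x, π l := by
    intro x hxY
    have h2 : th * a x ≤ ∑ l ∈ Gd x, π l :=
      (hx x hxY).trans (Finset.sum_le_sum fun l _ => hq1 x l)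
    have h3 : a x ≤ (∑ l ∈ Gd x, π l) / th := by
      rw [le_div_iff₀ hth]
      linarith
    calc n x ≤ ξ * a x := hat x hxY
      _ ≤ ξ * ((∑ l ∈ Gd x, π l) / th) := mul_le_mul_of_nonneg_left h3 hξ
      _ = ξ / th * ∑ l ∈ Gd x, π l := by ring
  refine (Finset.sum_le_sum h1).trans ?_
  rw [← Finset.mul_sum]
  have h4 : ∑ x ∈ Y, ∑ l ∈ Gd x, π l = ∑ l, ((Y.filter fun x => l ∈ Gd x).card : ℝ) * π l := by
    have h5 : ∀ x, ∑ l ∈ Gd x, π l = ∑ l, if l ∈ Gd x then π l else 0 := by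
      intro x
      rw [Finset.sum_ite_mem, Finset.univ_inter]
    simp_rw [h5]
    rw [Finset.sum_comm]
    refine Finset.sum_congr rfl fun l _ => ?_
    rw [← Finset.sum_filter, Finset.sum_const, nsmul_eq_mul]
  rw [h4]
  calc ξ / th * ∑ l, ((Y.filter fun x => l ∈ Gd x).card : ℝ) * π l
      ≤ ξ / th * ∑ l, D * π l := by
        refine mul_le_mul_of_nonneg_left (Finset.sum_le_sum fun l _ => ?_) (by positivity)
        exact mul_le_mul_of_nonneg_right (hD l) (hπ l)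
    _ = ξ * D / th * ∑ l, π l := by
        rw [← Finset.mul_sum]
        ring

end Few

end Pool.Agent.Lib.GSLE
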