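import Mathlib

/-!
# Atoms

`n` is a measure on the vertices of a finite graph.  The set of the atoms of `n`
(`xi * n (N x) < n x`) is colourable with a bounded number of colours, for every measure.  If `n'`
is a part of `n` without atoms on whose support `n x` is at least `xi2 * alp x`, and the level-wise
bounds `n {z ~ x : alp z ≤ A} ≤ C * A` hold, there is a contradiction.
-/

set_option autoImplicit false

open Finset Classical

namespace Pool.Agent.Lib.GSLE

variable {V : Type*}

/-- Degenerate sets are colourable. -/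
theorem col_degen (G : SimpleGraph V) (k : ℕ) (A : Finset V)
    (h : ∀ B ⊆ A, B.Nonempty → ∃ x ∈ B, (B.filter fun z => G.Adj x z).card < k) :
    ∃ f : V → ℕ, (∀ v ∈ A, f v < k) ∧ ∀ u ∈ A, ∀ v ∈ A, G.Adj u v → f u ≠ f v := by
  induction A using Finset.strongInduction with
  | H A ih =>
    by_cases hA : A.Nonempty
    · obtain ⟨x, hx, hxk⟩ := h A Finset.Subset.rfl hA
      obtain ⟨f, hf1, hf2⟩ := ih (A.erase x) (Finset.erase_ssubset hx) fun B hB hB' =>
        h B (hB.trans (Finset.erase_subset _ _)) hB'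
      have hcard : ((A.filter fun z => G.Adj x z).image f).card < (Finset.range k).card := by
        rw [Finset.card_range]
        exact Finset.card_image_le.trans_lt hxk
      obtain ⟨c, hc1, hc2⟩ := Finset.exists_mem_notMem_of_card_lt_card hcard
      rw [Finset.mem_range] at hc1
      have hne : ∀ v ∈ A, G.Adj x v → c ≠ f v := fun v hv hxv hcv =>
        hc2 (Finset.mem_image.2 ⟨v, Finset.mem_filter.2 ⟨hv, hxv⟩, hcv.symm⟩)
      refine ⟨Function.update f x c, ?_, ?_⟩
      · intro v hv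
        by_cases hvx : v = x
        · rw [hvx, Function.update_self]
          exact hc1
        · rw [Function.update_of_ne hvx]
          exact hf1 v (Finset.mem_erase.2 ⟨hvx, hv⟩)
      · intro u hu v hv huv
        by_cases hux : u = x
        · subst hux
          rw [Function.update_self, Function.update_of_ne huv.ne']
          exact hne v hv huv
        · by_cases hvx : v = x
          · subst hvx
            rw [Function.update_self, Function.update_of_ne hux]
            exact (hne u hu huv.symm).symm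
          · rw [Function.update_of_ne hux, Function.update_of_ne hvx]
            exact hf2 u (Finset.mem_erase.2 ⟨hux, hu⟩) v (Finset.mem_erase.2 ⟨hvx, hv⟩) huv
    · rw [Finset.not_nonempty_iff_eq_empty] at hA
      subst hA
      exact ⟨fun _ => 0, fun v hv => absurd hv (Finset.notMem_empty _), fun u hu =>
        absurd hu (Finset.notMem_empty _)⟩

/-- The set of the atoms is colourable: `U` is a set of vertices, `A ⊆ U` a set of vertices `x`
with `xi * n (N x ∩ U) < n x`. -/
theorem atoms_col (G : SimpleGraph V) (n : V → ℝ) (hn : ∀ x, 0 ≤ n x) {xi : ℝ} (hxi : 0 < xi)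
    (U A : Finset V) (hAU : A ⊆ U)
    (hA : ∀ x ∈ A, xi * ∑ z ∈ U with G.Adj x z, n z < n x) :
    ∃ f : V → ℕ, (∀ v ∈ A, f v < ⌈1 / xi⌉₊) ∧
      ∀ u ∈ A, ∀ v ∈ A, G.Adj u v → f u ≠ f v := by
  refine col_degen G _ A fun B hB hB' => ?_
  obtain ⟨x, hx, hmin⟩ := Finset.exists_min_image B n hB'
  refine ⟨x, hx, ?_⟩
  have h1 := hA x (hB hx)
  have h2 : ((B.filter fun z => G.Adj x z).card : ℝ) * n x ≤ ∑ z ∈ U with G.Adj x z, n z := by
    have h3 : ∑ z ∈ B with G.Adj x z, n x ≤ ∑ z ∈ B with G.Adj x z, n z :=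
      Finset.sum_le_sum fun z hz => hmin z (Finset.mem_filter.1 hz).1
    rw [Finset.sum_const, nsmul_eq_mul] at h3
    refine h3.trans (Finset.sum_le_sum_of_subset_of_nonneg ?_ fun z _ _ => hn z)
    exact Finset.filter_subset_filter _ (hB.trans hAU)
  have hpos : 0 < n x := by
    refine lt_of_le_of_lt ?_ h1
    exact mul_nonneg hxi.le (Finset.sum_nonneg fun z _ => hn z)
  have h4 : xi * ((B.filter fun z => G.Adj x z).card : ℝ) < 1 := by
    have h5 : xi * (((B.filter fun z => G.Adj x z).card : ℝ) * n x) < n x :=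
      (mul_le_mul_of_nonneg_left h2 hxi.le).trans_lt h1
    by_contra hcon
    rw [not_lt] at hcon
    have h6 : n x ≤ xi * ((B.filter fun z => G.Adj x z).card : ℝ) * n x := by
      nlinarith
    nlinarith
  have h7 : ((B.filter fun z => G.Adj x z).card : ℝ) < 1 / xi := by
    rw [lt_div_iff₀ hxi]
    linarith
  exact_mod_cast h7.trans_le (Nat.le_ceil _)

/-- The flux downwards is small: `n`-average of the flux from `x` to the neighbours `z` of a much
larger scale. -/
theorem down_flux [Fintype V] (G : SimpleGraph V) {n alp : V → ℝ} {C T Gam : ℝ}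
    (hn : ∀ x, 0 ≤ n x) (hT : ∑ x, n x ≤ T) (hC : 0 ≤ C) (hG : 0 < Gam)
    (ha : ∀ x, 0 < alp x)
    (hlev : ∀ x, n x ≠ 0 → ∀ a, 0 < a → ∑ z with G.Adj x z ∧ alp z ≤ a, n z ≤ C * a) :
    ∑ x, n x * ∑ z with G.Adj x z ∧ Gam * alp x ≤ alp z, n z / alp z ≤ C * T / Gam := by
  have h1 : ∑ x, n x * ∑ z with G.Adj x z ∧ Gam * alp x ≤ alp z, n z / alp z =
      ∑ z, n z / alp z * ∑ x with G.Adj z x ∧ alp x ≤ alp z / Gam, n x := by
    simp_rw [Finset.mul_sum, Finset.sum_filter]
    rw [Finset.sum_comm]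
    refine Finset.sum_congr rfl fun z _ => Finset.sum_congr rfl fun x _ => ?_
    have h2 : (G.Adj x z ∧ Gam * alp x ≤ alp z) ↔ (G.Adj z x ∧ alp x ≤ alp z / Gam) := by
      rw [G.adj_comm, le_div_iff₀ hG, mul_comm Gam]
    by_cases h3 : G.Adj x z ∧ Gam * alp x ≤ alp z
    · rw [if_pos h3, if_pos (h2.1 h3)]
      ring
    · rw [if_neg h3, if_neg (fun h => h3 (h2.2 h))]
  rw [h1]
  calc ∑ z, n z / alp z * ∑ x with G.Adj z x ∧ alp x ≤ alp z / Gam, n x
      ≤ ∑ z, n z * (C / Gam) := by
        refine Finset.sum_le_sum fun z _ => ?_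
        by_cases hz : n z = 0
        · rw [hz, zero_div, zero_mul, zero_mul]
        · have h2 := hlev z hz (alp z / Gam) (div_pos (ha z) hG)
          have h3 : 0 ≤ n z / alp z := div_nonneg (hn z) (ha z).le
          refine (mul_le_mul_of_nonneg_left h2 h3).trans (le_of_eq ?_)
          have := (ha z).ne'
          field_simp
    _ = (∑ z, n z) * (C / Gam) := by rw [Finset.sum_mul]
    _ ≤ T * (C / Gam) := mul_le_mul_of_nonneg_right hT (div_nonneg hC hG.le)
    _ = C * T / Gam := by ring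

/-- A part `n'` of `n` without atoms cannot live on the set `{xi2 * alp ≤ n}`. -/
theorem atoms_le [Fintype V] (G : SimpleGraph V) {n n' alp : V → ℝ} {c C T xi1 xi2 : ℝ}
    (hn : ∀ x, 0 ≤ n x) (hT : ∑ x, n x ≤ T) (hn' : ∀ x, 0 ≤ n' x) (hnn : ∀ x, n' x ≤ n x)
    (hc : 0 < c) (hc' : c ≤ ∑ x, n' x) (hC : 0 < C) (ha : ∀ x, 0 < alp x)
    (hlev : ∀ x, n x ≠ 0 → ∀ a, 0 < a → ∑ z with G.Adj x z ∧ alp z ≤ a, n z ≤ C * a)
    (hxi2 : 0 < xi2)
    (hat : ∀ x, n' x ≠ 0 → n' x ≤ xi1 * ∑ z with G.Adj x z, n' z)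
    (hbig : ∀ x, n' x ≠ 0 → xi2 * alp x ≤ n x) :
    c ^ 2 * xi2 ^ 2 ≤ 16 * C ^ 2 * T ^ 2 * xi1 := by
  have hT0 : 0 < T := hc.trans_le (hc'.trans ((Finset.sum_le_sum fun x _ => hnn x).trans hT))
  obtain ⟨Gam, hGam⟩ : ∃ Gam : ℝ, Gam = 4 * C * T / (c * xi2) := ⟨_, rfl⟩
  have hG : 0 < Gam := by rw [hGam]; positivity
  obtain ⟨dn, hdn⟩ : ∃ dn : V → ℝ, dn = fun x =>
    ∑ z with G.Adj x z ∧ Gam * alp x ≤ alp z, n z / alp z := ⟨_, rfl⟩
  have hdn0 : ∀ x, 0 ≤ dn x := by
    intro x
    rw [hdn]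
    exact Finset.sum_nonneg fun z _ => div_nonneg (hn z) (ha z).le
  have hfl : ∑ x, n x * dn x ≤ C * T / Gam := by
    rw [hdn]
    exact down_flux G hn hT hC.le hG ha hlev
  -- a good vertex
  have hex : ∃ x, n' x ≠ 0 ∧ n x ≤ 4 * T / c * n' x ∧ dn x < xi2 := by
    by_contra hcon
    push Not at hcon
    have h1 : ∀ x, n' x ≤ c / (4 * T) * n x + 1 / xi2 * (n x * dn x) := by
      intro x
      have h4 : 0 ≤ c / (4 * T) * n x := mul_nonneg (by positivity) (hn x)
      have h5 : 0 ≤ 1 / xi2 * (n x * dn x) :=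
        mul_nonneg (by positivity) (mul_nonneg (hn x) (hdn0 x))
      by_cases hx : n' x = 0
      · rw [hx]
        linarith
      · by_cases hx2 : n x ≤ 4 * T / c * n' x
        · have h6 := hcon x hx hx2
          have h7 : n' x * xi2 ≤ n x * dn x :=
            mul_le_mul (hnn x) h6 hxi2.le (hn x)
          have h8 : n' x ≤ 1 / xi2 * (n x * dn x) := by
            rw [one_div, ← div_eq_inv_mul, le_div_iff₀ hxi2]
            exact h7
          linarith
        · rw [not_le] at hx2
          have h8 : n' x ≤ c / (4 * T) * n x := by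
            have h9 : c / (4 * T) * (4 * T / c * n' x) = n' x := by field_simp
            rw [← h9]
            exact mul_le_mul_of_nonneg_left hx2.le (by positivity)
          linarith
    have h2 : ∑ x, n' x ≤ c / (4 * T) * ∑ x, n x + 1 / xi2 * ∑ x, n x * dn x := by
      rw [Finset.mul_sum, Finset.mul_sum, ← Finset.sum_add_distrib]
      exact Finset.sum_le_sum fun x _ => h1 x
    have h3 : c / (4 * T) * ∑ x, n x ≤ c / 4 := by
      refine (mul_le_mul_of_nonneg_left hT (by positivity)).trans (le_of_eq ?_)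
      field_simp
    have h4 : 1 / xi2 * ∑ x, n x * dn x ≤ c / 4 := by
      refine (mul_le_mul_of_nonneg_left hfl (by positivity)).trans (le_of_eq ?_)
      rw [hGam]
      field_simp
    linarith
  obtain ⟨x, hx0, hx1, hx2⟩ := hex
  have h1 := hat x hx0
  have h2 := hbig x hx0
  have hn'x : 0 < n' x := lt_of_le_of_ne (hn' x) (Ne.symm hx0)
  have hnx : n x ≠ 0 := (hn'x.trans_le (hnn x)).ne'
  have h3 : ∑ z with G.Adj x z, n' z ≤ ∑ z with G.Adj x z ∧ alp z ≤ Gam * alp x, n z := by
    rw [Finset.sum_filter, Finset.sum_filter]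
    refine Finset.sum_le_sum fun z _ => ?_
    by_cases hxz : G.Adj x z
    · rw [if_pos hxz]
      by_cases hz : alp z ≤ Gam * alp x
      · rw [if_pos ⟨hxz, hz⟩]
        exact hnn z
      · rw [if_neg (fun h => hz h.2)]
        rw [not_le] at hz
        by_contra hcon
        rw [not_le] at hcon
        have h4 := hbig z hcon.ne'
        have h5 : n z / alp z ≤ dn x := by
          rw [hdn]
          exact Finset.single_le_sum (f := fun z => n z / alp z)
            (fun z _ => div_nonneg (hn z) (ha z).le)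
            (Finset.mem_filter.2 ⟨Finset.mem_univ _, hxz, hz.le⟩)
        have h6 : xi2 ≤ n z / alp z := by
          rw [le_div_iff₀ (ha z)]
          exact h4
        linarith
    · rw [if_neg hxz]
      split_ifs
      · exact hn z
      · exact le_rfl
  have h4 := h3.trans (hlev x hnx (Gam * alp x) (mul_pos hG (ha x)))
  have hxi1 : 0 ≤ xi1 := by
    by_contra hcon
    rw [not_le] at hcon
    have h5 : xi1 * ∑ z with G.Adj x z, n' z ≤ 0 :=
      mul_nonpos_of_nonpos_of_nonneg hcon.le (Finset.sum_nonneg fun z _ => hn' z)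
    linarith
  have h5 : n' x ≤ xi1 * (C * (Gam * alp x)) :=
    h1.trans (mul_le_mul_of_nonneg_left h4 hxi1)
  have h6 : xi2 * alp x ≤ 4 * T / c * (xi1 * (C * (Gam * alp x))) :=
    h2.trans (hx1.trans (mul_le_mul_of_nonneg_left h5 (by positivity)))
  have h7 : xi2 * alp x ≤ (16 * C ^ 2 * T ^ 2 * xi1 / (c ^ 2 * xi2)) * alp x := by
    refine h6.trans (le_of_eq ?_)
    rw [hGam]
    field_simp
    ring
  have h8 : xi2 ≤ 16 * C ^ 2 * T ^ 2 * xi1 / (c ^ 2 * xi2) := le_of_mul_le_mul_right h7 (ha x)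
  rw [le_div_iff₀ (by positivity)] at h8
  calc c ^ 2 * xi2 ^ 2 = xi2 * (c ^ 2 * xi2) := by ring
    _ ≤ _ := h8

end Pool.Agent.Lib.GSLE
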