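import Pool.Agent.Lib.GSLE.Pay

/-!
# The bracket function

`brk u = √u` for `u ≤ 1` and `u * √u` for `1 ≤ u`.  It is submultiplicative; the bounds for the
masters are stated with it: `m_v (N[z]) ≤ B * ∑ c, brk (a_c z / a_c v)`.
-/

set_option autoImplicit false

open Finset

namespace Pool.Agent.Lib.GSLE

/-- The bracket function. -/
noncomputable def brk (u : ℝ) : ℝ := √u * max u 1

theorem brk_nonneg (u : ℝ) : 0 ≤ brk u :=
  mul_nonneg (Real.sqrt_nonneg _) (zero_le_one.trans (le_max_right _ _))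

theorem brk_zero : brk 0 = 0 := by unfold brk; rw [Real.sqrt_zero, zero_mul]

theorem brk_one : brk 1 = 1 := by unfold brk; rw [Real.sqrt_one, max_self, one_mul]

theorem brk_mono {u v : ℝ} (h : u ≤ v) : brk u ≤ brk v :=
  mul_le_mul (Real.sqrt_le_sqrt h) (max_le_max h le_rfl) (zero_le_one.trans (le_max_right _ _))
    (Real.sqrt_nonneg _)

theorem brk_of_le {u : ℝ} (h : u ≤ 1) : brk u = √u := by
  unfold brk; rw [max_eq_right h, mul_one]

theorem brk_of_ge {u : ℝ} (h : 1 ≤ u) : brk u = √u * u := by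
  unfold brk; rw [max_eq_left h]

theorem brk_pos {u : ℝ} (h : 0 < u) : 0 < brk u :=
  mul_pos (Real.sqrt_pos.2 h) (zero_lt_one.trans_le (le_max_right _ _))

theorem brk_mul_le {u v : ℝ} (hu : 0 ≤ u) (hv : 0 ≤ v) : brk (u * v) ≤ brk u * brk v := by
  unfold brk
  rw [Real.sqrt_mul hu]
  have h1 : max (u * v) 1 ≤ max u 1 * max v 1 := by
    refine max_le ?_ ?_
    · exact mul_le_mul (le_max_left _ _) (le_max_left _ _) hv
        (zero_le_one.trans (le_max_right _ _))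
    · have h2 : (1 : ℝ) ≤ max u 1 := le_max_right _ _
      have h3 : (1 : ℝ) ≤ max v 1 := le_max_right _ _
      calc (1 : ℝ) = 1 * 1 := (one_mul 1).symm
        _ ≤ max u 1 * max v 1 := mul_le_mul h2 h3 zero_le_one (zero_le_one.trans h2)
  calc √u * √v * max (u * v) 1 ≤ √u * √v * (max u 1 * max v 1) :=
        mul_le_mul_of_nonneg_left h1 (mul_nonneg (Real.sqrt_nonneg _) (Real.sqrt_nonneg _))
    _ = √u * max u 1 * (√v * max v 1) := by ring

theorem brk_continuous : Continuous brk :=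
  Real.continuous_sqrt.mul (continuous_id.max continuous_const)

/-- The bracket in terms of `kp`. -/
theorem brk_eq {u : ℝ} (h : 0 < u) : brk u = u / kp u := by
  have hs : 0 < √u := Real.sqrt_pos.2 h
  have h2 : √u * √u = u := Real.mul_self_sqrt h.le
  rcases le_total u 1 with h1 | h1
  · rw [brk_of_le h1, kp_of_le h1, eq_div_iff hs.ne', h2]
  · rw [brk_of_ge h1, kp_of_ge h1]
    field_simp

/-- The bracket is at least the argument divided by itself: `u ≤ brk u` for `1 ≤ u`, and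
`u ≤ brk u` for `u ≤ 1` as well. -/
theorem le_brk {u : ℝ} (h : 0 ≤ u) : u ≤ brk u := by
  rcases le_total u 1 with h1 | h1
  · rw [brk_of_le h1]
    calc u = √u * √u := (Real.mul_self_sqrt h).symm
      _ ≤ √u * 1 := mul_le_mul_of_nonneg_left (Real.sqrt_le_one.2 h1) (Real.sqrt_nonneg _)
      _ = √u := mul_one _
  · rw [brk_of_ge h1]
    have h2 : 1 ≤ √u := Real.one_le_sqrt.2 h1
    nlinarith

/-- Products of three ratios. -/
theorem brk_div_le {u v w : ℝ} (hu : 0 ≤ u) (hv : 0 < v) (hw : 0 < w) :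
    brk (u / w) ≤ brk (u / v) * brk (v / w) := by
  have h1 : u / w = u / v * (v / w) := by field_simp
  rw [h1]
  exact brk_mul_le (div_nonneg hu hv.le) (div_nonneg hv.le hw.le)

/-- Transfer of the bounds of the masters: if `m_t (N[z]) ≤ B * ∑ c, brk (az c / at t c)` for all
`t`, then the mean over `q` is bounded in terms of the reference scales `b c`. -/
theorem brk_avg {T C : Type*} (S : Finset T) (Cs : Finset C) (q : T → ℝ) (hq : ∀ t, 0 ≤ q t)
    (m : T → ℝ) (az : C → ℝ) (haz : ∀ c, 0 ≤ az c) (at' : T → C → ℝ)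
    (hat : ∀ t ∈ S, ∀ c ∈ Cs, 0 < at' t c)
    (b : C → ℝ) (hb : ∀ c ∈ Cs, 0 < b c) {B δ : ℝ} (hB : 0 ≤ B)
    (hm : ∀ t ∈ S, q t ≠ 0 → m t ≤ B * ∑ c ∈ Cs, brk (az c / at' t c))
    (hδ : ∀ c ∈ Cs, ∑ t ∈ S, q t * brk (b c / at' t c) ≤ δ) :
    ∑ t ∈ S, q t * m t ≤ B * δ * ∑ c ∈ Cs, brk (az c / b c) := by
  calc ∑ t ∈ S, q t * m t ≤ ∑ t ∈ S, q t * (B * ∑ c ∈ Cs, brk (az c / b c) * brk (b c / at' t c)) := by
        refine Finset.sum_le_sum fun t ht => ?_
        by_cases h0 : q t = 0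
        · rw [h0, zero_mul, zero_mul]
        · refine mul_le_mul_of_nonneg_left ((hm t ht h0).trans ?_) (hq t)
          refine mul_le_mul_of_nonneg_left (Finset.sum_le_sum fun c hc => ?_) hB
          exact brk_div_le (haz c) (hb c hc) (hat t ht c hc)
    _ = B * ∑ c ∈ Cs, brk (az c / b c) * ∑ t ∈ S, q t * brk (b c / at' t c) := by
        simp_rw [Finset.mul_sum]
        rw [Finset.sum_comm]
        refine Finset.sum_congr rfl fun c _ => Finset.sum_congr rfl fun t _ => ?_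
        ring
    _ ≤ B * ∑ c ∈ Cs, brk (az c / b c) * δ := by
        refine mul_le_mul_of_nonneg_left (Finset.sum_le_sum fun c hc => ?_) hB
        exact mul_le_mul_of_nonneg_left (hδ c hc) (brk_nonneg _)
    _ = B * δ * ∑ c ∈ Cs, brk (az c / b c) := by
        rw [← Finset.sum_mul]
        ring

/-- The decay in the distance of the levels in terms of the bracket. -/
theorem inv_pow_ds_le {q : ℝ} (h0 : 0 < q) (hq : q * q = 1 / 2) {a b : ℝ} {k i : ℕ}
    (ha1 : (1 / 2 : ℝ) ^ k ≤ a) (ha2 : a < 2 * (1 / 2 : ℝ) ^ k)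
    (hb1 : (1 / 2 : ℝ) ^ i ≤ b) (hb2 : b < 2 * (1 / 2 : ℝ) ^ i) :
    (q ^ ds k i)⁻¹ ≤ √2 / kp (a / b) := by
  have hk0 : (0 : ℝ) < (1 / 2) ^ k := by positivity
  have hi0 : (0 : ℝ) < (1 / 2) ^ i := by positivity
  have ha0 : 0 < a := hk0.trans_le ha1
  have hb0 : 0 < b := hi0.trans_le hb1
  have hq1 : q ≤ 1 := by nlinarith
  have key : ∀ {u v : ℝ} {d : ℕ}, 0 < u → 0 < v → u ≤ v → v / u ≥ (2 : ℝ) ^ d / 2 →
      (q ^ d)⁻¹ ≤ √2 / kp (u / v) := by
    intro u v d hu hv huv h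
    have h1 : u / v ≤ 1 := (div_le_one hv).2 huv
    have h2 : 0 < √(u / v) := Real.sqrt_pos.2 (div_pos hu hv)
    rw [kp_of_le h1, inv_eq_one_div, div_le_div_iff₀ (by positivity) h2, one_mul]
    have h3 : q ^ d = √((1 / 2) ^ d) := by
      rw [← hq, mul_pow, Real.sqrt_mul_self (by positivity)]
    rw [h3, ← Real.sqrt_mul (by norm_num)]
    refine Real.sqrt_le_sqrt ?_
    rw [div_le_iff₀ hv]
    have h4 : (2 : ℝ) ^ d / 2 * u ≤ v := (le_div_iff₀ hu).1 h
    have h5 : (2 : ℝ) ^ d * (1 / 2) ^ d = 1 := by rw [← mul_pow]; norm_num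
    have h6 : (0 : ℝ) < (1 / 2) ^ d := by positivity
    calc u = 2 * (1 / 2) ^ d * ((2 : ℝ) ^ d / 2 * u) := by
          linear_combination (-u) * h5
      _ ≤ 2 * (1 / 2) ^ d * v := mul_le_mul_of_nonneg_left h4 (by positivity)
  rcases le_total a b with hab | hab
  · refine key ha0 hb0 hab ?_
    by_cases hki : k ≤ i
    · have h1 : ds k i = i - k := by unfold ds; omega
      have h2 : (1 : ℝ) ≤ b / a := (one_le_div ha0).2 hab
      rcases Nat.eq_zero_or_pos (i - k) with h3 | h3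
      · rw [h1, h3]
        norm_num
        linarith
      · exfalso
        have h4 : (1 / 2 : ℝ) ^ i ≤ (1 / 2) ^ (k + 1) :=
          pow_le_pow_of_le_one (by norm_num) (by norm_num) (by omega)
        rw [pow_succ] at h4
        linarith
    · have h1 : ds k i = k - i := by unfold ds; omega
      rw [h1, ge_iff_le, le_div_iff₀ ha0]
      have h5 : (2 : ℝ) ^ (k - i) * (1 / 2) ^ k = (1 / 2) ^ i := by
        have h6 : (1 / 2 : ℝ) ^ k = (1 / 2) ^ (k - i) * (1 / 2) ^ i := by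
          rw [← pow_add]; congr 1; omega
        rw [h6, ← mul_assoc, ← mul_pow]
        norm_num
      calc (2 : ℝ) ^ (k - i) / 2 * a ≤ (2 : ℝ) ^ (k - i) / 2 * (2 * (1 / 2) ^ k) :=
            mul_le_mul_of_nonneg_left ha2.le (by positivity)
        _ = (2 : ℝ) ^ (k - i) * (1 / 2) ^ k := by ring
        _ = (1 / 2) ^ i := h5
        _ ≤ b := hb1
  · have hsym : kp (a / b) = kp (b / a) := by
      have h7 : b / a = (a / b)⁻¹ := (inv_div a b).symm
      have h8 : 0 < a / b := div_pos ha0 hb0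
      have h9 : 1 ≤ a / b := (one_le_div hb0).2 hab
      have h10 : (a / b)⁻¹ ≤ 1 := inv_le_one_of_one_le₀ h9
      rw [h7, kp_of_ge h9, kp_of_le h10, Real.sqrt_inv, one_div]
    rw [hsym]
    refine key hb0 ha0 hab ?_
    by_cases hki : i ≤ k
    · have h1 : ds k i = k - i := by unfold ds; omega
      have h2 : (1 : ℝ) ≤ a / b := (one_le_div hb0).2 hab
      rcases Nat.eq_zero_or_pos (k - i) with h3 | h3
      · rw [h1, h3]
        norm_num
        linarith
      · exfalso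
        have h4 : (1 / 2 : ℝ) ^ k ≤ (1 / 2) ^ (i + 1) :=
          pow_le_pow_of_le_one (by norm_num) (by norm_num) (by omega)
        rw [pow_succ] at h4
        linarith
    · have h1 : ds k i = i - k := by unfold ds; omega
      rw [h1, ge_iff_le, le_div_iff₀ hb0]
      have h5 : (2 : ℝ) ^ (i - k) * (1 / 2) ^ i = (1 / 2) ^ k := by
        have h6 : (1 / 2 : ℝ) ^ i = (1 / 2) ^ (i - k) * (1 / 2) ^ k := by
          rw [← pow_add]; congr 1; omega
        rw [h6, ← mul_assoc, ← mul_pow]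
        norm_num
      calc (2 : ℝ) ^ (i - k) / 2 * b ≤ (2 : ℝ) ^ (i - k) / 2 * (2 * (1 / 2) ^ i) :=
            mul_le_mul_of_nonneg_left hb2.le (by positivity)
        _ = (2 : ℝ) ^ (i - k) * (1 / 2) ^ i := by ring
        _ = (1 / 2) ^ k := h5
        _ ≤ a := ha1

/-- **Payment principle** with the bracket: if `gp u ≤ Bd`, the mean charge of the labels of any
vertex of scale `ax`, seen by `u`, is at most `√2 * C1 * Bd * ax * brk (a u / ax)`. -/
theorem pay_brk {V B Λ : Type*} [Fintype V] [Fintype B] [Fintype Λ] {q : ℝ} (h0 : 0 < q)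
    (hq : q * q = 1 / 2) {a : V → ℝ} {k : V → ℕ} {A : V → B → ℝ}
    {ρ : Λ → ℝ} {i : Λ → ℕ} {R : Λ → B → ℝ} (hρ : ∀ l, 0 ≤ ρ l) (hR : ∀ l b, 0 ≤ R l b)
    (hA : ∀ u b, 0 ≤ A u b) (ha : ∀ u, 0 < a u) {u : V}
    (hu1 : (1 / 2 : ℝ) ^ k u ≤ a u) (hu2 : a u < 2 * (1 / 2 : ℝ) ^ k u) {Bd : ℝ} (hBd : 0 ≤ Bd)
    (hB : gp q a k A ρ i R u ≤ Bd) {kx : ℕ} {ax : ℝ} (hx1 : (1 / 2 : ℝ) ^ kx ≤ ax)
    (hx2 : ax < 2 * (1 / 2 : ℝ) ^ kx) {c : Λ → ℝ} {C1 : ℝ} (hC1 : 0 ≤ C1)
    (hcl : ∀ l, c l ≤ C1 * q ^ ds kx (i l)) :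
    ∑ l, c l * ρ l * ∑ b, R l b * A u b ≤ √2 * C1 * Bd * ax * brk (a u / ax) := by
  have hq1 : q ≤ 1 := by nlinarith
  have hax : 0 < ax := lt_of_lt_of_le (by positivity) hx1
  have hr : 0 < a u / ax := div_pos (ha u) hax
  have h1 := pay_point h0 hq1 hρ hR hA ha hB kx hC1 hcl
  have h2 : (q ^ ds kx (k u))⁻¹ ≤ √2 / kp (a u / ax) := by
    rw [ds_comm]
    exact inv_pow_ds_le h0 hq hu1 hu2 hx1 hx2
  refine h1.trans ?_
  have h3 : 0 ≤ C1 * Bd * a u := mul_nonneg (mul_nonneg hC1 hBd) (ha u).le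
  refine (mul_le_mul_of_nonneg_left h2 h3).trans (le_of_eq ?_)
  rw [brk_eq hr]
  have h4 : 0 < kp (a u / ax) := kp_pos hr
  field_simp

end Pool.Agent.Lib.GSLE
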