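import Pool.Agent.Lib.GSLE.Brk

/-!
# The bracket function with an exponent

`brw e u = u ^ (1 - e)` for `u ≤ 1` and `u ^ (1 + e)` for `1 ≤ u` (`0 ≤ e < 1`): continuous on
`ℝ`, monotone and submultiplicative for nonnegative arguments; it is comparable with the bracket
`a / b * q ^ (- ds k i)` of the levels for `q = (1/2) ^ e`.
-/

set_option autoImplicit false

open Finset

namespace Pool.Agent.Lib.GSLE

/-- The bracket function with the exponent `e`. -/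
noncomputable def brw (e u : ℝ) : ℝ := u ^ (1 - e) * max u 1 ^ (2 * e)

theorem max_pos (u : ℝ) : 0 < max u 1 := zero_lt_one.trans_le (le_max_right _ _)

theorem brw_nonneg (e : ℝ) {u : ℝ} (hu : 0 ≤ u) : 0 ≤ brw e u :=
  mul_nonneg (Real.rpow_nonneg hu _) (Real.rpow_nonneg (max_pos u).le _)

theorem brw_pos (e : ℝ) {u : ℝ} (hu : 0 < u) : 0 < brw e u :=
  mul_pos (Real.rpow_pos_of_pos hu _) (Real.rpow_pos_of_pos (max_pos u) _)

theorem brw_one (e : ℝ) : brw e 1 = 1 := by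
  unfold brw; rw [max_self, Real.one_rpow, Real.one_rpow, one_mul]

theorem brw_zero {e : ℝ} (h : e < 1) : brw e 0 = 0 := by
  unfold brw; rw [Real.zero_rpow (by linarith), zero_mul]

theorem brw_mono {e : ℝ} (h0 : 0 ≤ e) (h1 : e ≤ 1) {u v : ℝ} (hu : 0 ≤ u) (h : u ≤ v) :
    brw e u ≤ brw e v :=
  mul_le_mul (Real.rpow_le_rpow hu h (by linarith))
    (Real.rpow_le_rpow (max_pos u).le (max_le_max h le_rfl) (by linarith))
    (Real.rpow_nonneg (max_pos u).le _) (Real.rpow_nonneg (hu.trans h) _)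

theorem brw_mul_le {e : ℝ} (h0 : 0 ≤ e) {u v : ℝ} (hu : 0 ≤ u) (hv : 0 ≤ v) :
    brw e (u * v) ≤ brw e u * brw e v := by
  unfold brw
  rw [Real.mul_rpow hu hv]
  have h1 : max (u * v) 1 ≤ max u 1 * max v 1 := by
    refine max_le ?_ ?_
    · exact mul_le_mul (le_max_left _ _) (le_max_left _ _) hv (max_pos u).le
    · have h2 : (1 : ℝ) ≤ max u 1 := le_max_right _ _
      have h3 : (1 : ℝ) ≤ max v 1 := le_max_right _ _
      calc (1 : ℝ) = 1 * 1 := (one_mul 1).symm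
        _ ≤ max u 1 * max v 1 := mul_le_mul h2 h3 zero_le_one (zero_le_one.trans h2)
  have h4 : max (u * v) 1 ^ (2 * e) ≤ max u 1 ^ (2 * e) * max v 1 ^ (2 * e) := by
    rw [← Real.mul_rpow (max_pos u).le (max_pos v).le]
    exact Real.rpow_le_rpow (max_pos _).le h1 (by linarith)
  calc u ^ (1 - e) * v ^ (1 - e) * max (u * v) 1 ^ (2 * e)
      ≤ u ^ (1 - e) * v ^ (1 - e) * (max u 1 ^ (2 * e) * max v 1 ^ (2 * e)) :=
        mul_le_mul_of_nonneg_left h4 (mul_nonneg (Real.rpow_nonneg hu _) (Real.rpow_nonneg hv _))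
    _ = u ^ (1 - e) * max u 1 ^ (2 * e) * (v ^ (1 - e) * max v 1 ^ (2 * e)) := by ring

theorem brw_continuous {e : ℝ} (h0 : 0 ≤ e) (h1 : e ≤ 1) : Continuous (brw e) :=
  (Real.continuous_rpow_const (by linarith)).mul
    ((Real.continuous_rpow_const (by linarith)).comp (continuous_id.max continuous_const))

/-- Composition with continuous functions. -/
theorem brw_continuousOn {T : Type*} [TopologicalSpace T] {S : Set T} {f : T → ℝ} {e : ℝ}
    (h0 : 0 ≤ e) (h1 : e ≤ 1) (hf : ContinuousOn f S) : ContinuousOn (fun t => brw e (f t)) S :=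
  (brw_continuous h0 h1).comp_continuousOn hf

/-- `brw e u = u * max u (1 / u) ^ e`. -/
theorem brw_eq {e u : ℝ} (hu : 0 < u) : brw e u = u * max u u⁻¹ ^ e := by
  unfold brw
  rcases le_total u 1 with h1 | h1
  · have h2 : max u u⁻¹ = u⁻¹ := max_eq_right (h1.trans (one_le_inv₀ hu |>.2 h1))
    rw [max_eq_right h1, Real.one_rpow, mul_one, h2, Real.inv_rpow hu.le, Real.rpow_sub hu,
      Real.rpow_one]
    rfl
  · have h2 : max u u⁻¹ = u := max_eq_left ((inv_le_one_of_one_le₀ h1).trans h1)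
    rw [max_eq_left h1, h2, ← Real.rpow_add hu]
    have h3 : 1 - e + 2 * e = 1 + e := by ring
    rw [h3, Real.rpow_add hu, Real.rpow_one]

/-- For arguments at most one the bracket is small with the argument. -/
theorem brw_of_le {e u : ℝ} (h : u ≤ 1) : brw e u = u ^ (1 - e) := by
  unfold brw; rw [max_eq_right h, Real.one_rpow, mul_one]

theorem brw_of_ge {e u : ℝ} (h : 1 ≤ u) : brw e u = u ^ (1 + e) := by
  have hu : 0 < u := zero_lt_one.trans_le h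
  unfold brw
  rw [max_eq_left h, ← Real.rpow_add hu]
  congr 1
  ring

theorem le_brw {e : ℝ} (h0 : 0 ≤ e) {u : ℝ} (hu : 0 ≤ u) (h1 : e < 1) : u ≤ brw e u := by
  rcases hu.eq_or_lt with h | h
  · rw [← h, brw_zero h1]
  · rw [brw_eq h]
    have h2 : 1 ≤ max u u⁻¹ := by
      rcases le_total u 1 with h3 | h3
      · exact (one_le_inv₀ h |>.2 h3).trans (le_max_right _ _)
      · exact h3.trans (le_max_left _ _)
    have h4 : 1 ≤ max u u⁻¹ ^ e := Real.one_le_rpow h2 h0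
    nlinarith

/-- The exponent `1/2` gives `brk`. -/
theorem brw_half {u : ℝ} : brw (1 / 2) u = brk u := by
  unfold brw brk
  rw [Real.sqrt_eq_rpow]
  norm_num

theorem brw_div_le {e : ℝ} (h0 : 0 ≤ e) {u v w : ℝ} (hu : 0 ≤ u) (hv : 0 < v) (hw : 0 < w) :
    brw e (u / w) ≤ brw e (u / v) * brw e (v / w) := by
  have h1 : u / w = u / v * (v / w) := by field_simp
  rw [h1]
  exact brw_mul_le h0 (div_nonneg hu hv.le) (div_nonneg hv.le hw.le)

/-- Transfer of the bounds of the masters to a mean. -/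
theorem brw_avg {e : ℝ} (he : 0 ≤ e) {T C : Type*} (S : Finset T) (Cs : Finset C) (q : T → ℝ)
    (hq : ∀ t, 0 ≤ q t)
    (m : T → ℝ) (az : C → ℝ) (haz : ∀ c, 0 ≤ az c) (at' : T → C → ℝ)
    (hat : ∀ t ∈ S, ∀ c ∈ Cs, 0 < at' t c)
    (b : C → ℝ) (hb : ∀ c ∈ Cs, 0 < b c) {B δ : ℝ} (hB : 0 ≤ B)
    (hm : ∀ t ∈ S, q t ≠ 0 → m t ≤ B * ∑ c ∈ Cs, brw e (az c / at' t c))
    (hδ : ∀ c ∈ Cs, ∑ t ∈ S, q t * brw e (b c / at' t c) ≤ δ) :
    ∑ t ∈ S, q t * m t ≤ B * δ * ∑ c ∈ Cs, brw e (az c / b c) := by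
  calc ∑ t ∈ S, q t * m t
      ≤ ∑ t ∈ S, q t * (B * ∑ c ∈ Cs, brw e (az c / b c) * brw e (b c / at' t c)) := by
        refine Finset.sum_le_sum fun t ht => ?_
        by_cases h0 : q t = 0
        · rw [h0, zero_mul, zero_mul]
        · refine mul_le_mul_of_nonneg_left ((hm t ht h0).trans ?_) (hq t)
          refine mul_le_mul_of_nonneg_left (Finset.sum_le_sum fun c hc => ?_) hB
          exact brw_div_le he (haz c) (hb c hc) (hat t ht c hc)
    _ = B * ∑ c ∈ Cs, brw e (az c / b c) * ∑ t ∈ S, q t * brw e (b c / at' t c) := by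
        simp_rw [Finset.mul_sum]
        rw [Finset.sum_comm]
        refine Finset.sum_congr rfl fun c _ => Finset.sum_congr rfl fun t _ => ?_
        ring
    _ ≤ B * ∑ c ∈ Cs, brw e (az c / b c) * δ := by
        refine mul_le_mul_of_nonneg_left (Finset.sum_le_sum fun c hc => ?_) hB
        exact mul_le_mul_of_nonneg_left (hδ c hc) (brw_nonneg e (div_nonneg (haz c) (hb c hc).le))
    _ = B * δ * ∑ c ∈ Cs, brw e (az c / b c) := by
        rw [← Finset.sum_mul]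
        ring

/-- Two numbers at the levels `k` and `i`: their ratio. -/
theorem ratio_level {a b : ℝ} {k i : ℕ}
    (ha1 : (1 / 2 : ℝ) ^ k ≤ a) (ha2 : a < 2 * (1 / 2 : ℝ) ^ k)
    (hb1 : (1 / 2 : ℝ) ^ i ≤ b) (hb2 : b < 2 * (1 / 2 : ℝ) ^ i) :
    (2 : ℝ) ^ ds k i / 2 ≤ max (a / b) (a / b)⁻¹ ∧
      max (a / b) (a / b)⁻¹ ≤ 2 * (2 : ℝ) ^ ds k i := by
  have hk0 : (0 : ℝ) < (1 / 2) ^ k := by positivity
  have hi0 : (0 : ℝ) < (1 / 2) ^ i := by positivity
  have ha0 : 0 < a := hk0.trans_le ha1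
  have hb0 : 0 < b := hi0.trans_le hb1
  have key : ∀ {m n : ℕ}, m ≤ n → (2 : ℝ) ^ (n - m) * (1 / 2) ^ n = (1 / 2) ^ m := by
    intro m n h
    have h6 : (1 / 2 : ℝ) ^ n = (1 / 2) ^ (n - m) * (1 / 2) ^ m := by
      rw [← pow_add]; congr 1; omega
    rw [h6, ← mul_assoc, ← mul_pow]
    norm_num
  rw [inv_div]
  rcases le_total k i with h | h
  · have h1 : ds k i = i - k := by unfold ds; omega
    have hk := key h
    have h2 : (0 : ℝ) < 2 ^ (i - k) := by positivity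
    rw [h1]
    refine ⟨le_trans ?_ (le_max_left _ _), max_le ?_ ?_⟩
    · rw [le_div_iff₀ hb0]
      calc (2 : ℝ) ^ (i - k) / 2 * b ≤ (2 : ℝ) ^ (i - k) / 2 * (2 * (1 / 2) ^ i) :=
            mul_le_mul_of_nonneg_left hb2.le (by positivity)
        _ = (2 : ℝ) ^ (i - k) * (1 / 2) ^ i := by ring
        _ = (1 / 2) ^ k := hk
        _ ≤ a := ha1
    · rw [div_le_iff₀ hb0]
      calc a ≤ 2 * (1 / 2) ^ k := ha2.le
        _ = 2 * (2 : ℝ) ^ (i - k) * (1 / 2) ^ i := by rw [← hk]; ring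
        _ ≤ 2 * (2 : ℝ) ^ (i - k) * b := mul_le_mul_of_nonneg_left hb1 (by positivity)
    · rw [div_le_iff₀ ha0]
      have h3 : (1 / 2 : ℝ) ^ i ≤ (1 / 2) ^ k :=
        pow_le_pow_of_le_one (by norm_num) (by norm_num) h
      have h4 : (1 : ℝ) ≤ 2 ^ (i - k) := one_le_pow₀ (by norm_num)
      calc b ≤ 2 * (1 / 2) ^ i := hb2.le
        _ ≤ 2 * 1 * a := by linarith
        _ ≤ 2 * (2 : ℝ) ^ (i - k) * a := by
          refine mul_le_mul_of_nonneg_right ?_ ha0.le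
          linarith
  · have h1 : ds k i = k - i := by unfold ds; omega
    have hk := key h
    have h2 : (0 : ℝ) < 2 ^ (k - i) := by positivity
    rw [h1]
    refine ⟨le_trans ?_ (le_max_right _ _), max_le ?_ ?_⟩
    · rw [le_div_iff₀ ha0]
      calc (2 : ℝ) ^ (k - i) / 2 * a ≤ (2 : ℝ) ^ (k - i) / 2 * (2 * (1 / 2) ^ k) :=
            mul_le_mul_of_nonneg_left ha2.le (by positivity)
        _ = (2 : ℝ) ^ (k - i) * (1 / 2) ^ k := by ring
        _ = (1 / 2) ^ i := hk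
        _ ≤ b := hb1
    · rw [div_le_iff₀ hb0]
      have h3 : (1 / 2 : ℝ) ^ k ≤ (1 / 2) ^ i :=
        pow_le_pow_of_le_one (by norm_num) (by norm_num) h
      have h4 : (1 : ℝ) ≤ 2 ^ (k - i) := one_le_pow₀ (by norm_num)
      calc a ≤ 2 * (1 / 2) ^ k := ha2.le
        _ ≤ 2 * 1 * b := by linarith
        _ ≤ 2 * (2 : ℝ) ^ (k - i) * b := by
          refine mul_le_mul_of_nonneg_right ?_ hb0.le
          linarith
    · rw [div_le_iff₀ ha0]
      calc b ≤ 2 * (1 / 2) ^ i := hb2.le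
        _ = 2 * (2 : ℝ) ^ (k - i) * (1 / 2) ^ k := by rw [← hk]; ring
        _ ≤ 2 * (2 : ℝ) ^ (k - i) * a := mul_le_mul_of_nonneg_left ha1 (by positivity)

/-- `((1/2) ^ e) ^ (- d) = (2 ^ d) ^ e`. -/
theorem inv_rpow_pow (e : ℝ) (d : ℕ) : (((1 / 2 : ℝ) ^ e) ^ d)⁻¹ = ((2 : ℝ) ^ d) ^ e := by
  rw [← Real.rpow_natCast, ← Real.rpow_mul (by norm_num), mul_comm e (d : ℝ),
    Real.rpow_mul (by norm_num), Real.rpow_natCast, ← Real.inv_rpow (by positivity)]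
  congr 1
  rw [← inv_pow]
  norm_num

/-- The bracket of the levels is bounded by the bracket function. -/
theorem br_le_brw {e q : ℝ} (h0 : 0 ≤ e) (hq : q = (1 / 2 : ℝ) ^ e) {a b : ℝ} {k i : ℕ}
    (ha1 : (1 / 2 : ℝ) ^ k ≤ a) (ha2 : a < 2 * (1 / 2 : ℝ) ^ k)
    (hb1 : (1 / 2 : ℝ) ^ i ≤ b) (hb2 : b < 2 * (1 / 2 : ℝ) ^ i) :
    a / b * (q ^ ds k i)⁻¹ ≤ 2 ^ e * brw e (a / b) := by
  have ha0 : 0 < a := lt_of_lt_of_le (by positivity) ha1
  have hb0 : 0 < b := lt_of_lt_of_le (by positivity) hb1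
  have hr : 0 < a / b := div_pos ha0 hb0
  obtain ⟨h1, -⟩ := ratio_level ha1 ha2 hb1 hb2
  rw [hq, inv_rpow_pow, brw_eq hr]
  have h2 : ((2 : ℝ) ^ ds k i) ^ e ≤ 2 ^ e * max (a / b) (a / b)⁻¹ ^ e := by
    rw [← Real.mul_rpow (by norm_num) (hr.le.trans (le_max_left _ _))]
    refine Real.rpow_le_rpow (by positivity) ?_ h0
    linarith
  calc a / b * ((2 : ℝ) ^ ds k i) ^ e ≤ a / b * (2 ^ e * max (a / b) (a / b)⁻¹ ^ e) :=
        mul_le_mul_of_nonneg_left h2 hr.le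
    _ = 2 ^ e * (a / b * max (a / b) (a / b)⁻¹ ^ e) := by ring

/-- The bracket function is bounded by the bracket of the levels. -/
theorem brw_le_br {e q : ℝ} (h0 : 0 ≤ e) (hq : q = (1 / 2 : ℝ) ^ e) {a b : ℝ} {k i : ℕ}
    (ha1 : (1 / 2 : ℝ) ^ k ≤ a) (ha2 : a < 2 * (1 / 2 : ℝ) ^ k)
    (hb1 : (1 / 2 : ℝ) ^ i ≤ b) (hb2 : b < 2 * (1 / 2 : ℝ) ^ i) :
    brw e (a / b) ≤ 2 ^ e * (a / b * (q ^ ds k i)⁻¹) := by
  have ha0 : 0 < a := lt_of_lt_of_le (by positivity) ha1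
  have hb0 : 0 < b := lt_of_lt_of_le (by positivity) hb1
  have hr : 0 < a / b := div_pos ha0 hb0
  obtain ⟨-, h1⟩ := ratio_level ha1 ha2 hb1 hb2
  rw [hq, inv_rpow_pow, brw_eq hr]
  have h2 : max (a / b) (a / b)⁻¹ ^ e ≤ 2 ^ e * ((2 : ℝ) ^ ds k i) ^ e := by
    rw [← Real.mul_rpow (by norm_num) (by positivity)]
    exact Real.rpow_le_rpow (hr.le.trans (le_max_left _ _)) h1 h0
  calc a / b * max (a / b) (a / b)⁻¹ ^ e ≤ a / b * (2 ^ e * ((2 : ℝ) ^ ds k i) ^ e) :=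
        mul_le_mul_of_nonneg_left h2 hr.le
    _ = 2 ^ e * (a / b * ((2 : ℝ) ^ ds k i) ^ e) := by ring

end Pool.Agent.Lib.GSLE
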