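import Pool.Agent.Lib.GSLE.Mate

/-!
# Cells: typed labels with heights which do not depend on the parameters

The heights of the vertices are real numbers `h c x` in `[h0 - J, h0]`.  A cell is a vector `j` of
levels; it stands for the integer heights `h0 - j c`, `c ∈ S`.  The tent functions form a partition
of unity.  A typed label is a pair `p = (l, j)`, `l` a label of the main law; its weight is the
flux into `l` of the nodes in the cell `j`, if the hub of `l` is low with respect to `j`.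
-/

set_option autoImplicit false

open Finset

namespace Pool.Agent.Lib.GSLE

/-! ### Tents, windows, ramps -/

/-- The tent function. -/
noncomputable def tent (u : ℝ) : ℝ := max 0 (1 - |u|)

/-- The soft window: `1` on `|u| ≤ w`, `0` on `w + 1 ≤ |u|`. -/
noncomputable def win (w u : ℝ) : ℝ := max 0 (min 1 (w + 1 - |u|))

/-- The soft step: `1` for `u ≤ g`, `0` for `g + 1 ≤ u`. -/
noncomputable def stp (g u : ℝ) : ℝ := max 0 (min 1 (g + 1 - u))

theorem tent_nonneg (u : ℝ) : 0 ≤ tent u := le_max_left _ _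

theorem tent_le_one (u : ℝ) : tent u ≤ 1 :=
  max_le zero_le_one (by linarith [abs_nonneg u])

theorem tent_eq_zero {u : ℝ} (h : 1 ≤ |u|) : tent u = 0 := max_eq_left (by linarith)

theorem abs_lt_of_tent {u : ℝ} (h : tent u ≠ 0) : |u| < 1 := by
  by_contra h1
  exact h (tent_eq_zero (not_lt.1 h1))

theorem continuous_tent : Continuous tent := by
  unfold tent
  fun_prop

theorem win_nonneg (w u : ℝ) : 0 ≤ win w u := le_max_left _ _

theorem win_le_one (w u : ℝ) : win w u ≤ 1 := max_le zero_le_one (min_le_left _ _)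

theorem win_eq_one {w u : ℝ} (h : |u| ≤ w) : win w u = 1 := by
  unfold win
  rw [min_eq_left (by linarith), max_eq_right zero_le_one]

theorem win_eq_zero {w u : ℝ} (h : w + 1 ≤ |u|) : win w u = 0 := by
  unfold win
  exact max_eq_left ((min_le_right _ _).trans (by linarith))

theorem abs_lt_of_win {w u : ℝ} (h : win w u ≠ 0) : |u| < w + 1 := by
  by_contra h1
  exact h (win_eq_zero (not_lt.1 h1))

theorem continuous_win (w : ℝ) : Continuous (win w) := by
  unfold win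
  fun_prop

theorem stp_nonneg (g u : ℝ) : 0 ≤ stp g u := le_max_left _ _

theorem stp_le_one (g u : ℝ) : stp g u ≤ 1 := max_le zero_le_one (min_le_left _ _)

theorem stp_eq_one {g u : ℝ} (h : u ≤ g) : stp g u = 1 := by
  unfold stp
  rw [min_eq_left (by linarith), max_eq_right zero_le_one]

theorem stp_eq_zero {g u : ℝ} (h : g + 1 ≤ u) : stp g u = 0 := by
  unfold stp
  exact max_eq_left ((min_le_right _ _).trans (by linarith))

theorem lt_of_stp {g u : ℝ} (h : stp g u ≠ 0) : u < g + 1 := by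
  by_contra h1
  exact h (stp_eq_zero (not_lt.1 h1))

theorem continuous_stp (g : ℝ) : Continuous (stp g) := by
  unfold stp
  fun_prop

/-- The tents form a partition of unity on `[h0 - J, h0]`. -/
theorem sum_tent (J : ℕ) (h0 : ℤ) {u : ℝ} (h1 : (h0 : ℝ) - J ≤ u) (h2 : u ≤ h0) :
    ∑ i : Fin (J + 1), tent (u - ((h0 - (i : ℕ) : ℤ) : ℝ)) = 1 := by
  -- `v = h0 - u` in `[0, J]`
  obtain ⟨v, hv⟩ : ∃ v : ℝ, v = h0 - u := ⟨_, rfl⟩
  have hv0 : 0 ≤ v := by linarith
  have hvJ : v ≤ J := by linarith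
  have hE : ∀ i : Fin (J + 1), tent (u - ((h0 - (i : ℕ) : ℤ) : ℝ)) = tent ((i : ℕ) - v) := by
    intro i
    congr 1
    push_cast
    rw [hv]
    ring
  rw [Finset.sum_congr rfl fun i _ => hE i]
  rw [Finset.sum_fin_eq_sum_range (fun i : Fin (J + 1) => tent (((i : ℕ) : ℝ) - v))]
  set m : ℕ := ⌊v⌋₊ with hm
  have hm1 : (m : ℝ) ≤ v := Nat.floor_le hv0
  have hm2 : v < m + 1 := Nat.lt_floor_add_one v
  have hmJ : m ≤ J := by
    have : (m : ℝ) ≤ J := hm1.trans hvJ
    exact_mod_cast this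
  have hz : ∀ i ∈ Finset.range (J + 1), i ∉ ({m, m + 1} : Finset ℕ) →
      (if h : i < J + 1 then tent (((⟨i, h⟩ : Fin (J + 1)) : ℕ) - v) else 0) = 0 := by
    intro i hi hi'
    rw [Finset.mem_range] at hi
    rw [dif_pos hi]
    simp only [Finset.mem_insert, Finset.mem_singleton, not_or] at hi'
    refine tent_eq_zero ?_
    simp only
    rcases lt_or_gt_of_ne hi'.1 with h | h
    · have h3 : ((i : ℕ) : ℝ) + 1 ≤ m := by exact_mod_cast h
      rw [le_abs]
      right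
      linarith
    · have h3 : m + 2 ≤ i := by omega
      have h4 : ((m : ℕ) : ℝ) + 2 ≤ i := by exact_mod_cast h3
      rw [le_abs]
      left
      linarith
  rcases Nat.lt_or_ge m J with h | h
  · have hsub : ({m, m + 1} : Finset ℕ) ⊆ Finset.range (J + 1) := by
      intro i hi
      simp only [Finset.mem_insert, Finset.mem_singleton] at hi
      rw [Finset.mem_range]
      omega
    rw [← Finset.sum_subset hsub hz, Finset.sum_pair (by omega), dif_pos (by omega),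
      dif_pos (by omega)]
    simp only
    unfold tent
    have h5 : |((m : ℕ) : ℝ) - v| = v - m := by
      rw [abs_of_nonpos (by linarith)]
      ring
    have h6 : |((m + 1 : ℕ) : ℝ) - v| = m + 1 - v := by
      push_cast
      rw [abs_of_nonneg (by linarith)]
    rw [h5, h6, max_eq_right (by linarith), max_eq_right (by linarith)]
    ring
  · have hmJ' : m = J := le_antisymm hmJ h
    have hvm : v = m := by
      refine le_antisymm ?_ hm1
      rw [hmJ']
      exact hvJ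
    have hsub : ({m} : Finset ℕ) ⊆ Finset.range (J + 1) := by
      intro i hi
      rw [Finset.mem_singleton] at hi
      rw [Finset.mem_range]
      omega
    rw [← Finset.sum_subset hsub (fun i hi hi' => by
      rw [Finset.mem_singleton] at hi'
      rcases eq_or_ne i (m + 1) with h3 | h3
      · rw [Finset.mem_range] at hi
        omega
      · exact hz i hi (by simp [hi', h3])), Finset.sum_singleton, dif_pos (by omega)]
    simp only
    unfold tent
    rw [hvm, sub_self, abs_zero]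
    norm_num

/-! ### Cells -/

section cells

variable {X : Type*} {N J : ℕ}

/-- The cells: vectors of levels. -/
abbrev Cel (N J : ℕ) : Type := Fin N → Fin (J + 1)

/-- The integer heights of a cell. -/
def hc (h0 : ℤ) (j : Cel N J) (c : Fin N) : ℤ := h0 - (j c : ℕ)

/-- The cells for the functions in `S`. -/
def cells (N J : ℕ) (S : Finset (Fin N)) : Finset (Cel N J) :=
  Fintype.piFinset fun c => if c ∈ S then Finset.univ else {0}

/-- The partition of unity. -/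
noncomputable def chi (h0 : ℤ) (h : Fin N → X → ℝ) (S : Finset (Fin N)) (j : Cel N J) (z : X) :
    ℝ :=
  ∏ c ∈ S, tent (h c z - hc h0 j c)

/-- The wide window. -/
noncomputable def wid (h0 : ℤ) (h : Fin N → X → ℝ) (w : ℝ) (S : Finset (Fin N)) (j : Cel N J)
    (x : X) : ℝ :=
  ∏ c ∈ S, win w (h c x - hc h0 j c)

/-- The vertex `y` is low with respect to the cell. -/
noncomputable def low (h0 : ℤ) (h : Fin N → X → ℝ) (g : ℝ) (S : Finset (Fin N)) (j : Cel N J)
    (y : X) : ℝ :=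
  ∏ c ∈ S, stp g (h c y - hc h0 j c)

variable {h0 : ℤ} {h : Fin N → X → ℝ} {w g : ℝ} {S : Finset (Fin N)}

theorem chi_nonneg (j : Cel N J) (z : X) : 0 ≤ chi h0 h S j z :=
  Finset.prod_nonneg fun _ _ => tent_nonneg _

theorem wid_nonneg (j : Cel N J) (x : X) : 0 ≤ wid h0 h w S j x :=
  Finset.prod_nonneg fun _ _ => win_nonneg _ _

theorem wid_le_one (j : Cel N J) (x : X) : wid h0 h w S j x ≤ 1 :=
  Finset.prod_le_one (fun _ _ => win_nonneg _ _) fun _ _ => win_le_one _ _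

theorem low_nonneg (j : Cel N J) (y : X) : 0 ≤ low h0 h g S j y :=
  Finset.prod_nonneg fun _ _ => stp_nonneg _ _

theorem low_le_one (j : Cel N J) (y : X) : low h0 h g S j y ≤ 1 :=
  Finset.prod_le_one (fun _ _ => stp_nonneg _ _) fun _ _ => stp_le_one _ _

theorem chi_ne {j : Cel N J} {z : X} (h1 : chi h0 h S j z ≠ 0) {c : Fin N} (hcS : c ∈ S) :
    |h c z - hc h0 j c| < 1 :=
  abs_lt_of_tent (Finset.prod_ne_zero_iff.1 h1 c hcS)

theorem wid_ne {j : Cel N J} {x : X} (h1 : wid h0 h w S j x ≠ 0) {c : Fin N} (hcS : c ∈ S) :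
    |h c x - hc h0 j c| < w + 1 :=
  abs_lt_of_win (Finset.prod_ne_zero_iff.1 h1 c hcS)

theorem low_ne {j : Cel N J} {y : X} (h1 : low h0 h g S j y ≠ 0) {c : Fin N} (hcS : c ∈ S) :
    h c y < hc h0 j c + (g + 1) := by
  have := lt_of_stp (Finset.prod_ne_zero_iff.1 h1 c hcS)
  linarith

theorem wid_eq_one {j : Cel N J} {x : X} (h1 : ∀ c ∈ S, |h c x - hc h0 j c| ≤ w) :
    wid h0 h w S j x = 1 :=
  Finset.prod_eq_one fun c hcS => win_eq_one (h1 c hcS)

theorem low_eq_one {j : Cel N J} {y : X} (h1 : ∀ c ∈ S, h c y ≤ hc h0 j c + g) :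
    low h0 h g S j y = 1 :=
  Finset.prod_eq_one fun c hcS => stp_eq_one (by linarith [h1 c hcS])

/-- The cells form a partition of unity. -/
theorem sum_chi {z : X} (h1 : ∀ c ∈ S, (h0 : ℝ) - J ≤ h c z) (h2 : ∀ c ∈ S, h c z ≤ h0) :
    ∑ j ∈ cells N J S, chi h0 h S j z = 1 := by
  have hE : ∀ j : Cel N J, chi h0 h S j z =
      ∏ c, if c ∈ S then tent (h c z - ((h0 - (j c : ℕ) : ℤ) : ℝ)) else 1 := by
    intro j
    rw [Finset.prod_ite_mem, Finset.univ_inter]
    rfl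
  rw [Finset.sum_congr rfl fun j _ => hE j]
  unfold cells
  rw [← Finset.prod_univ_sum (fun c : Fin N => if c ∈ S then Finset.univ else {0})
    (fun (c : Fin N) (i : Fin (J + 1)) =>
      if c ∈ S then tent (h c z - ((h0 - (i : ℕ) : ℤ) : ℝ)) else 1)]
  refine Finset.prod_eq_one fun c _ => ?_
  by_cases hcS : c ∈ S
  · simp only [if_pos hcS]
    exact sum_tent J h0 (h1 c hcS) (h2 c hcS)
  · simp only [if_neg hcS, Finset.sum_const, Finset.card_singleton, one_smul]

theorem continuous_chi {Θ : Type*} [TopologicalSpace Θ] {h : Θ → Fin N → X → ℝ}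
    (hh : ∀ c x, Continuous fun θ => h θ c x) (j : Cel N J) (z : X) :
    Continuous fun θ => chi h0 (h θ) S j z :=
  continuous_finsetProd _ fun c _ => continuous_tent.comp ((hh c z).sub continuous_const)

theorem continuous_wid {Θ : Type*} [TopologicalSpace Θ] {h : Θ → Fin N → X → ℝ}
    (hh : ∀ c x, Continuous fun θ => h θ c x) (j : Cel N J) (x : X) :
    Continuous fun θ => wid h0 (h θ) w S j x :=
  continuous_finsetProd _ fun c _ => (continuous_win w).comp ((hh c x).sub continuous_const)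

theorem continuous_low {Θ : Type*} [TopologicalSpace Θ] {h : Θ → Fin N → X → ℝ}
    (hh : ∀ c x, Continuous fun θ => h θ c x) (j : Cel N J) (y : X) :
    Continuous fun θ => low h0 (h θ) g S j y :=
  continuous_finsetProd _ fun c _ => (continuous_stp g).comp ((hh c y).sub continuous_const)

end cells

/-! ### The typed labels -/

section lab

variable {X Λ : Type*} [Fintype X] [Fintype Λ] {N J : ℕ}

/-- The weight of the label `(l, j)`; `y l` is the hub of `l`. -/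
noncomputable def rhoC (h0 : ℤ) (h : Fin N → X → ℝ) (g : ℝ) (S : Finset (Fin N)) (n a : X → ℝ)
    (π : Λ → ℝ) (k : X → Λ → ℝ) (y : Λ → X) (p : Λ × Cel N J) : ℝ :=
  if p.2 ∈ cells N J S then
    π p.1 * (low h0 h g S p.2 (y p.1) * ∑ z, n z / a z * k z p.1 * chi h0 h S p.2 z)
  else 0

/-- The own kernel. -/
noncomputable def CC (h0 : ℤ) (h : Fin N → X → ℝ) (w : ℝ) (S : Finset (Fin N)) (k : X → Λ → ℝ)
    (x : X) (p : Λ × Cel N J) : ℝ :=
  k x p.1 * wid h0 h w S p.2 x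

/-- The scale of the typed law. -/
noncomputable def AC (J : ℕ) (h0 : ℤ) (h : Fin N → X → ℝ) (w g : ℝ) (S : Finset (Fin N))
    (n a : X → ℝ) (π : Λ → ℝ) (k : X → Λ → ℝ) (y : Λ → X) (x : X) : ℝ :=
  ∑ p : Λ × Cel N J, rhoC h0 h g S n a π k y p * CC h0 h w S k x p

/-- The own mass of the label `p` for the scale `A`. -/
noncomputable def DC (h0 : ℤ) (h : Fin N → X → ℝ) (w : ℝ) (S : Finset (Fin N)) (n A : X → ℝ)
    (k : X → Λ → ℝ) (p : Λ × Cel N J) : ℝ :=
  ∑ x, n x * CC h0 h w S k x p / A x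

variable {h0 : ℤ} {h : Fin N → X → ℝ} {w g : ℝ} {S : Finset (Fin N)} {n a A : X → ℝ}
  {π : Λ → ℝ} {k : X → Λ → ℝ} {y : Λ → X}

omit [Fintype Λ] in
theorem rhoC_nonneg (hn : ∀ x, 0 ≤ n x) (ha : ∀ x, 0 < a x) (hπ : ∀ l, 0 ≤ π l)
    (hk : ∀ x l, 0 ≤ k x l) (p : Λ × Cel N J) : 0 ≤ rhoC h0 h g S n a π k y p := by
  unfold rhoC
  split_ifs
  · exact mul_nonneg (hπ _) (mul_nonneg (low_nonneg _ _) (Finset.sum_nonneg fun z _ =>
      mul_nonneg (mul_nonneg (div_nonneg (hn z) (ha z).le) (hk z _)) (chi_nonneg _ _)))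
  · exact le_rfl

omit [Fintype X] [Fintype Λ] in
theorem CC_nonneg (hk : ∀ x l, 0 ≤ k x l) (x : X) (p : Λ × Cel N J) : 0 ≤ CC h0 h w S k x p :=
  mul_nonneg (hk _ _) (wid_nonneg _ _)

omit [Fintype X] [Fintype Λ] in
theorem CC_le (hk : ∀ x l, 0 ≤ k x l) (x : X) (p : Λ × Cel N J) :
    CC h0 h w S k x p ≤ k x p.1 :=
  mul_le_of_le_one_right (hk _ _) (wid_le_one _ _)

theorem AC_nonneg (hn : ∀ x, 0 ≤ n x) (ha : ∀ x, 0 < a x) (hπ : ∀ l, 0 ≤ π l)
    (hk : ∀ x l, 0 ≤ k x l) (x : X) : 0 ≤ AC J h0 h w g S n a π k y x :=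
  Finset.sum_nonneg fun p _ => mul_nonneg (rhoC_nonneg hn ha hπ hk p) (CC_nonneg hk x p)

omit [Fintype X] [Fintype Λ] in
/-- Own nodes have the heights of the label up to `w + 1`. -/
theorem CC_ne {x : X} {p : Λ × Cel N J} (h1 : CC h0 h w S k x p ≠ 0) :
    k x p.1 ≠ 0 ∧ ∀ c ∈ S, |h c x - hc h0 p.2 c| < w + 1 :=
  ⟨left_ne_zero_of_mul h1, fun _ hcS => wid_ne (right_ne_zero_of_mul h1) hcS⟩

omit [Fintype Λ] in
/-- The hub of a label of positive weight is low with respect to the label. -/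
theorem rhoC_ne {p : Λ × Cel N J} (h1 : rhoC h0 h g S n a π k y p ≠ 0) :
    p.2 ∈ cells N J S ∧ π p.1 ≠ 0 ∧ ∀ c ∈ S, h c (y p.1) < hc h0 p.2 c + (g + 1) := by
  unfold rhoC at h1
  split_ifs at h1 with h2
  · exact ⟨h2, left_ne_zero_of_mul h1, fun c hcS =>
      low_ne (left_ne_zero_of_mul (right_ne_zero_of_mul h1)) hcS⟩
  · exact absurd rfl h1

omit [Fintype Λ] in
/-- The cells over one main label. -/
theorem sum_cells_le (hn : ∀ x, 0 ≤ n x) (ha : ∀ x, 0 < a x) (hπ : ∀ l, 0 ≤ π l)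
    (hk : ∀ x l, 0 ≤ k x l) (h1 : ∀ c ∈ S, ∀ z, (h0 : ℝ) - J ≤ h c z)
    (h2 : ∀ c ∈ S, ∀ z, h c z ≤ h0) (l : Λ) :
    ∑ j : Cel N J, rhoC h0 h g S n a π k y (l, j) ≤ π l * ∑ z, n z / a z * k z l := by
  have h3 : ∑ j : Cel N J, rhoC h0 h g S n a π k y (l, j) =
      ∑ j ∈ cells N J S, π l * (low h0 h g S j (y l) * ∑ z, n z / a z * k z l * chi h0 h S j z) := by
    unfold rhoC
    rw [Finset.sum_ite_mem, Finset.univ_inter]
  rw [h3, ← Finset.mul_sum]
  refine mul_le_mul_of_nonneg_left ?_ (hπ l)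
  calc ∑ j ∈ cells N J S, low h0 h g S j (y l) * ∑ z, n z / a z * k z l * chi h0 h S j z
      ≤ ∑ j ∈ cells N J S, ∑ z, n z / a z * k z l * chi h0 h S j z := by
        refine Finset.sum_le_sum fun j _ => mul_le_of_le_one_left ?_ (low_le_one _ _)
        exact Finset.sum_nonneg fun z _ =>
          mul_nonneg (mul_nonneg (div_nonneg (hn z) (ha z).le) (hk z _)) (chi_nonneg _ _)
    _ = ∑ z, n z / a z * k z l * ∑ j ∈ cells N J S, chi h0 h S j z := by
        rw [Finset.sum_comm]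
        exact Finset.sum_congr rfl fun z _ => (Finset.mul_sum _ _ _).symm
    _ = ∑ z, n z / a z * k z l := by
        refine Finset.sum_congr rfl fun z _ => ?_
        rw [sum_chi (fun c hcS => h1 c hcS z) fun c hcS => h2 c hcS z, mul_one]

omit [Fintype Λ] in
/-- Every bound for the main law passes to the typed law, for the labels whose main own mass is at
most `Δ`. -/
theorem sum_rhoC_le (hn : ∀ x, 0 ≤ n x) (ha : ∀ x, 0 < a x) (hπ : ∀ l, 0 ≤ π l)
    (hk : ∀ x l, 0 ≤ k x l) (h1 : ∀ c ∈ S, ∀ z, (h0 : ℝ) - J ≤ h c z)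
    (h2 : ∀ c ∈ S, ∀ z, h c z ≤ h0) {Δ : ℝ} (hΔ0 : 0 ≤ Δ) (v : Λ → ℝ) (hv : ∀ l, 0 ≤ v l)
    (T : Finset (Λ × Cel N J)) (hT : ∀ p ∈ T, ∑ z, n z / a z * k z p.1 ≤ Δ) (L : Finset Λ)
    (hL : ∀ p ∈ T, p.1 ∈ L) :
    ∑ p ∈ T, v p.1 * rhoC h0 h g S n a π k y p ≤ Δ * ∑ l ∈ L, v l * π l := by
  classical
  -- only labels with a bounded own mass occur
  set L' : Finset Λ := L.filter fun l => ∑ z, n z / a z * k z l ≤ Δ with hL'
  have h3 : T ⊆ L' ×ˢ (Finset.univ : Finset (Cel N J)) := by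
    intro p hp
    rw [Finset.mem_product, hL', Finset.mem_filter]
    exact ⟨⟨hL p hp, hT p hp⟩, Finset.mem_univ _⟩
  refine (Finset.sum_le_sum_of_subset_of_nonneg h3 fun p _ _ =>
    mul_nonneg (hv _) (rhoC_nonneg hn ha hπ hk p)).trans ?_
  rw [Finset.sum_product]
  calc ∑ l ∈ L', ∑ j : Cel N J, v (l, j).1 * rhoC h0 h g S n a π k y (l, j)
      ≤ ∑ l ∈ L', Δ * (v l * π l) := by
        refine Finset.sum_le_sum fun l hl => ?_
        simp only
        rw [← Finset.mul_sum]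
        have h4 := sum_cells_le (g := g) (y := y) hn ha hπ hk h1 h2 l
        have h5 : ∑ z, n z / a z * k z l ≤ Δ := (Finset.mem_filter.1 hl).2
        calc v l * ∑ j : Cel N J, rhoC h0 h g S n a π k y (l, j)
            ≤ v l * (π l * ∑ z, n z / a z * k z l) := mul_le_mul_of_nonneg_left h4 (hv l)
          _ ≤ v l * (π l * Δ) :=
            mul_le_mul_of_nonneg_left (mul_le_mul_of_nonneg_left h5 (hπ l)) (hv l)
          _ = Δ * (v l * π l) := by ring
    _ ≤ ∑ l ∈ L, Δ * (v l * π l) :=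
        Finset.sum_le_sum_of_subset_of_nonneg (Finset.filter_subset _ _) fun l _ _ =>
          mul_nonneg hΔ0 (mul_nonneg (hv l) (hπ l))
    _ = Δ * ∑ l ∈ L, v l * π l := (Finset.mul_sum _ _ _).symm

/-- The typed scale is bounded by the main scale. -/
theorem AC_le (hn : ∀ x, 0 ≤ n x) (ha : ∀ x, 0 < a x) (hπ : ∀ l, 0 ≤ π l)
    (hk : ∀ x l, 0 ≤ k x l) (h1 : ∀ c ∈ S, ∀ z, (h0 : ℝ) - J ≤ h c z)
    (h2 : ∀ c ∈ S, ∀ z, h c z ≤ h0) {Δ : ℝ} (hΔ0 : 0 ≤ Δ)
    (hΔ : ∀ l, ∑ x, n x / a x * k x l ≤ Δ) (x : X) :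
    AC J h0 h w g S n a π k y x ≤ Δ * ∑ l, k x l * π l := by
  refine le_trans ?_ (sum_rhoC_le (g := g) (y := y) (J := J) hn ha hπ hk h1 h2 hΔ0
    (fun l => k x l) (fun l => hk x l) Finset.univ (fun p _ => hΔ p.1) Finset.univ
    fun p _ => Finset.mem_univ _)
  refine Finset.sum_le_sum fun p _ => ?_
  rw [mul_comm]
  exact mul_le_mul_of_nonneg_right (CC_le hk x p) (rhoC_nonneg hn ha hπ hk p)

omit [Fintype Λ] in
/-- The kernel of the typed law. -/
theorem PC_le (hn : ∀ x, 0 ≤ n x) (ha : ∀ x, 0 < a x) (hπ : ∀ l, 0 ≤ π l)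
    (hk : ∀ x l, 0 ≤ k x l) {ε : ℝ} (hε : 0 < ε) {x : X} (hA : ε * a x ≤ A x)
    (p : Λ × Cel N J) :
    rhoC h0 h g S n a π k y p * CC h0 h w S k x p / A x ≤
      rhoC h0 h g S n a π k y p * k x p.1 / (ε * a x) := by
  have h1 := rhoC_nonneg (h0 := h0) (h := h) (g := g) (S := S) (y := y) hn ha hπ hk p
  have h2 : 0 < ε * a x := mul_pos hε (ha x)
  have h3 := mul_le_mul_of_nonneg_left (CC_le (h0 := h0) (h := h) (w := w) (S := S) hk x p) h1
  exact div_le_div₀ (mul_nonneg h1 (hk _ _)) h3 h2 hA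

omit [Fintype X] [Fintype Λ] in
/-- Level-wise bounds of the own masses. -/
theorem DC_window (hn : ∀ x, 0 ≤ n x) (ha : ∀ x, 0 < a x) (hk : ∀ x l, 0 ≤ k x l) {ε : ℝ}
    (hε : 0 < ε) (T : Finset X) (hA : ∀ x ∈ T, n x ≠ 0 → ε * a x ≤ A x) (p : Λ × Cel N J) :
    ∑ x ∈ T, n x * CC h0 h w S k x p / A x ≤ 1 / ε * ∑ x ∈ T, n x / a x * k x p.1 := by
  rw [Finset.mul_sum]
  refine Finset.sum_le_sum fun x hxT => ?_
  by_cases hx : n x = 0
  · simp [hx]
  · have h2 : 0 < ε * a x := mul_pos hε (ha x)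
    have h3 := mul_le_mul_of_nonneg_left (CC_le (h0 := h0) (h := h) (w := w) (S := S) hk x p)
      (hn x)
    refine (div_le_div₀ (mul_nonneg (hn x) (hk _ _)) h3 h2 (hA x hxT hx)).trans (le_of_eq ?_)
    have := (ha x).ne'
    field_simp

/-- The flux of the typed law. -/
theorem sum_fluxC (m : X → ℝ) :
    ∑ p : Λ × Cel N J, rhoC h0 h g S n a π k y p * DC h0 h w S m A k p =
      ∑ x, m x * (AC J h0 h w g S n a π k y x / A x) := by
  unfold DC AC
  simp_rw [Finset.mul_sum]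
  rw [Finset.sum_comm]
  refine Finset.sum_congr rfl fun x _ => ?_
  rw [Finset.sum_div, Finset.mul_sum]
  exact Finset.sum_congr rfl fun p _ => by ring

/-- Labels with a small own mass carry a small part of the flux. -/
theorem small_ownC (hn : ∀ x, 0 ≤ n x) (ha : ∀ x, 0 < a x) (hπ : ∀ l, 0 ≤ π l)
    (hk : ∀ x l, 0 ≤ k x l) {δ : ℝ} (hδ : 0 ≤ δ) (f : Λ × Cel N J → ℝ)
    (T : Finset (Λ × Cel N J)) (hT : ∀ p ∈ T, f p ≤ δ) :
    ∑ p ∈ T, rhoC h0 h g S n a π k y p * f p ≤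
      δ * ∑ p : Λ × Cel N J, rhoC h0 h g S n a π k y p := by
  rw [Finset.mul_sum]
  refine (Finset.sum_le_sum fun p hp => ?_).trans
    (Finset.sum_le_sum_of_subset_of_nonneg (Finset.subset_univ T) fun p _ _ =>
      mul_nonneg hδ (rhoC_nonneg hn ha hπ hk p))
  rw [mul_comm δ]
  exact mul_le_mul_of_nonneg_left (hT p hp) (rhoC_nonneg hn ha hπ hk p)

/-- Size bias: labels in which the part `m` of the nodes has a small share carry a small part of
the flux of `m`. -/
theorem small_shareC (hn : ∀ x, 0 ≤ n x) (ha : ∀ x, 0 < a x) (hπ : ∀ l, 0 ≤ π l)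
    (hk : ∀ x l, 0 ≤ k x l) {δ : ℝ} (hδ : 0 ≤ δ) (m : X → ℝ) (hA0 : ∀ x, 0 ≤ A x)
    (hA : ∀ x, AC J h0 h w g S n a π k y x ≤ A x) (T : Finset (Λ × Cel N J))
    (hT : ∀ p ∈ T, DC h0 h w S m A k p ≤ δ * DC h0 h w S n A k p) :
    ∑ p ∈ T, rhoC h0 h g S n a π k y p * DC h0 h w S m A k p ≤ δ * ∑ x, n x := by
  have h0' : ∀ p : Λ × Cel N J, 0 ≤ DC h0 h w S n A k p := fun p =>
    Finset.sum_nonneg fun x _ => div_nonneg (mul_nonneg (hn x) (CC_nonneg hk x p)) (hA0 x)
  calc ∑ p ∈ T, rhoC h0 h g S n a π k y p * DC h0 h w S m A k p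
      ≤ ∑ p ∈ T, δ * (rhoC h0 h g S n a π k y p * DC h0 h w S n A k p) := by
        refine Finset.sum_le_sum fun p hp => ?_
        have h1 := mul_le_mul_of_nonneg_left (hT p hp)
          (rhoC_nonneg (h0 := h0) (h := h) (g := g) (S := S) (y := y) hn ha hπ hk p)
        calc _ ≤ _ := h1
          _ = _ := by ring
    _ ≤ ∑ p, δ * (rhoC h0 h g S n a π k y p * DC h0 h w S n A k p) :=
        Finset.sum_le_sum_of_subset_of_nonneg (Finset.subset_univ T) fun p _ _ =>
          mul_nonneg hδ (mul_nonneg (rhoC_nonneg hn ha hπ hk p) (h0' p))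
    _ = δ * ∑ x, n x * (AC J h0 h w g S n a π k y x / A x) := by
        rw [← Finset.mul_sum, sum_fluxC]
    _ ≤ δ * ∑ x, n x := by
        refine mul_le_mul_of_nonneg_left (Finset.sum_le_sum fun x _ => ?_) hδ
        refine mul_le_of_le_one_right (hn x) ?_
        exact div_le_one_of_le₀ (hA x) (hA0 x)

/-! ### Comparison with the mates -/

/-- The typed scale is at least the scale of the mates `z` with heights which differ from those
of `x` by at most `v`, if `v + 1 ≤ w`, and hubs which are low with respect to `z`. -/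
theorem AM_le_AC (hn : ∀ x, 0 ≤ n x) (ha : ∀ x, 0 < a x) (hπ : ∀ l, 0 ≤ π l)
    (hk : ∀ x l, 0 ≤ k x l) (h1 : ∀ c ∈ S, ∀ z, (h0 : ℝ) - J ≤ h c z)
    (h2 : ∀ c ∈ S, ∀ z, h c z ≤ h0) {v b : ℝ} (hv : v + 1 ≤ w) (hb : b + 1 ≤ g)
    {lo : Λ → X → ℝ} {e : X → X → ℝ} (hlo1 : ∀ l z, lo l z ≤ 1)
    (he0 : ∀ x z, 0 ≤ e x z) (he1 : ∀ x z, e x z ≤ 1)
    (hlo : ∀ l z, lo l z ≠ 0 → ∀ c ∈ S, h c (y l) ≤ h c z + b)
    (he : ∀ x z, e x z ≠ 0 → ∀ c ∈ S, |h c x - h c z| ≤ v) (x : X) :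
    AM n a π k lo e x ≤ AC J h0 h w g S n a π k y x := by
  -- the pointwise inequality
  have hpt : ∀ l z, lo l z * e x z ≤
      ∑ j ∈ cells N J S, low h0 h g S j (y l) * wid h0 h w S j x * chi h0 h S j z := by
    intro l z
    by_cases h3 : lo l z = 0
    · rw [h3, zero_mul]
      exact Finset.sum_nonneg fun j _ =>
        mul_nonneg (mul_nonneg (low_nonneg _ _) (wid_nonneg _ _)) (chi_nonneg _ _)
    by_cases h4 : e x z = 0
    · rw [h4, mul_zero]
      exact Finset.sum_nonneg fun j _ =>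
        mul_nonneg (mul_nonneg (low_nonneg _ _) (wid_nonneg _ _)) (chi_nonneg _ _)
    refine (mul_le_one₀ (hlo1 l z) (he0 x z) (he1 x z)).trans ?_
    rw [← sum_chi (J := J) (fun c hcS => h1 c hcS z) fun c hcS => h2 c hcS z]
    refine Finset.sum_le_sum fun j _ => ?_
    by_cases h5 : chi h0 h S j z = 0
    · rw [h5, mul_zero]
    · have h6 : ∀ c ∈ S, |h c z - hc h0 j c| < 1 := fun c hcS => chi_ne h5 hcS
      have h7 : low h0 h g S j (y l) = 1 := low_eq_one fun c hcS => by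
        have h8 := hlo l z h3 c hcS
        have h9 := abs_lt.1 (h6 c hcS)
        linarith
      have h8 : wid h0 h w S j x = 1 := wid_eq_one fun c hcS => by
        have h8 := abs_le.1 (he x z h4 c hcS)
        have h9 := abs_lt.1 (h6 c hcS)
        rw [abs_le]
        constructor <;> linarith
      rw [h7, h8, one_mul, one_mul]
  have h3 : AC J h0 h w g S n a π k y x = ∑ l, ∑ z, π l * (n z / a z * k z l) * k x l *
      ∑ j ∈ cells N J S, low h0 h g S j (y l) * wid h0 h w S j x * chi h0 h S j z := by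
    unfold AC rhoC CC
    rw [← Finset.univ_product_univ, Finset.sum_product]
    refine Finset.sum_congr rfl fun l _ => ?_
    simp only [ite_mul, zero_mul]
    rw [Finset.sum_ite_mem, Finset.univ_inter]
    simp_rw [Finset.mul_sum]
    rw [Finset.sum_comm]
    refine Finset.sum_congr rfl fun j _ => ?_
    rw [Finset.sum_mul]
    exact Finset.sum_congr rfl fun z _ => by ring
  rw [h3]
  unfold AM rhoM CM
  rw [← Finset.univ_product_univ, Finset.sum_product]
  refine Finset.sum_le_sum fun l _ => Finset.sum_le_sum fun z _ => ?_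
  simp only
  have h4 : 0 ≤ π l * (n z / a z * k z l) * k x l :=
    mul_nonneg (mul_nonneg (hπ l) (mul_nonneg (div_nonneg (hn z) (ha z).le) (hk z l))) (hk x l)
  calc π l * (n z / a z * k z l * lo l z) * (k x l * e x z)
      = π l * (n z / a z * k z l) * k x l * (lo l z * e x z) := by ring
    _ ≤ _ := mul_le_mul_of_nonneg_left (hpt l z) h4

/-- The NO side: if the typed scale is small on `W` then mates of the same heights via any part of
the main law are rare. -/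
theorem lkC_le (ha : ∀ x, 0 < a x) (hn : ∀ x, 0 ≤ n x) (hπ : ∀ l, 0 ≤ π l)
    (hk : ∀ x l, 0 ≤ k x l) (h1 : ∀ c ∈ S, ∀ z, (h0 : ℝ) - J ≤ h c z)
    (h2 : ∀ c ∈ S, ∀ z, h c z ≤ h0) {v b : ℝ} (hv : v + 1 ≤ w) (hb : b + 1 ≤ g)
    {lo : Λ → X → ℝ} {e : X → X → ℝ} (hlo0 : ∀ l z, 0 ≤ lo l z) (hlo1 : ∀ l z, lo l z ≤ 1)
    (he0 : ∀ x z, 0 ≤ e x z) (he1 : ∀ x z, e x z ≤ 1)
    (hlo : ∀ l z, lo l z ≠ 0 → ∀ c ∈ S, h c (y l) ≤ h c z + b)
    (he : ∀ x z, e x z ≠ 0 → ∀ c ∈ S, |h c x - h c z| ≤ v) {ν aq : X → ℝ} {q : Λ → ℝ}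
    (hν : ∀ x, 0 ≤ ν x) (hνn : ∀ x, ν x ≤ n x) (hq : ∀ l, 0 ≤ q l) (hqπ : ∀ l, q l ≤ π l)
    {W : Finset X} {c₁ : ℝ} (hc₁ : 0 < c₁) (haq : ∀ x ∈ W, c₁ * a x ≤ aq x)
    {ε : ℝ} (hAC : ∀ x ∈ W, AC J h0 h w g S n a π k y x ≤ ε * a x)
    {ε₃ : ℝ} (hlow : ∀ x ∈ W, ∑ l, π l * k x l * (1 - lo l x) ≤ ε₃ * a x)
    {η : ℝ} (hη : 0 < η) :
    lkM ν aq q k e W ≤ η * ∑ l, q l + (ε / (c₁ ^ 2 * η) + ε₃ / c₁) * ∑ x ∈ W, ν x :=
  lkM_le ha hn hk hlo0 hlo1 he0 he1 hν hνn hq hqπ hc₁ haq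
    (fun x hx => (AM_le_AC (J := J) (w := w) (g := g) (h0 := h0) (h := h) (y := y) hn ha hπ hk h1
      h2 hv hb hlo1 he0 he1 hlo he x).trans (hAC x hx)) hlow hη

/-! ### Continuity -/

section cont

variable {Θ : Type*} [TopologicalSpace Θ] {ht : Θ → Fin N → X → ℝ} {nt at' : Θ → X → ℝ}
  {πt : Θ → Λ → ℝ} {kt : Θ → X → Λ → ℝ}

omit [Fintype Λ] in
theorem continuous_rhoC (hh : ∀ c x, Continuous fun θ => ht θ c x)
    (hn : ∀ x, Continuous fun θ => nt θ x) (ha : ∀ x, Continuous fun θ => at' θ x)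
    (ha0 : ∀ θ x, 0 < at' θ x) (hπ : ∀ l, Continuous fun θ => πt θ l)
    (hk : ∀ x l, Continuous fun θ => kt θ x l) (p : Λ × Cel N J) :
    Continuous fun θ => rhoC h0 (ht θ) g S (nt θ) (at' θ) (πt θ) (kt θ) y p := by
  unfold rhoC
  split_ifs
  · refine (hπ _).mul ((continuous_low hh _ _).mul (continuous_finsetSum _ fun z _ => ?_))
    exact (((hn z).div (ha z) fun θ => (ha0 θ z).ne').mul (hk z _)).mul (continuous_chi hh _ _)
  · exact continuous_const

omit [Fintype X] [Fintype Λ] in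
theorem continuous_CC (hh : ∀ c x, Continuous fun θ => ht θ c x)
    (hk : ∀ x l, Continuous fun θ => kt θ x l) (x : X) (p : Λ × Cel N J) :
    Continuous fun θ => CC h0 (ht θ) w S (kt θ) x p :=
  (hk _ _).mul (continuous_wid hh _ _)

theorem continuous_AC (hh : ∀ c x, Continuous fun θ => ht θ c x)
    (hn : ∀ x, Continuous fun θ => nt θ x) (ha : ∀ x, Continuous fun θ => at' θ x)
    (ha0 : ∀ θ x, 0 < at' θ x) (hπ : ∀ l, Continuous fun θ => πt θ l)
    (hk : ∀ x l, Continuous fun θ => kt θ x l) (x : X) :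
    Continuous fun θ => AC J h0 (ht θ) w g S (nt θ) (at' θ) (πt θ) (kt θ) y x :=
  continuous_finsetSum _ fun p _ =>
    (continuous_rhoC hh hn ha ha0 hπ hk p).mul (continuous_CC hh hk x p)

end cont

end lab

end Pool.Agent.Lib.GSLE
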