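import Pool.Agent.Lib.GSLE.Pay

/-!
# Conflicts of the own nodes under a common vertex: one scale and increasing fans

`p l` is the own law of the label `l` (any `p l x ≤ B * (n x / A' x * c x l)`), the labels of a
group `T` have scale `(1/2)^m` and total weight at least `η (1/2)^m`.  `adj x l` is the adjacency
of the node `x` and the hub of the label `l`.
-/

set_option autoImplicit false

open Finset

namespace Pool.Agent.Lib.GSLE

section window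

variable {V : Type*} [Fintype V]

/-- A window of `2 g₀ + 1` levels. -/
theorem win_le {k : V → ℕ} (f : V → ℝ) (m g₀ : ℕ) {ξ : ℝ} (hξ : 0 ≤ ξ)
    (hf : ∀ j, ds j m ≤ g₀ → ∑ x with k x = j, f x ≤ ξ) :
    ∑ x with ds (k x) m ≤ g₀, f x ≤ (2 * g₀ + 1) * ξ := by
  classical
  have h1 : ∑ x with ds (k x) m ≤ g₀, f x =
      ∑ j ∈ (range (m + g₀ + 1)).filter (fun j => ds j m ≤ g₀), ∑ x with k x = j, f x := by
    rw [← Finset.sum_fiberwise_of_maps_to (s := univ.filter fun x => ds (k x) m ≤ g₀)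
      (t := (range (m + g₀ + 1)).filter (fun j => ds j m ≤ g₀)) (g := k)]
    · refine Finset.sum_congr rfl fun j hj => Finset.sum_congr ?_ fun _ _ => rfl
      rw [Finset.mem_filter] at hj
      ext x
      simp only [Finset.mem_filter, Finset.mem_univ, true_and]
      constructor
      · exact fun h => h.2
      · intro h
        exact ⟨h ▸ hj.2, h⟩
    · intro x hx
      have h2 := (Finset.mem_filter.mp hx).2
      refine Finset.mem_filter.mpr ⟨Finset.mem_range.mpr ?_, h2⟩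
      unfold ds at h2
      omega
  have h2 : ((range (m + g₀ + 1)).filter (fun j => ds j m ≤ g₀)).card ≤ 2 * g₀ + 1 := by
    have h3 : (range (m + g₀ + 1)).filter (fun j => ds j m ≤ g₀) ⊆ Finset.Icc (m - g₀) (m + g₀) := by
      intro j hj
      have h4 := (Finset.mem_filter.mp hj).2
      unfold ds at h4
      exact Finset.mem_Icc.mpr ⟨by omega, by omega⟩
    refine (Finset.card_le_card h3).trans ?_
    rw [Nat.card_Icc]
    omega
  rw [h1]
  calc ∑ j ∈ (range (m + g₀ + 1)).filter (fun j => ds j m ≤ g₀), ∑ x with k x = j, f x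
      ≤ ∑ _j ∈ (range (m + g₀ + 1)).filter (fun j => ds j m ≤ g₀), ξ :=
        Finset.sum_le_sum fun j hj => hf j (Finset.mem_filter.mp hj).2
    _ = ((range (m + g₀ + 1)).filter (fun j => ds j m ≤ g₀)).card * ξ := by
        rw [Finset.sum_const, nsmul_eq_mul]
    _ ≤ (2 * g₀ + 1) * ξ := by
        refine mul_le_mul_of_nonneg_right ?_ hξ
        exact_mod_cast h2

end window

variable {V Λ : Type*} [Fintype V] [Fintype Λ]

/-- The data of the own nodes of the labels of the set `T`, of scale `(1/2)^m`. -/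
structure Own (n a A' : V → ℝ) (k : V → ℕ) (c : V → Λ → ℝ) (ρ : Λ → ℝ) (p : Λ → V → ℝ)
    (g₀ : ℕ) (H θ η B : ℝ) (m : ℕ) (T : Finset Λ) : Prop where
  n0 : ∀ x, 0 ≤ n x
  a0 : ∀ x, 0 < a x
  ak : ∀ x, a x < 2 * (1 / 2 : ℝ) ^ k x
  aA : ∀ x, θ * a x ≤ A' x
  H0 : 0 ≤ H
  θ0 : 0 < θ
  η0 : 0 < η
  B0 : 0 ≤ B
  c0 : ∀ x, ∀ l ∈ T, 0 ≤ c x l
  ρ0 : ∀ l ∈ T, 0 ≤ ρ l
  win : ∀ x, ∀ l ∈ T, c x l ≠ 0 → ds (k x) m ≤ g₀
  own : ∀ x, ∑ l ∈ T, c x l * ρ l ≤ H * a x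
  mass : η * (1 / 2 : ℝ) ^ m ≤ ∑ l ∈ T, ρ l
  p0 : ∀ l ∈ T, ∀ x, 0 ≤ p l x
  p1 : ∀ l ∈ T, ∑ x, p l x ≤ 1
  pB : ∀ l ∈ T, ∀ x, p l x ≤ B * (n x / A' x * c x l)

section own

variable {n a A' : V → ℝ} {k : V → ℕ} {c : V → Λ → ℝ} {ρ : Λ → ℝ} {p : Λ → V → ℝ}
  {g₀ : ℕ} {H θ η B : ℝ} {m : ℕ} {T : Finset Λ}

/-- The total weight is positive. -/
theorem Own.pos (h : Own n a A' k c ρ p g₀ H θ η B m T) : 0 < ∑ l ∈ T, ρ l :=
  lt_of_lt_of_le (mul_pos h.η0 (by positivity)) h.mass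

/-- The mean of `f ≥ 0` over the own nodes of the group. -/
theorem Own.mean (h : Own n a A' k c ρ p g₀ H θ η B m T) (f : V → ℝ) (hf : ∀ x, 0 ≤ f x) :
    ∑ l ∈ T, ρ l * ∑ x, p l x * f x ≤
      (2 * 2 ^ g₀ * H * B / (θ * η)) * (∑ x with ds (k x) m ≤ g₀, n x / a x * f x) *
        ∑ l ∈ T, ρ l := by
  have h1 := fan_density h.n0 h.a0 h.ak h.θ0 h.η0 h.H0 h.aA T h.c0 h.ρ0 h.win h.own h.mass f hf
  calc ∑ l ∈ T, ρ l * ∑ x, p l x * f x
      ≤ ∑ l ∈ T, B * (ρ l * ∑ x, n x / A' x * c x l * f x) := by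
        refine Finset.sum_le_sum fun l hl => ?_
        have h2 : ∑ x, p l x * f x ≤ B * ∑ x, n x / A' x * c x l * f x := by
          rw [Finset.mul_sum]
          refine Finset.sum_le_sum fun x _ => ?_
          calc p l x * f x ≤ B * (n x / A' x * c x l) * f x :=
                mul_le_mul_of_nonneg_right (h.pB l hl x) (hf x)
            _ = B * (n x / A' x * c x l * f x) := by ring
        calc ρ l * ∑ x, p l x * f x ≤ ρ l * (B * ∑ x, n x / A' x * c x l * f x) :=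
              mul_le_mul_of_nonneg_left h2 (h.ρ0 l hl)
          _ = B * (ρ l * ∑ x, n x / A' x * c x l * f x) := by ring
    _ = B * ∑ l ∈ T, ρ l * ∑ x, n x / A' x * c x l * f x := by rw [Finset.mul_sum]
    _ ≤ B * ((2 * 2 ^ g₀ * H / (θ * η)) * (∑ x with ds (k x) m ≤ g₀, n x / a x * f x) *
        ∑ l ∈ T, ρ l) := mul_le_mul_of_nonneg_left h1 h.B0
    _ = _ := by ring

/-- **Conflicts with one vertex** which is thin, in the sense that its `n / a`-mass on every level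
near `m` is at most `ξ`. -/
theorem Own.thin (h : Own n a A' k c ρ p g₀ H θ η B m T) (f : V → ℝ) (hf : ∀ x, 0 ≤ f x) {ξ : ℝ}
    (hξ : 0 ≤ ξ) (hf2 : ∀ j, ds j m ≤ g₀ → ∑ x with k x = j, n x / a x * f x ≤ ξ) :
    ∑ l ∈ T, ρ l * ∑ x, p l x * f x ≤
      (2 * 2 ^ g₀ * H * B * (2 * g₀ + 1) / (θ * η)) * ξ * ∑ l ∈ T, ρ l := by
  refine (h.mean f hf).trans ?_
  have h1 := win_le (k := k) (fun x => n x / a x * f x) m g₀ hξ hf2
  have h2 : 0 ≤ 2 * 2 ^ g₀ * H * B / (θ * η) :=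
    div_nonneg (mul_nonneg (mul_nonneg (by positivity) h.H0) h.B0) (mul_pos h.θ0 h.η0).le
  calc (2 * 2 ^ g₀ * H * B / (θ * η)) * (∑ x with ds (k x) m ≤ g₀, n x / a x * f x) *
        ∑ l ∈ T, ρ l
      ≤ (2 * 2 ^ g₀ * H * B / (θ * η)) * ((2 * g₀ + 1) * ξ) * ∑ l ∈ T, ρ l :=
        mul_le_mul_of_nonneg_right (mul_le_mul_of_nonneg_left h1 h2) h.pos.le
    _ = _ := by ring

end own

section roots

variable {n a A' : V → ℝ} {k : V → ℕ} {c : V → Λ → ℝ} {ρ : Λ → ℝ} {p : Λ → V → ℝ}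
  {g₀ : ℕ} {H θ η B : ℝ}

/-- The share of the hubs of the group `T` which are seen by `x`. -/
noncomputable def sh (ρ : Λ → ℝ) (adj : V → Λ → ℝ) (T : Finset Λ) (x : V) : ℝ :=
  (∑ l ∈ T, adj x l * ρ l) / ∑ l ∈ T, ρ l

theorem sh_nonneg {adj : V → Λ → ℝ} {T : Finset Λ} {x : V} (hρ : ∀ l ∈ T, 0 ≤ ρ l)
    (hadj : ∀ l ∈ T, 0 ≤ adj x l) : 0 ≤ sh ρ adj T x :=
  div_nonneg (Finset.sum_nonneg fun l hl => mul_nonneg (hadj l hl) (hρ l hl))
    (Finset.sum_nonneg fun l hl => hρ l hl)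

theorem sh_le_one {adj : V → Λ → ℝ} {T : Finset Λ} {x : V} (hρ : ∀ l ∈ T, 0 ≤ ρ l)
    (hadj : ∀ l ∈ T, adj x l ≤ 1) : sh ρ adj T x ≤ 1 := by
  refine div_le_one_of_le₀ (Finset.sum_le_sum fun l hl => ?_) (Finset.sum_nonneg fun l hl => hρ l hl)
  exact mul_le_of_le_one_left (hρ l hl) (hadj l hl)

/-- One scale: if the group has weight at least `K (1/2)^m`, then every `x` near the level `m` sees
a share at most `C / K` of its hubs (`hB` : near mass of `x`). -/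
theorem sh_scale {adj : V → Λ → ℝ} {i : Λ → ℕ} {x : V} {kx m : ℕ} {T : Finset Λ}
    (hadj : ∀ l, 0 ≤ adj x l) (hρ : ∀ l, 0 ≤ ρ l) {q Bd K : ℝ} (hq0 : 0 < q) (hq1 : q ≤ 1)
    (hK : 0 < K) (hB : ∑ l, adj x l * ρ l * q ^ ds kx (i l) ≤ Bd * (1 / 2 : ℝ) ^ kx)
    (hT : ∀ l ∈ T, i l = m) (hm : ds kx m ≤ g₀) (hmass : K * (1 / 2 : ℝ) ^ m ≤ ∑ l ∈ T, ρ l) :
    sh ρ adj T x ≤ Bd * (2 ^ g₀ / q ^ g₀) / K := by
  have hpm : (0 : ℝ) < (1 / 2 : ℝ) ^ m := by positivity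
  have hpos : 0 < ∑ l ∈ T, ρ l := lt_of_lt_of_le (mul_pos hK hpm) hmass
  have hqg : 0 < q ^ g₀ := by positivity
  have h1 : (∑ l ∈ T, adj x l * ρ l) * q ^ g₀ ≤ Bd * (1 / 2 : ℝ) ^ kx := by
    refine le_trans ?_ hB
    rw [Finset.sum_mul]
    refine (Finset.sum_le_sum fun l hl => ?_).trans
      (Finset.sum_le_sum_of_subset_of_nonneg (Finset.subset_univ T) fun l _ _ =>
        mul_nonneg (mul_nonneg (hadj l) (hρ l)) (by positivity))
    rw [hT l hl]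
    exact mul_le_mul_of_nonneg_left (pow_le_pow_of_le_one hq0.le hq1 hm)
      (mul_nonneg (hadj l) (hρ l))
  have hBd : 0 ≤ Bd := by
    by_contra hcon
    push Not at hcon
    have h2 : 0 ≤ (∑ l ∈ T, adj x l * ρ l) * q ^ g₀ :=
      mul_nonneg (Finset.sum_nonneg fun l _ => mul_nonneg (hadj l) (hρ l)) hqg.le
    have h3 : Bd * (1 / 2 : ℝ) ^ kx < 0 := mul_neg_of_neg_of_pos hcon (by positivity)
    linarith
  have h2 : (1 / 2 : ℝ) ^ kx ≤ 2 ^ g₀ * (1 / 2 : ℝ) ^ m := by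
    have h5 : m ≤ kx + g₀ := by
      unfold ds at hm
      omega
    have h6 : (1 / 2 : ℝ) ^ (kx + g₀) ≤ (1 / 2 : ℝ) ^ m :=
      pow_le_pow_of_le_one (by norm_num) (by norm_num) h5
    have h7 : (2 : ℝ) ^ g₀ * (1 / 2 : ℝ) ^ (kx + g₀) = (1 / 2 : ℝ) ^ kx := by
      have h8 : (2 : ℝ) ^ g₀ * (1 / 2 : ℝ) ^ g₀ = 1 := by
        rw [← mul_pow]
        norm_num
      rw [pow_add]
      calc (2 : ℝ) ^ g₀ * ((1 / 2 : ℝ) ^ kx * (1 / 2 : ℝ) ^ g₀)
          = (1 / 2 : ℝ) ^ kx * ((2 : ℝ) ^ g₀ * (1 / 2 : ℝ) ^ g₀) := by ring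
        _ = (1 / 2 : ℝ) ^ kx := by rw [h8, mul_one]
    rw [← h7]
    exact mul_le_mul_of_nonneg_left h6 (by positivity)
  unfold sh
  rw [div_le_div_iff₀ hpos hK]
  have h3 : (∑ l ∈ T, adj x l * ρ l) ≤ Bd * (2 ^ g₀ / q ^ g₀) * (1 / 2 : ℝ) ^ m := by
    have h4 : (∑ l ∈ T, adj x l * ρ l) * q ^ g₀ ≤ Bd * (2 ^ g₀ * (1 / 2 : ℝ) ^ m) :=
      h1.trans (mul_le_mul_of_nonneg_left h2 hBd)
    calc ∑ l ∈ T, adj x l * ρ l = (∑ l ∈ T, adj x l * ρ l) * q ^ g₀ / q ^ g₀ := by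
          field_simp
      _ ≤ Bd * (2 ^ g₀ * (1 / 2 : ℝ) ^ m) / q ^ g₀ := div_le_div_of_nonneg_right h4 hqg.le
      _ = Bd * (2 ^ g₀ / q ^ g₀) * (1 / 2 : ℝ) ^ m := by ring
  calc (∑ l ∈ T, adj x l * ρ l) * K ≤ Bd * (2 ^ g₀ / q ^ g₀) * (1 / 2 : ℝ) ^ m * K :=
        mul_le_mul_of_nonneg_right h3 hK.le
    _ = Bd * (2 ^ g₀ / q ^ g₀) * (K * (1 / 2 : ℝ) ^ m) := by ring
    _ ≤ Bd * (2 ^ g₀ / q ^ g₀) * ∑ l ∈ T, ρ l :=
        mul_le_mul_of_nonneg_left hmass (mul_nonneg hBd (by positivity))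

/-- Groups of much larger scale: LE decay. -/
theorem sh_high {adj : V → Λ → ℝ} {i : Λ → ℕ} {x : V} {kx m d : ℕ} {T : Finset Λ}
    (hadj : ∀ l, 0 ≤ adj x l) (hρ : ∀ l, 0 ≤ ρ l) {q Bd η : ℝ} (hq0 : 0 < q) (hq1 : q ≤ 1)
    (hq : q * q = 1 / 2) (hη : 0 < η)
    (hB : ∑ l, adj x l * ρ l * q ^ ds kx (i l) ≤ Bd * (1 / 2 : ℝ) ^ kx)
    (hT : ∀ l ∈ T, i l = m) (hm : m + d ≤ kx) (hmass : η * (1 / 2 : ℝ) ^ m ≤ ∑ l ∈ T, ρ l) :
    sh ρ adj T x ≤ Bd / η * q ^ d := by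
  have hpm : (0 : ℝ) < (1 / 2 : ℝ) ^ m := by positivity
  have hpk : (0 : ℝ) < (1 / 2 : ℝ) ^ kx := by positivity
  have hpos : 0 < ∑ l ∈ T, ρ l := lt_of_lt_of_le (mul_pos hη hpm) hmass
  have h1 := decay_high (g := d) hadj hρ hq0 hq1 hq hB
  have h2 : Bd * (1 / 2 : ℝ) ^ kx * q ^ d / (1 / 2 : ℝ) ^ kx = Bd * q ^ d := by
    field_simp
  rw [h2] at h1
  have h3 : (∑ l ∈ T, adj x l * ρ l) / (1 / 2 : ℝ) ^ m ≤ Bd * q ^ d := by
    refine le_trans ?_ h1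
    rw [Finset.sum_div]
    refine (Finset.sum_le_sum fun l hl => ?_).trans
      (Finset.sum_le_sum_of_subset_of_nonneg (s := T) ?_ fun l _ _ =>
        div_nonneg (mul_nonneg (hadj l) (hρ l)) (by positivity))
    · rw [hT l hl]
    · intro l hl
      refine Finset.mem_filter.mpr ⟨Finset.mem_univ l, ?_⟩
      rw [hT l hl]
      exact hm
  rw [div_le_iff₀ hpm] at h3
  have h4 : 0 ≤ ∑ l ∈ T, adj x l * ρ l :=
    Finset.sum_nonneg fun l _ => mul_nonneg (hadj l) (hρ l)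
  have h5 : 0 ≤ Bd * q ^ d := by
    by_contra hcon
    push Not at hcon
    have := mul_neg_of_neg_of_pos hcon hpm
    linarith
  unfold sh
  rw [div_le_iff₀ hpos]
  calc ∑ l ∈ T, adj x l * ρ l ≤ Bd * q ^ d * (1 / 2 : ℝ) ^ m := h3
    _ = Bd / η * q ^ d * (η * (1 / 2 : ℝ) ^ m) := by field_simp
    _ ≤ Bd / η * q ^ d * ∑ l ∈ T, ρ l := by
        refine mul_le_mul_of_nonneg_left hmass ?_
        have h6 : Bd / η * q ^ d = Bd * q ^ d / η := by ring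
        rw [h6]
        exact div_nonneg h5 hη.le

/-- **The half graph**: groups of smaller scale.  The own nodes of `T` which see the hub of
`l' ∈ T'` are `F`-nodes of `l'`, and `l'` is not thick. -/
theorem Own.low {m m' d : ℕ} {T T' : Finset Λ} {adj : V → Λ → ℝ} {f : Λ → V → ℝ}
    (h : Own n a A' k c ρ p g₀ H θ η B m T) (hf0 : ∀ l x, 0 ≤ f l x)
    (hρ' : ∀ l ∈ T', 0 ≤ ρ l) (hpos' : 0 < ∑ l ∈ T', ρ l)
    (hF : ∀ l ∈ T, ∀ x, p l x ≠ 0 → ∀ l' ∈ T', adj x l' ≤ f l' x) {q ε : ℝ} (hq0 : 0 < q)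
    (hq1 : q ≤ 1) (hε : 0 ≤ ε) (hm : m + g₀ + d ≤ m')
    (hth : ∀ l' ∈ T', ∀ j, ds j m ≤ g₀ → DF n a k f j l' ≤ ε * q ^ (m' - j)) :
    ∑ l ∈ T, ρ l * ∑ x, p l x * sh ρ adj T' x ≤
      (2 * 2 ^ g₀ * H * B * (2 * g₀ + 1) / (θ * η)) * (ε * q ^ (m' - m - g₀)) * ∑ l ∈ T, ρ l := by
  have e1 : ∑ l ∈ T, ρ l * ∑ x, p l x * sh ρ adj T' x ≤
      ∑ l' ∈ T', ρ l' / (∑ l ∈ T', ρ l) * ∑ l ∈ T, ρ l * ∑ x, p l x * f l' x := by
    have e2 : ∑ l' ∈ T', ρ l' / (∑ l ∈ T', ρ l) * ∑ l ∈ T, ρ l * ∑ x, p l x * f l' x =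
        ∑ l ∈ T, ρ l * ∑ x, p l x * ((∑ l' ∈ T', f l' x * ρ l') / ∑ l ∈ T', ρ l) := by
      simp_rw [Finset.mul_sum, Finset.sum_div, Finset.mul_sum]
      rw [Finset.sum_comm]
      refine Finset.sum_congr rfl fun l _ => ?_
      rw [Finset.sum_comm]
      refine Finset.sum_congr rfl fun x _ => Finset.sum_congr rfl fun l' _ => ?_
      ring
    rw [e2]
    refine Finset.sum_le_sum fun l hl => mul_le_mul_of_nonneg_left ?_ (h.ρ0 l hl)
    refine Finset.sum_le_sum fun x _ => ?_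
    by_cases hx : p l x = 0
    · rw [hx, zero_mul, zero_mul]
    · refine mul_le_mul_of_nonneg_left ?_ (h.p0 l hl x)
      unfold sh
      refine div_le_div_of_nonneg_right ?_ hpos'.le
      exact Finset.sum_le_sum fun l' hl' =>
        mul_le_mul_of_nonneg_right (hF l hl x hx l' hl') (hρ' l' hl')
  refine e1.trans ?_
  have h2 : ∀ l' ∈ T', ∑ l ∈ T, ρ l * ∑ x, p l x * f l' x ≤
      (2 * 2 ^ g₀ * H * B * (2 * g₀ + 1) / (θ * η)) * (ε * q ^ (m' - m - g₀)) *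
        ∑ l ∈ T, ρ l := by
    intro l' hl'
    refine h.thin (fun x => f l' x) (fun x => hf0 l' x) (by positivity) fun j hj => ?_
    have h3 := hth l' hl' j hj
    unfold DF at h3
    refine h3.trans (mul_le_mul_of_nonneg_left ?_ hε)
    refine pow_le_pow_of_le_one hq0.le hq1 ?_
    unfold ds at hj
    omega
  calc ∑ l' ∈ T', ρ l' / (∑ l ∈ T', ρ l) * ∑ l ∈ T, ρ l * ∑ x, p l x * f l' x
      ≤ ∑ l' ∈ T', ρ l' / (∑ l ∈ T', ρ l) *
        ((2 * 2 ^ g₀ * H * B * (2 * g₀ + 1) / (θ * η)) * (ε * q ^ (m' - m - g₀)) *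
          ∑ l ∈ T, ρ l) :=
        Finset.sum_le_sum fun l' hl' =>
          mul_le_mul_of_nonneg_left (h2 l' hl') (div_nonneg (hρ' l' hl') hpos'.le)
    _ = (∑ l' ∈ T', ρ l' / (∑ l ∈ T', ρ l)) *
        ((2 * 2 ^ g₀ * H * B * (2 * g₀ + 1) / (θ * η)) * (ε * q ^ (m' - m - g₀)) *
          ∑ l ∈ T, ρ l) := by rw [Finset.sum_mul]
    _ = _ := by
        rw [← Finset.sum_div, div_self hpos'.ne', one_mul]

/-- **Fan**: `T b`, `b < R₁`, are groups of scales `(1/2)^(m b)` with gaps at least `g + g₀`.  The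
mean over the own nodes of the group `T a` of the share (average over the groups) of the hubs of
the fan which they see is at most `1 / R₁` up to a factor close to one. -/
theorem fan_share {R₁ : ℕ} (m : ℕ → ℕ) (T : ℕ → Finset Λ) {g : ℕ} (hg1 : 1 ≤ g)
    (hgap : ∀ a b, a < b → b < R₁ → m a + g₀ + g ≤ m b)
    (hO : ∀ b < R₁, Own n a A' k c ρ p g₀ H θ η B (m b) (T b)) {i : Λ → ℕ}
    (hi : ∀ b < R₁, ∀ l ∈ T b, i l = m b) {adj : V → Λ → ℝ} (hadj : ∀ x l, 0 ≤ adj x l)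
    (hadj1 : ∀ x l, adj x l ≤ 1) (hρ : ∀ l, 0 ≤ ρ l) {f : Λ → V → ℝ} (hf0 : ∀ l x, 0 ≤ f l x)
    {q Bd ε : ℝ} (hq0 : 0 < q) (hq1 : q < 1) (hq : q * q = 1 / 2) (hε : 0 ≤ ε) (hBd : 0 ≤ Bd)
    {b₀ : ℕ} (hb₀ : b₀ < R₁)
    (hnear : ∀ l ∈ T b₀, ∀ x, p l x ≠ 0 →
      ∑ l', adj x l' * ρ l' * q ^ ds (k x) (i l') ≤ Bd * (1 / 2 : ℝ) ^ k x)
    (hF : ∀ b, b₀ < b → b < R₁ → ∀ l ∈ T b₀, ∀ x, p l x ≠ 0 → ∀ l' ∈ T b, adj x l' ≤ f l' x)
    (hth : ∀ b, b₀ < b → b < R₁ → ∀ l' ∈ T b, ∀ j, ds j (m b₀) ≤ g₀ →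
      DF n a k f j l' ≤ ε * q ^ (m b - j)) :
    ∑ l ∈ T b₀, ρ l * ∑ x, p l x * ∑ b ∈ range R₁, sh ρ adj (T b) x ≤
      (1 + (Bd / η + (2 * 2 ^ g₀ * H * B * (2 * g₀ + 1) / (θ * η)) * ε) * (q ^ g / (1 - q))) *
        ∑ l ∈ T b₀, ρ l := by
  classical
  have h0 := hO b₀ hb₀
  have hpos := h0.pos
  set C1 : ℝ := 2 * 2 ^ g₀ * H * B * (2 * g₀ + 1) / (θ * η) with hC1
  have hC10 : 0 ≤ C1 := by
    rw [hC1]
    refine div_nonneg (mul_nonneg (mul_nonneg (mul_nonneg (by positivity) h0.H0) h0.B0)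
      (by positivity)) (mul_pos h0.θ0 h0.η0).le
  -- swap
  have e1 : ∑ l ∈ T b₀, ρ l * ∑ x, p l x * ∑ b ∈ range R₁, sh ρ adj (T b) x =
      ∑ b ∈ range R₁, ∑ l ∈ T b₀, ρ l * ∑ x, p l x * sh ρ adj (T b) x := by
    simp_rw [Finset.mul_sum]
    symm
    rw [Finset.sum_comm]
    refine Finset.sum_congr rfl fun l _ => ?_
    rw [Finset.sum_comm]
  have hpt : ∀ b < R₁, ∀ r : ℝ, (∀ l ∈ T b₀, ∀ x, p l x ≠ 0 → sh ρ adj (T b) x ≤ r) →
      0 ≤ r → ∑ l ∈ T b₀, ρ l * ∑ x, p l x * sh ρ adj (T b) x ≤ r * ∑ l ∈ T b₀, ρ l := by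
    intro b hb r hr hr0
    rw [Finset.mul_sum]
    refine Finset.sum_le_sum fun l hl => ?_
    rw [mul_comm r]
    refine mul_le_mul_of_nonneg_left ?_ (hρ l)
    calc ∑ x, p l x * sh ρ adj (T b) x ≤ ∑ x, p l x * r := by
          refine Finset.sum_le_sum fun x _ => ?_
          by_cases hx : p l x = 0
          · rw [hx, zero_mul, zero_mul]
          · exact mul_le_mul_of_nonneg_left (hr l hl x hx) (h0.p0 l hl x)
      _ = (∑ x, p l x) * r := by rw [Finset.sum_mul]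
      _ ≤ 1 * r := mul_le_mul_of_nonneg_right (h0.p1 l hl) hr0
      _ = r := one_mul r
  -- the three cases
  have hcase : ∀ b < R₁, ∑ l ∈ T b₀, ρ l * ∑ x, p l x * sh ρ adj (T b) x ≤
      (if b = b₀ then 1 else if b < b₀ then Bd / η * q ^ (m b₀ - m b - g₀)
        else C1 * (ε * q ^ (m b - m b₀ - g₀))) * ∑ l ∈ T b₀, ρ l := by
    intro b hb
    rcases lt_trichotomy b b₀ with h1 | h1 | h1
    · rw [if_neg (by omega), if_pos h1]
      have hη := h0.η0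
      refine hpt b hb _ (fun l hl x hx => ?_) (by positivity)
      have hkx : ds (k x) (m b₀) ≤ g₀ := by
        refine h0.win x l hl fun hc => hx ?_
        have h2 := h0.pB l hl x
        rw [hc, mul_zero, mul_zero] at h2
        exact le_antisymm h2 (h0.p0 l hl x)
      have h2 := hgap b b₀ h1 hb₀
      have h3 : m b + (m b₀ - m b - g₀) ≤ k x := by
        unfold ds at hkx
        omega
      exact sh_high (fun l => hadj x l) hρ hq0 hq1.le hq h0.η0 (hnear l hl x hx) (hi b hb) h3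
        (hO b hb).mass
    · rw [if_pos h1, one_mul]
      have h2 := hpt b hb 1 (fun l _ x _ => sh_le_one (fun l _ => hρ l) fun l _ => hadj1 x l)
        zero_le_one
      rwa [one_mul] at h2
    · rw [if_neg (by omega), if_neg (by omega)]
      have h2 := hgap b₀ b h1 hb
      exact h0.low (d := g) hf0 (fun l _ => hρ l) (hO b hb).pos (hF b h1 hb) hq0 hq1.le hε h2
        (hth b h1 hb)
  rw [e1]
  refine (Finset.sum_le_sum fun b hb => hcase b (Finset.mem_range.mp hb)).trans ?_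
  rw [← Finset.sum_mul]
  refine mul_le_mul_of_nonneg_right ?_ hpos.le
  -- the geometric sums
  -- a sum over lower or higher groups
  have hgeo : ∀ (S : Finset ℕ) (e : ℕ → ℕ), (∀ b ∈ S, g ≤ e b) →
      (∀ b ∈ S, ∀ b' ∈ S, b < b' → e b + 1 ≤ e b' ∨ e b' + 1 ≤ e b) →
      ∑ b ∈ S, q ^ e b ≤ q ^ g / (1 - q) := by
    intro S e hge hne
    have h1 : ∑ b ∈ S, q ^ e b = q ^ g * ∑ b ∈ S, q ^ (e b - g) := by
      rw [Finset.mul_sum]
      refine Finset.sum_congr rfl fun b hb => ?_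
      rw [← pow_add]
      congr 1
      have := hge b hb
      omega
    rw [h1, div_eq_mul_one_div]
    refine mul_le_mul_of_nonneg_left ?_ (by positivity)
    refine geo_inj hq0.le hq1 S _ ?_
    intro x hx y hy hxy
    simp only at hxy
    have hx1 := hge x hx
    have hy1 := hge y hy
    rcases lt_trichotomy x y with h2 | h2 | h2
    · have := hne x hx y hy h2
      omega
    · exact h2
    · have := hne y hy x hx h2
      omega
  have hG1 : ∑ b ∈ (range R₁).filter (fun b => b < b₀), q ^ (m b₀ - m b - g₀) ≤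
      q ^ g / (1 - q) := by
    refine hgeo _ _ (fun b hb => ?_) fun b hb b' hb' h1 => ?_
    · have h2 := hgap b b₀ (Finset.mem_filter.mp hb).2 hb₀
      omega
    · have h2 := hgap b b' h1 (Finset.mem_range.mp (Finset.mem_filter.mp hb').1)
      have h3 := hgap b' b₀ (Finset.mem_filter.mp hb').2 hb₀
      omega
  have hG2 : ∑ b ∈ (range R₁).filter (fun b => b₀ < b), q ^ (m b - m b₀ - g₀) ≤
      q ^ g / (1 - q) := by
    refine hgeo _ _ (fun b hb => ?_) fun b hb b' hb' h1 => ?_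
    · have h2 := hgap b₀ b (Finset.mem_filter.mp hb).2
        (Finset.mem_range.mp (Finset.mem_filter.mp hb).1)
      omega
    · have h2 := hgap b b' h1 (Finset.mem_range.mp (Finset.mem_filter.mp hb').1)
      have h3 := hgap b₀ b (Finset.mem_filter.mp hb).2
        (Finset.mem_range.mp (Finset.mem_filter.mp hb).1)
      omega
  have hη := h0.η0
  calc ∑ b ∈ range R₁, (if b = b₀ then (1 : ℝ) else if b < b₀ then
        Bd / η * q ^ (m b₀ - m b - g₀) else C1 * (ε * q ^ (m b - m b₀ - g₀)))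
      ≤ ∑ b ∈ range R₁, ((if b = b₀ then (1 : ℝ) else 0) +
        (if b < b₀ then Bd / η * q ^ (m b₀ - m b - g₀) else 0) +
        (if b₀ < b then C1 * ε * q ^ (m b - m b₀ - g₀) else 0)) := by
        refine Finset.sum_le_sum fun b _ => ?_
        rcases lt_trichotomy b b₀ with h1 | h1 | h1
        · rw [if_neg (by omega), if_pos h1, if_neg (by omega), if_pos h1, if_neg (by omega)]
          linarith
        · rw [if_pos h1, if_pos h1, if_neg (by omega), if_neg (by omega)]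
          linarith
        · rw [if_neg (by omega), if_neg (by omega), if_neg (by omega), if_neg (by omega),
            if_pos h1]
          linarith
    _ = (∑ b ∈ range R₁, if b = b₀ then (1 : ℝ) else 0) +
        Bd / η * ∑ b ∈ (range R₁).filter (fun b => b < b₀), q ^ (m b₀ - m b - g₀) +
        C1 * ε * ∑ b ∈ (range R₁).filter (fun b => b₀ < b), q ^ (m b - m b₀ - g₀) := by
        rw [Finset.sum_add_distrib, Finset.sum_add_distrib, Finset.sum_filter, Finset.sum_filter,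
          Finset.mul_sum, Finset.mul_sum]
        refine congrArg₂ (· + ·) (congrArg₂ (· + ·) rfl ?_) ?_
        · refine Finset.sum_congr rfl fun b _ => ?_
          split_ifs
          · rfl
          · rw [mul_zero]
        · refine Finset.sum_congr rfl fun b _ => ?_
          split_ifs
          · rfl
          · rw [mul_zero]
    _ ≤ 1 + Bd / η * (q ^ g / (1 - q)) + C1 * ε * (q ^ g / (1 - q)) := by
        refine add_le_add (add_le_add ?_ ?_) ?_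
        · rw [Finset.sum_ite_eq']
          split_ifs
          · exact le_rfl
          · exact zero_le_one
        · exact mul_le_mul_of_nonneg_left hG1 (div_nonneg hBd hη.le)
        · exact mul_le_mul_of_nonneg_left hG2 (mul_nonneg hC10 hε)
    _ = 1 + (Bd / η + C1 * ε) * (q ^ g / (1 - q)) := by ring

end roots

end Pool.Agent.Lib.GSLE
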