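import Pool.Agent.Lib.GSLE.Fan

/-!
# The hypotheses (e1) and (e3) of the service lemma: one scale and increasing fans

`omg ρ T` is the law of a random label of the group `T` (weights `ρ`), `omf ρ T R₁` is the average
of these laws over the groups `T 0, ..., T (R₁ - 1)`.  `cl G x b` is one if `x = b` or `x ~ b`.
-/

set_option autoImplicit false

open Finset Classical

namespace Pool.Agent.Lib.GSLE

variable {V Λ : Type*} [Fintype V] [Fintype Λ]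

/-- Closed adjacency. -/
noncomputable def cl {V : Type*} (G : SimpleGraph V) (x b : V) : ℝ :=
  if x = b ∨ G.Adj x b then 1 else 0

theorem cl_nonneg {V : Type*} (G : SimpleGraph V) (x b : V) : 0 ≤ cl G x b := by
  unfold cl
  split_ifs
  · exact zero_le_one
  · exact le_rfl

theorem cl_le_one {V : Type*} (G : SimpleGraph V) (x b : V) : cl G x b ≤ 1 := by
  unfold cl
  split_ifs
  · exact le_rfl
  · exact zero_le_one

/-- The law of a random label of the group `T`. -/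
noncomputable def omg {Λ : Type*} (ρ : Λ → ℝ) (T : Finset Λ) (l : Λ) : ℝ :=
  if l ∈ T then ρ l / ∑ l ∈ T, ρ l else 0

theorem omg_nonneg {ρ : Λ → ℝ} {T : Finset Λ} (hρ : ∀ l ∈ T, 0 ≤ ρ l) (l : Λ) :
    0 ≤ omg ρ T l := by
  unfold omg
  split_ifs with h
  · exact div_nonneg (hρ l h) (Finset.sum_nonneg fun l hl => hρ l hl)
  · exact le_rfl

/-- Sums against `omg`. -/
theorem omg_sum (ρ : Λ → ℝ) (T : Finset Λ) (f : Λ → ℝ) :
    ∑ l, omg ρ T l * f l = (∑ l ∈ T, ρ l * f l) / ∑ l ∈ T, ρ l := by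
  unfold omg
  rw [Finset.sum_div]
  have h1 : ∀ l, (if l ∈ T then ρ l / ∑ l ∈ T, ρ l else 0) * f l =
      if l ∈ T then ρ l * f l / ∑ l ∈ T, ρ l else 0 := by
    intro l
    split_ifs
    · ring
    · rw [zero_mul]
  rw [Finset.sum_congr rfl fun l _ => h1 l, Finset.sum_ite_mem, Finset.univ_inter]

theorem omg_one {ρ : Λ → ℝ} {T : Finset Λ} (hT : 0 < ∑ l ∈ T, ρ l) : ∑ l, omg ρ T l = 1 := by
  have h1 := omg_sum ρ T (fun _ => 1)
  simp only [mul_one] at h1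
  rw [h1, div_self hT.ne']

theorem omg_sh {ρ : Λ → ℝ} {T : Finset Λ} (adj : V → Λ → ℝ) (x : V) :
    ∑ l, omg ρ T l * adj x l = sh ρ adj T x := by
  rw [omg_sum]
  unfold sh
  refine congrArg₂ (· / ·) (Finset.sum_congr rfl fun l _ => mul_comm _ _) rfl

/-- The average law over the groups of a fan. -/
noncomputable def omf {Λ : Type*} (ρ : Λ → ℝ) (T : ℕ → Finset Λ) (R₁ : ℕ) (l : Λ) : ℝ :=
  (∑ b ∈ range R₁, omg ρ (T b) l) / R₁

theorem omf_nonneg {ρ : Λ → ℝ} {T : ℕ → Finset Λ} {R₁ : ℕ} (hρ : ∀ l, 0 ≤ ρ l) (l : Λ) :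
    0 ≤ omf ρ T R₁ l :=
  div_nonneg (Finset.sum_nonneg fun _ _ => omg_nonneg (fun l _ => hρ l) l) (Nat.cast_nonneg _)

theorem omf_sum (ρ : Λ → ℝ) (T : ℕ → Finset Λ) (R₁ : ℕ) (f : Λ → ℝ) :
    ∑ l, omf ρ T R₁ l * f l = (∑ b ∈ range R₁, ∑ l, omg ρ (T b) l * f l) / R₁ := by
  unfold omf
  rw [Finset.sum_comm, Finset.sum_div]
  refine Finset.sum_congr rfl fun l _ => ?_
  rw [← Finset.sum_mul]
  ring

theorem omf_one {ρ : Λ → ℝ} {T : ℕ → Finset Λ} {R₁ : ℕ} (hR : 0 < R₁)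
    (hT : ∀ b < R₁, 0 < ∑ l ∈ T b, ρ l) : ∑ l, omf ρ T R₁ l = 1 := by
  have h1 := omf_sum ρ T R₁ (fun _ => 1)
  simp only [mul_one] at h1
  rw [h1, Finset.sum_congr rfl fun b hb => omg_one (hT b (Finset.mem_range.mp hb)),
    Finset.sum_const, Finset.card_range, nsmul_eq_mul, mul_one, div_self]
  exact_mod_cast hR.ne'

theorem omf_supp {ρ : Λ → ℝ} {T : ℕ → Finset Λ} {R₁ : ℕ} {l : Λ} (h : omf ρ T R₁ l ≠ 0) :
    ∃ b < R₁, l ∈ T b := by
  by_contra hcon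
  push Not at hcon
  refine h ?_
  unfold omf omg
  rw [Finset.sum_eq_zero, zero_div]
  intro b hb
  rw [if_neg (hcon b (Finset.mem_range.mp hb))]

theorem omg_supp {ρ : Λ → ℝ} {T : Finset Λ} {l : Λ} (h : omg ρ T l ≠ 0) : l ∈ T := by
  by_contra hcon
  refine h ?_
  unfold omg
  rw [if_neg hcon]

variable {G : SimpleGraph V} {n a A' : V → ℝ} {k : V → ℕ} {c : V → Λ → ℝ} {ρ : Λ → ℝ}
  {p : Λ → V → ℝ} {g₀ : ℕ} {H θ η B : ℝ} {y : Λ → V}

/-- The constant. -/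
noncomputable def Cf (g₀ : ℕ) (H θ η B : ℝ) : ℝ := 2 * 2 ^ g₀ * H * B * (2 * g₀ + 1) / (θ * η)

/-- (e1) for one group. -/
theorem Own.e1 {m : ℕ} {T : Finset Λ} (h : Own n a A' k c ρ p g₀ H θ η B m T) (b : V) {ξ : ℝ}
    (hξ : 0 ≤ ξ) (hb : ∀ j, ∑ x with k x = j, n x / a x * cl G x b ≤ ξ) :
    ∑ l, omg ρ T l * ∑ x, p l x * cl G x b ≤ Cf g₀ H θ η B * ξ := by
  rw [omg_sum, div_le_iff₀ h.pos]
  exact h.thin (fun x => cl G x b) (fun x => cl_nonneg G x b) hξ fun j _ => hb j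

/-- (e3) for one group of weight at least `K (1/2)^m`. -/
theorem Own.e3 {m : ℕ} {T : Finset Λ} {K : ℝ} (h : Own n a A' k c ρ p g₀ H θ K B m T)
    {i : Λ → ℕ} (hi : ∀ l ∈ T, i l = m) (hρ : ∀ l, 0 ≤ ρ l) {q Bd : ℝ} (hq0 : 0 < q)
    (hq1 : q ≤ 1) (hBd : 0 ≤ Bd)
    (hnear : ∀ l ∈ T, ∀ x, p l x ≠ 0 →
      ∑ l', cl G x (y l') * ρ l' * q ^ ds (k x) (i l') ≤ Bd * (1 / 2 : ℝ) ^ k x) :
    ∑ l, omg ρ T l * ∑ x, p l x * ∑ l', omg ρ T l' * cl G x (y l') ≤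
      Bd * (2 ^ g₀ / q ^ g₀) / K := by
  have hK := h.η0
  have hr0 : 0 ≤ Bd * (2 ^ g₀ / q ^ g₀) / K := by positivity
  have h1 : ∀ l ∈ T, ∀ x, p l x ≠ 0 →
      ∑ l', omg ρ T l' * cl G x (y l') ≤ Bd * (2 ^ g₀ / q ^ g₀) / K := by
    intro l hl x hx
    have hkx : ds (k x) m ≤ g₀ := by
      refine h.win x l hl fun hc => hx ?_
      have h2 := h.pB l hl x
      rw [hc, mul_zero, mul_zero] at h2
      exact le_antisymm h2 (h.p0 l hl x)
    rw [omg_sh (fun x l => cl G x (y l)) x]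
    exact sh_scale (fun l => cl_nonneg G x (y l)) hρ hq0 hq1 hK (hnear l hl x hx) hi hkx h.mass
  calc ∑ l, omg ρ T l * ∑ x, p l x * ∑ l', omg ρ T l' * cl G x (y l')
      ≤ ∑ l, omg ρ T l * (Bd * (2 ^ g₀ / q ^ g₀) / K) := by
        refine Finset.sum_le_sum fun l _ => ?_
        by_cases hl : omg ρ T l = 0
        · rw [hl, zero_mul, zero_mul]
        · have hlT := omg_supp hl
          refine mul_le_mul_of_nonneg_left ?_ (omg_nonneg (fun l _ => hρ l) l)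
          calc ∑ x, p l x * ∑ l', omg ρ T l' * cl G x (y l')
              ≤ ∑ x, p l x * (Bd * (2 ^ g₀ / q ^ g₀) / K) := by
                refine Finset.sum_le_sum fun x _ => ?_
                by_cases hx : p l x = 0
                · rw [hx, zero_mul, zero_mul]
                · exact mul_le_mul_of_nonneg_left (h1 l hlT x hx) (h.p0 l hlT x)
            _ = (∑ x, p l x) * (Bd * (2 ^ g₀ / q ^ g₀) / K) := by rw [Finset.sum_mul]
            _ ≤ 1 * (Bd * (2 ^ g₀ / q ^ g₀) / K) :=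
                mul_le_mul_of_nonneg_right (h.p1 l hlT) hr0
            _ = Bd * (2 ^ g₀ / q ^ g₀) / K := one_mul _
    _ = (∑ l, omg ρ T l) * (Bd * (2 ^ g₀ / q ^ g₀) / K) := by rw [Finset.sum_mul]
    _ = Bd * (2 ^ g₀ / q ^ g₀) / K := by rw [omg_one h.pos, one_mul]

/-- (e1) for a fan. -/
theorem fan_e1 {R₁ : ℕ} (hR : 0 < R₁) (m : ℕ → ℕ) (T : ℕ → Finset Λ)
    (hO : ∀ b < R₁, Own n a A' k c ρ p g₀ H θ η B (m b) (T b)) (b : V) {ξ : ℝ}
    (hξ : 0 ≤ ξ) (hb : ∀ j, ∑ x with k x = j, n x / a x * cl G x b ≤ ξ) :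
    ∑ l, omf ρ T R₁ l * ∑ x, p l x * cl G x b ≤ Cf g₀ H θ η B * ξ := by
  have hR0 : (0 : ℝ) < R₁ := by exact_mod_cast hR
  rw [omf_sum, div_le_iff₀ hR0]
  calc ∑ b' ∈ range R₁, ∑ l, omg ρ (T b') l * ∑ x, p l x * cl G x b
      ≤ ∑ _b' ∈ range R₁, Cf g₀ H θ η B * ξ :=
        Finset.sum_le_sum fun b' hb' => (hO b' (Finset.mem_range.mp hb')).e1 b hξ hb
    _ = Cf g₀ H θ η B * ξ * R₁ := by
        rw [Finset.sum_const, Finset.card_range, nsmul_eq_mul, mul_comm]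

/-- (e3) for a fan. -/
theorem fan_e3 {R₁ : ℕ} (hR : 0 < R₁) (m : ℕ → ℕ) (T : ℕ → Finset Λ) {g : ℕ} (hg1 : 1 ≤ g)
    (hgap : ∀ a b, a < b → b < R₁ → m a + g₀ + g ≤ m b)
    (hO : ∀ b < R₁, Own n a A' k c ρ p g₀ H θ η B (m b) (T b)) {i : Λ → ℕ}
    (hi : ∀ b < R₁, ∀ l ∈ T b, i l = m b) (hρ : ∀ l, 0 ≤ ρ l) {f : Λ → V → ℝ}
    (hf0 : ∀ l x, 0 ≤ f l x) {q Bd ε : ℝ} (hq0 : 0 < q) (hq1 : q < 1) (hq : q * q = 1 / 2)
    (hε : 0 ≤ ε) (hBd : 0 ≤ Bd)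
    (hnear : ∀ b < R₁, ∀ l ∈ T b, ∀ x, p l x ≠ 0 →
      ∑ l', cl G x (y l') * ρ l' * q ^ ds (k x) (i l') ≤ Bd * (1 / 2 : ℝ) ^ k x)
    (hF : ∀ b₀ b, b₀ < b → b < R₁ → ∀ l ∈ T b₀, ∀ x, p l x ≠ 0 → ∀ l' ∈ T b,
      cl G x (y l') ≤ f l' x)
    (hth : ∀ b₀ b, b₀ < b → b < R₁ → ∀ l' ∈ T b, ∀ j, ds j (m b₀) ≤ g₀ →
      DF n a k f j l' ≤ ε * q ^ (m b - j)) :
    ∑ l, omf ρ T R₁ l * ∑ x, p l x * ∑ l', omf ρ T R₁ l' * cl G x (y l') ≤
      (1 + (Bd / η + Cf g₀ H θ η B * ε) * (q ^ g / (1 - q))) / R₁ := by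
  have hR0 : (0 : ℝ) < R₁ := by exact_mod_cast hR
  set E : ℝ := 1 + (Bd / η + Cf g₀ H θ η B * ε) * (q ^ g / (1 - q)) with hE
  rw [omf_sum]
  refine div_le_div_of_nonneg_right ?_ hR0.le
  calc ∑ b₀ ∈ range R₁, ∑ l, omg ρ (T b₀) l * ∑ x, p l x * ∑ l', omf ρ T R₁ l' * cl G x (y l')
      ≤ ∑ _b₀ ∈ range R₁, E / R₁ := by
        refine Finset.sum_le_sum fun b₀ hb₀ => ?_
        have hb := Finset.mem_range.mp hb₀
        have h1 := fan_share m T hg1 hgap hO hi (fun x l => cl_nonneg G x (y l))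
          (fun x l => cl_le_one G x (y l)) hρ hf0 hq0 hq1 hq hε hBd hb (hnear b₀ hb)
          (fun b h2 h3 => hF b₀ b h2 h3) (fun b h2 h3 => hth b₀ b h2 h3)
        have e1 : ∀ x, ∑ l', omf ρ T R₁ l' * cl G x (y l') =
            (∑ b ∈ range R₁, sh ρ (fun x l => cl G x (y l)) (T b) x) / R₁ := by
          intro x
          rw [omf_sum]
          refine congrArg₂ (· / ·) (Finset.sum_congr rfl fun b _ => ?_) rfl
          exact omg_sh (fun x l => cl G x (y l)) x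
        have e2 : ∑ l, omg ρ (T b₀) l * ∑ x, p l x * ∑ l', omf ρ T R₁ l' * cl G x (y l') =
            (∑ l ∈ T b₀, ρ l * ∑ x, p l x *
              ∑ b ∈ range R₁, sh ρ (fun x l => cl G x (y l)) (T b) x) /
                (∑ l ∈ T b₀, ρ l) / R₁ := by
          rw [omg_sum, Finset.sum_div, Finset.sum_div, Finset.sum_div]
          refine Finset.sum_congr rfl fun l _ => ?_
          have e3 : ∑ x, p l x * ∑ l', omf ρ T R₁ l' * cl G x (y l') =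
              (∑ x, p l x * ∑ b ∈ range R₁, sh ρ (fun x l => cl G x (y l)) (T b) x) / R₁ := by
            rw [Finset.sum_div]
            refine Finset.sum_congr rfl fun x _ => ?_
            rw [e1 x]
            ring
          rw [e3]
          ring
        rw [e2]
        refine div_le_div_of_nonneg_right ?_ hR0.le
        rw [div_le_iff₀ (hO b₀ hb).pos]
        exact h1
    _ = E := by
        rw [Finset.sum_const, Finset.card_range, nsmul_eq_mul]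
        field_simp

end Pool.Agent.Lib.GSLE
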