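import Pool.Agent.Lib.GSLE.Scale

/-!
# The localised equilibrium: first order estimates

`X` is the set of nodes, `Λ` the set of labels (hub, scale), `b l` the scale of the label `l`,
`c x l ≥ 0` the incidence, `π` the hub law, `e x > 0` the part of the scale which does not come
from the hubs, `n` the node law.  The scale of `x` is the root of
`alp x = e x + ∑ l, c x l * π l * kp (alp x / b l)`.
-/

set_option autoImplicit false

open Finset Topology

namespace Pool.Agent.Lib.GSLE

/-- The kernel is supermultiplicative. -/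
theorem kp_mul {u v : ℝ} (hu : 0 < u) (hv : 0 < v) : kp u * kp v ≤ kp (u * v) := by
  have huv : 0 < u * v := mul_pos hu hv
  rcases le_total (u * v) 1 with h | h
  · rw [kp_of_le h, Real.sqrt_mul hu.le]
    rcases le_total u 1 with h1 | h1
    · rcases le_total v 1 with h2 | h2
      · rw [kp_of_le h1, kp_of_le h2]
      · rw [kp_of_le h1]
        refine mul_le_mul_of_nonneg_left ((kp_le_one v).trans ?_) (Real.sqrt_nonneg _)
        exact Real.one_le_sqrt.mpr h2
    · have h2 : v ≤ 1 := by nlinarith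
      rw [kp_of_le h2]
      refine mul_le_mul_of_nonneg_right ((kp_le_one u).trans ?_) (Real.sqrt_nonneg _)
      exact Real.one_le_sqrt.mpr h1
  · rw [kp_of_ge h, Real.sqrt_mul hu.le]
    have hsu : 0 < √u := Real.sqrt_pos.mpr hu
    have hsv : 0 < √v := Real.sqrt_pos.mpr hv
    rcases le_total 1 u with h1 | h1
    · rcases le_total 1 v with h2 | h2
      · rw [kp_of_ge h1, kp_of_ge h2, one_div_mul_one_div]
      · rw [kp_of_ge h1, kp_of_le h2, le_div_iff₀ (mul_pos hsu hsv)]
        have h3 : √v * √v = v := Real.mul_self_sqrt hv.le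
        have : 1 / √u * √v * (√u * √v) = √v * √v := by field_simp
        rw [this, h3]
        exact h2
    · have h2 : 1 ≤ v := by nlinarith
      rw [kp_of_le h1, kp_of_ge h2, le_div_iff₀ (mul_pos hsu hsv)]
      have h3 : √u * √u = u := Real.mul_self_sqrt hu.le
      have : √u * (1 / √v) * (√u * √v) = √u * √u := by field_simp
      rw [this, h3]
      exact h1

variable {X Λ : Type*} [Fintype X] [Fintype Λ]

/-- The scale of the vertex `x`. -/
noncomputable def alp (e : X → ℝ) (c : X → Λ → ℝ) (π b : Λ → ℝ) (x : X) : ℝ :=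
  sc (e x) (fun l => c x l * π l) b

/-- The payoff of the label `l`. -/
noncomputable def DD (n e : X → ℝ) (c : X → Λ → ℝ) (π b : Λ → ℝ) (l : Λ) : ℝ :=
  ∑ x, n x / alp e c π b x * (c x l * kp (alp e c π b x / b l))

theorem alp_pos (e : X → ℝ) (c : X → Λ → ℝ) (π b : Λ → ℝ) (x : X) : 0 < alp e c π b x :=
  sc_pos _ _ _

section est

variable {n e : X → ℝ} {c : X → Λ → ℝ} {π b : Λ → ℝ}

theorem alp_eq (he : ∀ x, 0 < e x) (hc : ∀ x l, 0 ≤ c x l) (hπ : ∀ l, 0 ≤ π l) (x : X) :
    e x + ∑ l, c x l * π l * kp (alp e c π b x / b l) = alp e c π b x :=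
  sc_eq (he x) fun l => mul_nonneg (hc x l) (hπ l)

theorem DD_nonneg (hn : ∀ x, 0 ≤ n x) (hc : ∀ x l, 0 ≤ c x l) (l : Λ) :
    0 ≤ DD n e c π b l := by
  unfold DD
  refine Finset.sum_nonneg fun x _ => ?_
  exact mul_nonneg (div_nonneg (hn x) (alp_pos _ _ _ _ _).le) (mul_nonneg (hc x l) (kp_nonneg _))

/-- The total payoff. -/
theorem total (he : ∀ x, 0 < e x) (hc : ∀ x l, 0 ≤ c x l) (hπ : ∀ l, 0 ≤ π l) :
    ∑ l, π l * DD n e c π b l = ∑ x, n x * (1 - e x / alp e c π b x) := by
  unfold DD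
  simp_rw [Finset.mul_sum]
  rw [Finset.sum_comm]
  refine Finset.sum_congr rfl fun x _ => ?_
  have h0 := alp_pos e c π b x
  have h1 := alp_eq (b := b) he hc hπ x
  have h2 : ∑ l, π l * (n x / alp e c π b x * (c x l * kp (alp e c π b x / b l))) =
      n x / alp e c π b x * ∑ l, c x l * π l * kp (alp e c π b x / b l) := by
    rw [Finset.mul_sum]
    exact Finset.sum_congr rfl fun l _ => by ring
  have h3 : ∑ l, c x l * π l * kp (alp e c π b x / b l) = alp e c π b x - e x := by linarith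
  rw [h2, h3]
  field_simp

theorem total_le (hn : ∀ x, 0 ≤ n x) (he : ∀ x, 0 < e x) (hc : ∀ x l, 0 ≤ c x l)
    (hπ : ∀ l, 0 ≤ π l) : ∑ l, π l * DD n e c π b l ≤ ∑ x, n x := by
  rw [total he hc hπ]
  refine Finset.sum_le_sum fun x _ => ?_
  have h1 : 0 ≤ e x / alp e c π b x := div_nonneg (he x).le (alp_pos _ _ _ _ _).le
  nlinarith [hn x]

/-- (L1): the nodes whose scale is close to the scale of the label. -/
theorem level_le (hn : ∀ x, 0 ≤ n x) (hc : ∀ x l, 0 ≤ c x l) (hb : ∀ l, 0 < b l) (l : Λ)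
    {Q : ℝ} (hQ : 1 ≤ Q) (T : Finset X)
    (hT : ∀ x ∈ T, b l ≤ Q * alp e c π b x ∧ alp e c π b x ≤ Q * b l) :
    ∑ x ∈ T, n x / alp e c π b x * c x l ≤ √Q * DD n e c π b l := by
  have hQ0 : 0 < Q := by linarith
  have hsQ : 0 < √Q := Real.sqrt_pos.mpr hQ0
  unfold DD
  rw [Finset.mul_sum]
  refine (Finset.sum_le_sum fun x hx => ?_).trans
    (Finset.sum_le_sum_of_subset_of_nonneg (Finset.subset_univ T) fun x _ _ => ?_)
  · have ha := alp_pos e c π b x
    obtain ⟨h1, h2⟩ := hT x hx
    have hu : 0 < alp e c π b x / b l := div_pos ha (hb l)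
    have h3 : 1 ≤ √Q * kp (alp e c π b x / b l) := by
      rcases le_total (alp e c π b x / b l) 1 with h | h
      · rw [kp_of_le h, ← Real.sqrt_mul hQ0.le]
        refine Real.one_le_sqrt.mpr ?_
        rw [← mul_div_assoc, one_le_div (hb l)]
        exact h1
      · rw [kp_of_ge h, mul_one_div, one_le_div (Real.sqrt_pos.mpr hu)]
        refine Real.sqrt_le_sqrt ?_
        rw [div_le_iff₀ (hb l)]
        exact h2
    have h4 : 0 ≤ n x / alp e c π b x * c x l :=
      mul_nonneg (div_nonneg (hn x) ha.le) (hc x l)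
    calc n x / alp e c π b x * c x l = n x / alp e c π b x * c x l * 1 := (mul_one _).symm
      _ ≤ n x / alp e c π b x * c x l * (√Q * kp (alp e c π b x / b l)) :=
          mul_le_mul_of_nonneg_left h3 h4
      _ = √Q * (n x / alp e c π b x * (c x l * kp (alp e c π b x / b l))) := by ring
  · refine mul_nonneg hsQ.le (mul_nonneg (div_nonneg (hn x) (alp_pos _ _ _ _ _).le) ?_)
    exact mul_nonneg (hc x l) (kp_nonneg _)

/-- (L3), labels of scale at least `Γ * alp x`. -/
theorem high_le (he : ∀ x, 0 < e x) (hc : ∀ x l, 0 ≤ c x l) (hπ : ∀ l, 0 ≤ π l)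
    (hb : ∀ l, 0 < b l) {Γ : ℝ} (hΓ : 1 ≤ Γ) (x : X) (S : Finset Λ)
    (hS : ∀ l ∈ S, Γ * alp e c π b x ≤ b l) : ∑ l ∈ S, c x l * π l / b l ≤ 1 / √Γ :=
  mass_high (he x) (fun l => mul_nonneg (hc x l) (hπ l)) hb hΓ S hS

/-- (L3), labels of scale at least `alp x / Υ`. -/
theorem near_le (he : ∀ x, 0 < e x) (hc : ∀ x l, 0 ≤ c x l) (hπ : ∀ l, 0 ≤ π l)
    (hb : ∀ l, 0 < b l) {Υ : ℝ} (hΥ : 1 ≤ Υ) (x : X) (S : Finset Λ)
    (hS : ∀ l ∈ S, alp e c π b x ≤ Υ * b l) : ∑ l ∈ S, c x l * π l / b l ≤ Υ * √Υ :=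
  mass_near (he x) (fun l => mul_nonneg (hc x l) (hπ l)) hb hΥ S hS

end est

section tail

/-- The level of a positive number below `2`. -/
theorem exists_level {a : ℝ} (h0 : 0 < a) (h2 : a < 2) :
    ∃ k : ℕ, (1 / 2 : ℝ) ^ k ≤ a ∧ a < 2 * (1 / 2 : ℝ) ^ k := by
  classical
  have h : ∃ k : ℕ, (1 / 2 : ℝ) ^ k ≤ a := by
    obtain ⟨k, hk⟩ := exists_pow_lt_of_lt_one h0 (by norm_num : (1 / 2 : ℝ) < 1)
    exact ⟨k, hk.le⟩
  refine ⟨Nat.find h, Nat.find_spec h, ?_⟩
  rcases Nat.eq_zero_or_pos (Nat.find h) with h3 | h3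
  · rw [h3]
    norm_num
    exact h2
  · obtain ⟨m, hm⟩ := Nat.exists_eq_succ_of_ne_zero h3.ne'
    have h4 := Nat.find_min h (show m < Nat.find h by omega)
    push Not at h4
    rw [hm, Nat.succ_eq_add_one, pow_succ]
    linarith

/-- The kernel at distance `d` of the levels. -/
theorem kp_far {a : ℝ} {k i : ℕ} (h1 : (1 / 2 : ℝ) ^ k ≤ a) (h2 : a < 2 * (1 / 2 : ℝ) ^ k) :
    kp (a / (1 / 2 : ℝ) ^ i) ≤ √2 * (1 / √2) ^ (k - i + (i - k)) := by
  have hs2 : 0 < √2 := Real.sqrt_pos.mpr two_pos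
  have hpi : (0 : ℝ) < (1 / 2 : ℝ) ^ i := by positivity
  have hsq : ∀ m : ℕ, √((1 / 2 : ℝ) ^ m) = (1 / √2) ^ m := by
    intro m
    rw [Real.sqrt_eq_iff_mul_self_eq (by positivity) (by positivity), ← mul_pow]
    congr 1
    rw [one_div_mul_one_div, Real.mul_self_sqrt zero_le_two]
  rcases le_total i k with h | h
  · obtain ⟨m, rfl⟩ := Nat.exists_eq_add_of_le h
    have h3 : i + m - i + (i - (i + m)) = m := by omega
    rw [h3]
    have h4 : a / (1 / 2 : ℝ) ^ i ≤ 2 * (1 / 2 : ℝ) ^ m := by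
      rw [div_le_iff₀ hpi]
      rw [pow_add] at h2
      nlinarith
    have ha : 0 < a := lt_of_lt_of_le (by positivity) h1
    have h5 : kp (a / (1 / 2 : ℝ) ^ i) ≤ √(a / (1 / 2 : ℝ) ^ i) := by
      rcases le_total (a / (1 / 2 : ℝ) ^ i) 1 with h6 | h6
      · rw [kp_of_le h6]
      · exact (kp_le_one _).trans (Real.one_le_sqrt.mpr h6)
    refine h5.trans ((Real.sqrt_le_sqrt h4).trans ?_)
    rw [Real.sqrt_mul zero_le_two, hsq]
  · obtain ⟨m, rfl⟩ := Nat.exists_eq_add_of_le h
    have h3 : k - (k + m) + (k + m - k) = m := by omega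
    rw [h3]
    have hpk : (0 : ℝ) < (1 / 2 : ℝ) ^ k := by positivity
    have hpm : (0 : ℝ) < (1 / 2 : ℝ) ^ m := by positivity
    have h4 : ((1 / 2 : ℝ) ^ m)⁻¹ ≤ a / (1 / 2 : ℝ) ^ (k + m) := by
      rw [pow_add, le_div_iff₀ (by positivity)]
      calc ((1 / 2 : ℝ) ^ m)⁻¹ * ((1 / 2 : ℝ) ^ k * (1 / 2 : ℝ) ^ m) = (1 / 2 : ℝ) ^ k := by
            field_simp
        _ ≤ a := h1
    have h5 : (1 : ℝ) ≤ ((1 / 2 : ℝ) ^ m)⁻¹ :=
      (one_le_inv₀ hpm).mpr (pow_le_one₀ (by norm_num) (by norm_num))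
    rw [kp_of_ge (h5.trans h4)]
    have h6 : √(((1 / 2 : ℝ) ^ m)⁻¹) ≤ √(a / (1 / 2 : ℝ) ^ (k + m)) := Real.sqrt_le_sqrt h4
    rw [Real.sqrt_inv, hsq] at h6
    have h7 : 0 < ((1 / √2) ^ m)⁻¹ := by positivity
    calc 1 / √(a / (1 / 2 : ℝ) ^ (k + m)) ≤ 1 / ((1 / √2) ^ m)⁻¹ :=
          one_div_le_one_div_of_le h7 h6
      _ = (1 / √2) ^ m := by rw [one_div, inv_inv]
      _ ≤ √2 * (1 / √2) ^ m := by
          have h8 : 1 ≤ √2 := Real.one_le_sqrt.mpr one_le_two
          have h9 : 0 ≤ (1 / √2) ^ m := by positivity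
          nlinarith

variable {n e : X → ℝ} {c : X → Λ → ℝ} {π b : Λ → ℝ}

/-- (L2): if all labels `l i`, `i ≤ K`, of one hub have payoff at most `Δ`, then the nodes whose
level is at distance more than `g` from `i` contribute little to the payoff of `l i`. -/
theorem tail_le (hn : ∀ x, 0 ≤ n x) (hc : ∀ x l, 0 ≤ c x l) (hb : ∀ l, 0 < b l)
    {K : ℕ} (l : ℕ → Λ) (c' : X → ℝ) (hl : ∀ i ≤ K, ∀ x, c x (l i) = c' x)
    (hbl : ∀ i ≤ K, b (l i) = (1 / 2 : ℝ) ^ i) {Δ : ℝ} (hΔ : ∀ i ≤ K, DD n e c π b (l i) ≤ Δ)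
    (k : X → ℕ) (hk : ∀ x, (1 / 2 : ℝ) ^ (k x) ≤ alp e c π b x ∧
      alp e c π b x < 2 * (1 / 2 : ℝ) ^ (k x)) (hkK : ∀ x, k x ≤ K) {i : ℕ} (hi : i ≤ K) (g : ℕ) :
    ∑ x with g < k x - i + (i - k x), n x / alp e c π b x * (c x (l i) *
      kp (alp e c π b x / b (l i))) ≤ 14 * Δ * (1 / √2) ^ g := by
  classical
  have hs2 : 0 < √2 := Real.sqrt_pos.mpr two_pos
  have hΔ0 : 0 ≤ Δ := (DD_nonneg hn hc (l i)).trans (hΔ i hi)
  set q : ℝ := 1 / √2 with hq
  have hq0 : 0 < q := by positivity
  have hqq : q * q = 1 / 2 := by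
    rw [hq, one_div_mul_one_div, Real.mul_self_sqrt zero_le_two]
  have hq1 : q ≤ 71 / 100 := by nlinarith
  have hs2q : √2 * q = 1 := by
    rw [hq]
    field_simp
  have hs2u : √2 ≤ 142 / 100 := by
    rw [Real.sqrt_le_left (by norm_num)]
    norm_num
  -- one level
  have hlev : ∀ j, ∑ x with k x = j, n x / alp e c π b x * (c x (l i) *
      kp (alp e c π b x / b (l i))) ≤ √2 * Δ * (√2 * q ^ (j - i + (i - j))) := by
    intro j
    by_cases hj : j ≤ K
    · have h1 : ∑ x with k x = j, n x / alp e c π b x * c x (l j) ≤ √2 * Δ := by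
        refine (level_le hn hc hb (l j) one_le_two _ ?_).trans
          (mul_le_mul_of_nonneg_left (hΔ j hj) hs2.le)
        intro x hx
        rw [Finset.mem_filter] at hx
        obtain ⟨h1, h2⟩ := hk x
        rw [hbl j hj, ← hx.2]
        exact ⟨by linarith [alp_pos e c π b x], h2.le⟩
      calc ∑ x with k x = j, n x / alp e c π b x * (c x (l i) * kp (alp e c π b x / b (l i)))
          ≤ ∑ x with k x = j, n x / alp e c π b x * c x (l j) * (√2 * q ^ (j - i + (i - j))) := by
            refine Finset.sum_le_sum fun x hx => ?_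
            rw [Finset.mem_filter] at hx
            obtain ⟨h1, h2⟩ := hk x
            have h3 := kp_far (i := i) h1 h2
            rw [hx.2, ← hq] at h3
            rw [hl i hi, hl j hj, ← mul_assoc, hbl i hi]
            refine mul_le_mul_of_nonneg_left h3 (mul_nonneg (div_nonneg (hn x)
              (alp_pos _ _ _ _ _).le) ?_)
            rw [← hl i hi]
            exact hc x _
        _ = (∑ x with k x = j, n x / alp e c π b x * c x (l j)) * (√2 * q ^ (j - i + (i - j))) := by
            rw [Finset.sum_mul]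
        _ ≤ √2 * Δ * (√2 * q ^ (j - i + (i - j))) :=
            mul_le_mul_of_nonneg_right h1 (by positivity)
    · have h1 : (univ.filter fun x => k x = j) = ∅ := by
        rw [Finset.filter_eq_empty_iff]
        intro x _ hx
        exact hj (hx ▸ hkK x)
      rw [h1, Finset.sum_empty]
      positivity
  -- geometric series
  have hgeo : ∀ N : ℕ, ∑ m ∈ range N, q ^ m ≤ 7 / 2 := by
    intro N
    have h1 : (∑ m ∈ range N, q ^ m) * (1 - q) = 1 - q ^ N := geom_sum_mul_neg q N
    have h2 : 0 ≤ q ^ N := by positivity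
    have h3 : 0 ≤ ∑ m ∈ range N, q ^ m := Finset.sum_nonneg fun m _ => by positivity
    nlinarith
  have hsplit : ∑ x with g < k x - i + (i - k x), n x / alp e c π b x * (c x (l i) *
      kp (alp e c π b x / b (l i))) = ∑ j ∈ (range (K + 1)).filter (fun j => g < j - i + (i - j)),
      ∑ x with k x = j, n x / alp e c π b x * (c x (l i) * kp (alp e c π b x / b (l i))) := by
    rw [← Finset.sum_fiberwise_of_maps_to (s := univ.filter fun x => g < k x - i + (i - k x))
      (t := (range (K + 1)).filter (fun j => g < j - i + (i - j))) (g := k)]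
    · refine Finset.sum_congr rfl fun j hj => Finset.sum_congr ?_ fun _ _ => rfl
      rw [Finset.mem_filter] at hj
      ext x
      simp only [Finset.mem_filter, Finset.mem_univ, true_and]
      constructor
      · exact fun h => h.2
      · intro h
        refine ⟨?_, h⟩
        rw [h]
        exact hj.2
    · intro x hx
      rw [Finset.mem_filter] at hx ⊢
      exact ⟨Finset.mem_range.mpr (Nat.lt_succ_of_le (hkK x)), hx.2⟩
  rw [hsplit]
  have hsum : ∑ j ∈ (range (K + 1)).filter (fun j => g < j - i + (i - j)),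
      q ^ (j - i + (i - j)) ≤ 7 * q ^ (g + 1) := by
    have h1 : (range (K + 1)).filter (fun j => g < j - i + (i - j)) ⊆
        (range (K + 1)).filter (fun j => g < j - i) ∪ (range (K + 1)).filter (fun j => g < i - j) := by
      intro j hj
      rw [Finset.mem_filter] at hj
      rw [Finset.mem_union, Finset.mem_filter, Finset.mem_filter]
      rcases le_total i j with h | h
      · left
        exact ⟨hj.1, by omega⟩
      · right
        exact ⟨hj.1, by omega⟩
    have hpart : ∀ (S : Finset ℕ) (f : ℕ → ℕ), (∀ j ∈ S, g < f j) → Set.InjOn f S →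
        (∀ j ∈ S, j - i + (i - j) = f j) →
        ∑ j ∈ S, q ^ (j - i + (i - j)) ≤ 7 / 2 * q ^ (g + 1) := by
      intro S f hS hf hfe
      have h2 : ∑ j ∈ S, q ^ (j - i + (i - j)) = ∑ j ∈ S, q ^ (f j) :=
        Finset.sum_congr rfl fun j hj => by rw [hfe j hj]
      have h3 : ∑ j ∈ S, q ^ (f j) = ∑ m ∈ S.image f, q ^ m := by
        rw [Finset.sum_image hf]
      obtain ⟨N, hN⟩ := (S.image f).exists_nat_subset_range
      have h4 : S.image f ⊆ (range N).image (fun m => m + (g + 1)) := by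
        intro m hm
        have hmN := Finset.mem_range.mp (hN hm)
        obtain ⟨j, hj, rfl⟩ := Finset.mem_image.mp hm
        have := hS j hj
        exact Finset.mem_image.mpr ⟨f j - (g + 1), Finset.mem_range.mpr (by omega), by omega⟩
      rw [h2, h3]
      refine (Finset.sum_le_sum_of_subset_of_nonneg h4 fun m _ _ => by positivity).trans ?_
      rw [Finset.sum_image (fun a _ b _ h => by simpa using h)]
      simp_rw [pow_add q _ (g + 1)]
      rw [← Finset.sum_mul]
      exact mul_le_mul_of_nonneg_right (hgeo N) (by positivity)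
    refine (Finset.sum_le_sum_of_subset_of_nonneg h1 fun m _ _ => by positivity).trans ?_
    have h7 := Finset.sum_union_inter (s₁ := (range (K + 1)).filter (fun j => g < j - i))
      (s₂ := (range (K + 1)).filter (fun j => g < i - j)) (f := fun j => q ^ (j - i + (i - j)))
    have h8 : 0 ≤ ∑ j ∈ (range (K + 1)).filter (fun j => g < j - i) ∩
        (range (K + 1)).filter (fun j => g < i - j), q ^ (j - i + (i - j)) :=
      Finset.sum_nonneg fun m _ => by positivity
    have h5 := hpart ((range (K + 1)).filter (fun j => g < j - i)) (fun j => j - i)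
      (fun j hj => (Finset.mem_filter.mp hj).2) (by
        intro a ha b hb h
        have h1 := (Finset.mem_filter.mp ha).2
        have h2 := (Finset.mem_filter.mp hb).2
        simp only at h
        omega) (by
        intro j hj
        have h1 := (Finset.mem_filter.mp hj).2
        omega)
    have h6 := hpart ((range (K + 1)).filter (fun j => g < i - j)) (fun j => i - j)
      (fun j hj => (Finset.mem_filter.mp hj).2) (by
        intro a ha b hb h
        have h1 := (Finset.mem_filter.mp ha).2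
        have h2 := (Finset.mem_filter.mp hb).2
        simp only at h
        omega) (by
        intro j hj
        have h1 := (Finset.mem_filter.mp hj).2
        omega)
    linarith
  calc ∑ j ∈ (range (K + 1)).filter (fun j => g < j - i + (i - j)), ∑ x with k x = j,
        n x / alp e c π b x * (c x (l i) * kp (alp e c π b x / b (l i)))
      ≤ ∑ j ∈ (range (K + 1)).filter (fun j => g < j - i + (i - j)),
        √2 * Δ * (√2 * q ^ (j - i + (i - j))) := Finset.sum_le_sum fun j _ => hlev j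
    _ = √2 * Δ * √2 * ∑ j ∈ (range (K + 1)).filter (fun j => g < j - i + (i - j)),
        q ^ (j - i + (i - j)) := by
        rw [Finset.mul_sum]
        exact Finset.sum_congr rfl fun j _ => by ring
    _ ≤ √2 * Δ * √2 * (7 * q ^ (g + 1)) := mul_le_mul_of_nonneg_left hsum (by positivity)
    _ = 7 * √2 * Δ * (√2 * q) * q ^ g := by
        rw [pow_succ]
        ring
    _ ≤ 14 * Δ * q ^ g := by
        rw [hs2q, mul_one]
        have h1 : 0 ≤ Δ * q ^ g := by positivity
        nlinarith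

/-- (L4): comparison with another hub law `π'` and scale `alp'`: if all payoffs are at most `Δ` and
`π'` has mass at most one, then the hub part of `alp'` cannot be much larger than `alp`. -/
theorem compare (hn : ∀ x, 0 ≤ n x) (hc : ∀ x l, 0 ≤ c x l) (hb : ∀ l, 0 < b l)
    {Δ : ℝ} {π' : Λ → ℝ} (hπ' : ∀ l, 0 ≤ π' l) (hΔ : ∀ l, π' l ≠ 0 → DD n e c π b l ≤ Δ)
    (a' : X → ℝ) (ha' : ∀ x, 0 < a' x) (T : Finset X) (hT : ∀ x ∈ T, alp e c π b x ≤ a' x) :
    ∑ x ∈ T, n x * ((∑ l, c x l * π' l * kp (a' x / b l)) / a' x) * √(a' x / alp e c π b x) ≤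
      (∑ l, π' l) * Δ := by
  have h1 : ∑ l, π' l * DD n e c π b l ≤ (∑ l, π' l) * Δ := by
    rw [Finset.sum_mul]
    refine Finset.sum_le_sum fun l _ => ?_
    by_cases h : π' l = 0
    · rw [h, zero_mul, zero_mul]
    · exact mul_le_mul_of_nonneg_left (hΔ l h) (hπ' l)
  refine le_trans ?_ h1
  have h2 : ∑ l, π' l * DD n e c π b l = ∑ x, n x / alp e c π b x *
      ∑ l, c x l * π' l * kp (alp e c π b x / b l) := by
    unfold DD
    simp_rw [Finset.mul_sum]
    rw [Finset.sum_comm]
    refine Finset.sum_congr rfl fun x _ => Finset.sum_congr rfl fun l _ => ?_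
    ring
  rw [h2]
  refine (Finset.sum_le_sum fun x hx => ?_).trans
    (Finset.sum_le_sum_of_subset_of_nonneg (Finset.subset_univ T) fun x _ _ => ?_)
  · have ha := alp_pos e c π b x
    have hax := ha' x
    have h3 := hT x hx
    have h4 : √(alp e c π b x / a' x) * ∑ l, c x l * π' l * kp (a' x / b l) ≤
        ∑ l, c x l * π' l * kp (alp e c π b x / b l) := by
      rw [Finset.mul_sum]
      refine Finset.sum_le_sum fun l _ => ?_
      have h5 := kp_mul (div_pos ha hax) (div_pos hax (hb l))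
      rw [div_mul_div_cancel₀ hax.ne', kp_of_le ((div_le_one hax).mpr h3)] at h5
      calc √(alp e c π b x / a' x) * (c x l * π' l * kp (a' x / b l))
          = c x l * π' l * (√(alp e c π b x / a' x) * kp (a' x / b l)) := by ring
        _ ≤ c x l * π' l * kp (alp e c π b x / b l) :=
            mul_le_mul_of_nonneg_left h5 (mul_nonneg (hc x l) (hπ' l))
    have h6 : √(a' x / alp e c π b x) / a' x = √(alp e c π b x / a' x) / alp e c π b x := by
      rw [Real.sqrt_div hax.le, Real.sqrt_div ha.le]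
      have h7 : √(a' x) * √(a' x) = a' x := Real.mul_self_sqrt hax.le
      have h8 : √(alp e c π b x) * √(alp e c π b x) = alp e c π b x := Real.mul_self_sqrt ha.le
      have h9 : 0 < √(a' x) := Real.sqrt_pos.mpr hax
      have h10 : 0 < √(alp e c π b x) := Real.sqrt_pos.mpr ha
      rw [div_div, div_div, div_eq_div_iff (by positivity) (by positivity)]
      calc √(a' x) * (√(a' x) * alp e c π b x) = (√(a' x) * √(a' x)) * alp e c π b x := by ring
        _ = a' x * alp e c π b x := by rw [h7]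
        _ = √(alp e c π b x) * (√(alp e c π b x) * a' x) := by
            rw [← mul_assoc, h8]
            ring
    calc n x * ((∑ l, c x l * π' l * kp (a' x / b l)) / a' x) * √(a' x / alp e c π b x)
        = n x * (∑ l, c x l * π' l * kp (a' x / b l)) * (√(a' x / alp e c π b x) / a' x) := by ring
      _ = n x / alp e c π b x *
          (√(alp e c π b x / a' x) * ∑ l, c x l * π' l * kp (a' x / b l)) := by
          rw [h6]
          ring
      _ ≤ n x / alp e c π b x * ∑ l, c x l * π' l * kp (alp e c π b x / b l) :=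
          mul_le_mul_of_nonneg_left h4 (div_nonneg (hn x) ha.le)
  · refine mul_nonneg (div_nonneg (hn x) (alp_pos _ _ _ _ _).le) (Finset.sum_nonneg fun l _ => ?_)
    exact mul_nonneg (mul_nonneg (hc x l) (hπ' l)) (kp_nonneg _)

end tail

/-- The scales are continuous functions of the parameters. -/
theorem alp_continuousOn {T : Type*} [TopologicalSpace T] {S : Set T} {e : T → X → ℝ}
    {c : X → Λ → ℝ} {π : T → Λ → ℝ} {b : Λ → ℝ} (hec : ∀ x, ContinuousOn (fun t => e t x) S)
    (hπc : ∀ l, ContinuousOn (fun t => π t l) S) (he : ∀ t ∈ S, ∀ x, 0 < e t x)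
    (hc : ∀ x l, 0 ≤ c x l) (hπ : ∀ t ∈ S, ∀ l, 0 ≤ π t l) (hb : ∀ l, 0 < b l) (x : X) :
    ContinuousOn (fun t => alp (e t) c (π t) b x) S :=
  sc_continuousOn (p := fun t l => c x l * π t l) (hec x)
    (fun l => continuousOn_const.mul (hπc l)) (fun t ht => he t ht x)
    (fun t ht l => mul_nonneg (hc x l) (hπ t ht l)) hb

/-- The payoffs are continuous functions of the parameters. -/
theorem DD_continuousOn {T : Type*} [TopologicalSpace T] {S : Set T} {n e : T → X → ℝ}
    {c : X → Λ → ℝ} {π : T → Λ → ℝ} {b : Λ → ℝ} (hnc : ∀ x, ContinuousOn (fun t => n t x) S)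
    (hec : ∀ x, ContinuousOn (fun t => e t x) S)
    (hπc : ∀ l, ContinuousOn (fun t => π t l) S) (he : ∀ t ∈ S, ∀ x, 0 < e t x)
    (hc : ∀ x l, 0 ≤ c x l) (hπ : ∀ t ∈ S, ∀ l, 0 ≤ π t l) (hb : ∀ l, 0 < b l) (l : Λ) :
    ContinuousOn (fun t => DD (n t) (e t) c (π t) b l) S := by
  unfold DD
  refine continuousOn_finsetSum _ fun x _ => ?_
  have h := alp_continuousOn hec hπc he hc hπ hb x
  refine ((hnc x).div h fun t _ => (alp_pos _ _ _ _ _).ne').mul (continuousOn_const.mul ?_)
  exact kp_continuous.comp_continuousOn (h.div_const _)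

end Pool.Agent.Lib.GSLE
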