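import Pool.Agent.Lib.GSLE.LE

/-!
# Payment principle, counting lemma and fan estimates

Abstract estimates for a node law `n`, a scale `a` (level `k` : `(1/2)^k ≤ a < 2 (1/2)^k`) and
labels `l` with weight `ρ l` and scale `(1/2)^(i l)`, using only level-wise bounds.
-/

set_option autoImplicit false

open Finset

namespace Pool.Agent.Lib.GSLE

/-- Distance of two levels. -/
def ds (k i : ℕ) : ℕ := k - i + (i - k)

theorem ds_comm (k i : ℕ) : ds k i = ds i k := by unfold ds; omega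

theorem ds_tri (k i j : ℕ) : ds k j ≤ ds k i + ds i j := by unfold ds; omega

theorem ds_self (k : ℕ) : ds k k = 0 := by unfold ds; omega

theorem geo_inj {q : ℝ} (h0 : 0 ≤ q) (h1 : q < 1) (S : Finset ℕ) (f : ℕ → ℕ)
    (hf : Set.InjOn f S) : ∑ k ∈ S, q ^ f k ≤ 1 / (1 - q) := by
  classical
  have h2 : ∑ k ∈ S, q ^ f k = ∑ m ∈ S.image f, q ^ m := by
    rw [Finset.sum_image hf]
  obtain ⟨N, hN⟩ := (S.image f).exists_nat_subset_range
  rw [h2]
  refine (Finset.sum_le_sum_of_subset_of_nonneg hN fun m _ _ => by positivity).trans ?_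
  have h3 : (∑ m ∈ range N, q ^ m) * (1 - q) = 1 - q ^ N := geom_sum_mul_neg q N
  have h4 : 0 ≤ q ^ N := by positivity
  rw [le_div_iff₀ (by linarith), h3]
  linarith

theorem geo_ds {q : ℝ} (h0 : 0 ≤ q) (h1 : q < 1) (S : Finset ℕ) (i : ℕ) :
    ∑ k ∈ S, q ^ ds k i ≤ 2 / (1 - q) := by
  classical
  have h2 : ∑ k ∈ S, q ^ ds k i = ∑ k ∈ S with k ≤ i, q ^ ds k i +
      ∑ k ∈ S with ¬ k ≤ i, q ^ ds k i := by
    rw [Finset.sum_filter_add_sum_filter_not]
  have h3 : ∑ k ∈ S with k ≤ i, q ^ ds k i ≤ 1 / (1 - q) := by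
    refine geo_inj h0 h1 _ _ ?_
    intro x hx y hy h
    have hx1 := (Finset.mem_filter.mp hx).2
    have hy1 := (Finset.mem_filter.mp hy).2
    simp only [ds] at h
    omega
  have h4 : ∑ k ∈ S with ¬ k ≤ i, q ^ ds k i ≤ 1 / (1 - q) := by
    refine geo_inj h0 h1 _ _ ?_
    intro x hx y hy h
    have hx1 := (Finset.mem_filter.mp hx).2
    have hy1 := (Finset.mem_filter.mp hy).2
    simp only [ds] at h
    omega
  rw [h2]
  have h5 : 2 / (1 - q) = 1 / (1 - q) + 1 / (1 - q) := by ring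
  rw [h5]
  exact add_le_add h3 h4

/-- A sum over all vertices with a weight depending on the level. -/
theorem sum_lev {V : Type*} [Fintype V] (f : V → ℝ) (w : ℕ → ℝ) (k : V → ℕ) (hw : ∀ j, 0 ≤ w j)
    {C : ℝ} (hf : ∀ j, ∑ x with k x = j, f x ≤ C) {G : ℝ}
    (hG : ∀ S : Finset ℕ, ∑ j ∈ S, w j ≤ G) (hC : 0 ≤ C) : ∑ x, f x * w (k x) ≤ C * G := by
  classical
  have h1 : ∑ x, f x * w (k x) = ∑ j ∈ univ.image k, ∑ x with k x = j, f x * w (k x) := by
    rw [← Finset.sum_fiberwise_of_maps_to (s := univ) (t := univ.image k) (g := k)]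
    intro x _
    exact Finset.mem_image_of_mem k (Finset.mem_univ x)
  rw [h1]
  calc ∑ j ∈ univ.image k, ∑ x with k x = j, f x * w (k x)
      = ∑ j ∈ univ.image k, (∑ x with k x = j, f x) * w j := by
        refine Finset.sum_congr rfl fun j _ => ?_
        rw [Finset.sum_mul]
        refine Finset.sum_congr rfl fun x hx => ?_
        rw [(Finset.mem_filter.mp hx).2]
    _ ≤ ∑ j ∈ univ.image k, C * w j :=
        Finset.sum_le_sum fun j _ => mul_le_mul_of_nonneg_right (hf j) (hw j)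
    _ = C * ∑ j ∈ univ.image k, w j := by rw [Finset.mul_sum]
    _ ≤ C * G := mul_le_mul_of_nonneg_left (hG _) hC

section pay

variable {V B Λ : Type*} [Fintype V] [Fintype B] [Fintype Λ]

/-- The payment function at `u`: `R l b` is the charge of the label `l` on the payer `b`. -/
noncomputable def gp (q : ℝ) (a : V → ℝ) (k : V → ℕ) (A : V → B → ℝ) (ρ : Λ → ℝ) (i : Λ → ℕ)
    (R : Λ → B → ℝ) (u : V) : ℝ :=
  ∑ l, ρ l * (q ^ ds (k u) (i l) * (∑ b, R l b * A u b) / a u)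

/-- **Payment principle**, mean bound: the charges are paid with the level-wise bound only. -/
theorem pay_mean {q : ℝ} (h0 : 0 ≤ q) (h1 : q < 1) {n a : V → ℝ} {k : V → ℕ} {A : V → B → ℝ}
    {ρ : Λ → ℝ} {i : Λ → ℕ} {R : Λ → B → ℝ} (hρ : ∀ l, 0 ≤ ρ l) (hR : ∀ l b, 0 ≤ R l b) {C : ℝ}
    (hC : 0 ≤ C) (hD : ∀ l b, R l b ≠ 0 → ∀ j, ∑ x with k x = j, n x / a x * A x b ≤ C) :
    ∑ u, n u * gp q a k A ρ i R u ≤ C * (2 / (1 - q)) * ∑ l, ρ l * ∑ b, R l b := by
  unfold gp
  have e1 : ∑ u, n u * ∑ l, ρ l * (q ^ ds (k u) (i l) * (∑ b, R l b * A u b) / a u) =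
      ∑ l, ∑ b, ρ l * R l b * ∑ u, n u / a u * A u b * q ^ ds (k u) (i l) := by
    simp_rw [Finset.mul_sum, Finset.sum_div, Finset.mul_sum]
    rw [Finset.sum_comm]
    refine Finset.sum_congr rfl fun l _ => ?_
    rw [Finset.sum_comm]
    refine Finset.sum_congr rfl fun b _ => Finset.sum_congr rfl fun u _ => ?_
    ring
  rw [e1, Finset.mul_sum]
  refine Finset.sum_le_sum fun l _ => ?_
  have e2 : C * (2 / (1 - q)) * (ρ l * ∑ b, R l b) =
      ∑ b, ρ l * R l b * (C * (2 / (1 - q))) := by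
    rw [← Finset.sum_mul, ← Finset.mul_sum]
    ring
  rw [e2]
  refine Finset.sum_le_sum fun b _ => ?_
  by_cases hb : R l b = 0
  · rw [hb, mul_zero, zero_mul, zero_mul]
  · refine mul_le_mul_of_nonneg_left ?_ (mul_nonneg (hρ l) (hR l b))
    exact sum_lev (fun u => n u / a u * A u b) (fun j => q ^ ds j (i l)) k
      (fun j => by positivity) (hD l b hb) (fun S => geo_ds h0 h1 S (i l)) hC

/-- **Payment principle**, pointwise bound: if `gp u ≤ B`, then the mean charge of the labels of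
any vertex `x`, seen by `u`, is at most `B * a u / A x`, up to the decay in the distance of the
levels.  `c` is the label kernel of `x`. -/
theorem pay_point {q : ℝ} (h0 : 0 < q) (h1 : q ≤ 1) {a : V → ℝ} {k : V → ℕ} {A : V → B → ℝ}
    {ρ : Λ → ℝ} {i : Λ → ℕ} {R : Λ → B → ℝ} (hρ : ∀ l, 0 ≤ ρ l) (hR : ∀ l b, 0 ≤ R l b)
    (hA : ∀ u b, 0 ≤ A u b) (ha : ∀ u, 0 < a u) {u : V} {Bd : ℝ}
    (hB : gp q a k A ρ i R u ≤ Bd) (kx : ℕ) {c : Λ → ℝ} {C1 : ℝ} (hC1 : 0 ≤ C1)
    (hcl : ∀ l, c l ≤ C1 * q ^ ds kx (i l)) :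
    ∑ l, c l * ρ l * ∑ b, R l b * A u b ≤ C1 * Bd * a u * (q ^ ds kx (k u))⁻¹ := by
  have hau := ha u
  have hS : ∀ l, 0 ≤ ∑ b, R l b * A u b :=
    fun l => Finset.sum_nonneg fun b _ => mul_nonneg (hR l b) (hA u b)
  have h2 : ∀ l, c l * ρ l * ∑ b, R l b * A u b ≤
      C1 * a u * (q ^ ds kx (k u))⁻¹ *
        (ρ l * (q ^ ds (k u) (i l) * (∑ b, R l b * A u b) / a u)) := by
    intro l
    have h3 : q ^ ds kx (i l) ≤ (q ^ ds kx (k u))⁻¹ * q ^ ds (k u) (i l) := by
      rw [← div_eq_inv_mul, le_div_iff₀ (by positivity), ← pow_add]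
      refine pow_le_pow_of_le_one h0.le h1 ?_
      have := ds_tri (k u) kx (i l)
      rw [ds_comm (k u) kx] at this
      omega
    have h4 : c l ≤ C1 * ((q ^ ds kx (k u))⁻¹ * q ^ ds (k u) (i l)) :=
      (hcl l).trans (mul_le_mul_of_nonneg_left h3 hC1)
    calc c l * ρ l * ∑ b, R l b * A u b
        ≤ C1 * ((q ^ ds kx (k u))⁻¹ * q ^ ds (k u) (i l)) * ρ l * ∑ b, R l b * A u b :=
          mul_le_mul_of_nonneg_right (mul_le_mul_of_nonneg_right h4 (hρ l)) (hS l)
      _ = C1 * a u * (q ^ ds kx (k u))⁻¹ *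
          (ρ l * (q ^ ds (k u) (i l) * (∑ b, R l b * A u b) / a u)) := by
          field_simp
  calc ∑ l, c l * ρ l * ∑ b, R l b * A u b
      ≤ ∑ l, C1 * a u * (q ^ ds kx (k u))⁻¹ *
        (ρ l * (q ^ ds (k u) (i l) * (∑ b, R l b * A u b) / a u)) :=
        Finset.sum_le_sum fun l _ => h2 l
    _ = C1 * a u * (q ^ ds kx (k u))⁻¹ * gp q a k A ρ i R u := by
        unfold gp
        rw [Finset.mul_sum]
    _ ≤ C1 * a u * (q ^ ds kx (k u))⁻¹ * Bd := by
        refine mul_le_mul_of_nonneg_left hB ?_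
        positivity
    _ = C1 * Bd * a u * (q ^ ds kx (k u))⁻¹ := by ring

end pay

section markov

variable {V : Type*} [Fintype V]

/-- Markov. -/
theorem markov {n g : V → ℝ} (hn : ∀ u, 0 ≤ n u) (hg : ∀ u, 0 ≤ g u) {E Bd : ℝ} (hB : 0 < Bd)
    (h : ∑ u, n u * g u ≤ E) : ∑ u with Bd < g u, n u ≤ E / Bd := by
  rw [le_div_iff₀ hB, Finset.sum_mul]
  refine le_trans ?_ h
  refine (Finset.sum_le_sum fun u hu => ?_).trans
    (Finset.sum_le_sum_of_subset_of_nonneg (Finset.subset_univ _)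
      fun u _ _ => mul_nonneg (hn u) (hg u))
  exact mul_le_mul_of_nonneg_left (Finset.mem_filter.mp hu).2.le (hn u)

end markov

section count

variable {V Λ : Type*} [Fintype V] [Fintype Λ]

/-- The mass of the `F`-nodes of the label `l` at the level `j`. -/
noncomputable def DF (n a : V → ℝ) (k : V → ℕ) (f : Λ → V → ℝ) (j : ℕ) (l : Λ) : ℝ :=
  ∑ x with k x = j, n x / a x * f l x

theorem DF_nonneg {n a : V → ℝ} {k : V → ℕ} {f : Λ → V → ℝ} (hn : ∀ x, 0 ≤ n x)
    (ha : ∀ x, 0 < a x) (hf : ∀ l x, 0 ≤ f l x) (j : ℕ) (l : Λ) : 0 ≤ DF n a k f j l :=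
  Finset.sum_nonneg fun x _ => mul_nonneg (div_nonneg (hn x) (ha x).le) (hf l x)

/-- One scale of labels against one level of nodes. -/
theorem DF_sum {n a : V → ℝ} {k : V → ℕ} {f : Λ → V → ℝ} {ρ : Λ → ℝ} {i : Λ → ℕ}
    (hn : ∀ x, 0 ≤ n x) (ha : ∀ x, (1 / 2 : ℝ) ^ k x ≤ a x) {K : ℝ} (hK : 0 ≤ K)
    (hW : ∀ x, n x ≠ 0 → ∀ m, ∑ l with i l = m, ρ l * f l x ≤ K * (1 / 2 : ℝ) ^ m)
    {j m : ℕ} (hjm : j ≤ m) :
    ∑ l with i l = m, ρ l * DF n a k f j l ≤ K * (1 / 2 : ℝ) ^ (m - j) * ∑ x with k x = j, n x := by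
  have e1 : ∑ l with i l = m, ρ l * DF n a k f j l =
      ∑ x with k x = j, n x / a x * ∑ l with i l = m, ρ l * f l x := by
    unfold DF
    simp_rw [Finset.mul_sum]
    rw [Finset.sum_comm]
    refine Finset.sum_congr rfl fun x _ => Finset.sum_congr rfl fun l _ => ?_
    ring
  rw [e1, Finset.mul_sum]
  refine Finset.sum_le_sum fun x hx => ?_
  have hkx := (Finset.mem_filter.mp hx).2
  have hax : (1 / 2 : ℝ) ^ j ≤ a x := by
    have := ha x
    rwa [hkx] at this
  have hpj : (0 : ℝ) < (1 / 2 : ℝ) ^ j := by positivity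
  have hax0 : 0 < a x := lt_of_lt_of_le hpj hax
  by_cases hnx : n x = 0
  · rw [hnx, zero_div, zero_mul, mul_zero]
  · have h1 := hW x hnx m
    have h2 : n x / a x ≤ n x / (1 / 2 : ℝ) ^ j := div_le_div_of_nonneg_left (hn x) hpj hax
    have h3 : 0 ≤ n x / a x := div_nonneg (hn x) hax0.le
    calc n x / a x * ∑ l with i l = m, ρ l * f l x
        ≤ n x / a x * (K * (1 / 2 : ℝ) ^ m) := mul_le_mul_of_nonneg_left h1 h3
      _ ≤ n x / (1 / 2 : ℝ) ^ j * (K * (1 / 2 : ℝ) ^ m) :=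
          mul_le_mul_of_nonneg_right h2 (by positivity)
      _ = K * (1 / 2 : ℝ) ^ (m - j) * n x := by
          obtain ⟨d, rfl⟩ := Nat.exists_eq_add_of_le hjm
          rw [Nat.add_sub_cancel_left, pow_add]
          field_simp

/-- **Counting lemma**: if every node sees at most `K` of the labels of each scale, then the labels
`l` which have an `F`-mass `≥ ε q ^ (i l - j)` at a level `j ≤ i l - g` have small weight
(`q = 1/√2`). -/
theorem count_le {n a : V → ℝ} {k : V → ℕ} {f : Λ → V → ℝ} {ρ : Λ → ℝ} {i : Λ → ℕ}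
    (hn : ∀ x, 0 ≤ n x) (ha : ∀ x, (1 / 2 : ℝ) ^ k x ≤ a x) (hf : ∀ l x, 0 ≤ f l x)
    (hρ : ∀ l, 0 ≤ ρ l) {K : ℝ} (hK : 0 ≤ K)
    (hW : ∀ x, n x ≠ 0 → ∀ m, ∑ l with i l = m, ρ l * f l x ≤ K * (1 / 2 : ℝ) ^ m)
    {q ε : ℝ} (hq0 : 0 < q) (hq1 : q < 1) (hq : q * q = 1 / 2) (hε : 0 < ε) (g : ℕ)
    (T : Finset Λ) (hT : ∀ l ∈ T, ∃ j, j + g ≤ i l ∧ ε * q ^ (i l - j) ≤ DF n a k f j l) :
    ∑ l ∈ T, ρ l ≤ K / ε * (q ^ g / (1 - q)) * ∑ x, n x := by
  classical
  have ha0 : ∀ x, 0 < a x := fun x => lt_of_lt_of_le (by positivity) (ha x)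
  -- one pair of a scale and a level
  have hpair : ∀ j m : ℕ, j + g ≤ m →
      ∑ l ∈ T with i l = m ∧ ε * q ^ (m - j) ≤ DF n a k f j l, ρ l ≤
        K / ε * q ^ (m - j) * ∑ x with k x = j, n x := by
    intro j m hjm
    have hqp : 0 < ε * q ^ (m - j) := by positivity
    have h1 : (ε * q ^ (m - j)) * ∑ l ∈ T with i l = m ∧ ε * q ^ (m - j) ≤ DF n a k f j l, ρ l ≤
        ∑ l with i l = m, ρ l * DF n a k f j l := by
      rw [Finset.mul_sum]
      refine (Finset.sum_le_sum fun l hl => ?_).trans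
        (Finset.sum_le_sum_of_subset_of_nonneg (s := T.filter
          fun l => i l = m ∧ ε * q ^ (m - j) ≤ DF n a k f j l) ?_ fun l _ _ => ?_)
      · have h2 := (Finset.mem_filter.mp hl).2.2
        rw [mul_comm]
        exact mul_le_mul_of_nonneg_left h2 (hρ l)
      · intro l hl
        have h2 := (Finset.mem_filter.mp hl).2.1
        exact Finset.mem_filter.mpr ⟨Finset.mem_univ l, h2⟩
      · exact mul_nonneg (hρ l) (DF_nonneg hn ha0 hf j l)
    have h2 := h1.trans (DF_sum hn ha hK hW (by omega : j ≤ m))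
    have h3 : (1 / 2 : ℝ) ^ (m - j) = q ^ (m - j) * q ^ (m - j) := by
      rw [← mul_pow, hq]
    rw [h3] at h2
    have h4 : ∑ l ∈ T with i l = m ∧ ε * q ^ (m - j) ≤ DF n a k f j l, ρ l ≤
        (K * (q ^ (m - j) * q ^ (m - j)) * ∑ x with k x = j, n x) / (ε * q ^ (m - j)) := by
      rw [le_div_iff₀ hqp, mul_comm]
      exact h2
    refine h4.trans (le_of_eq ?_)
    have h5 : q ^ (m - j) ≠ 0 := by positivity
    field_simp
  -- sum over the pairs
  obtain ⟨N, hN⟩ : ∃ N, ∀ l ∈ T, i l < N := by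
    obtain ⟨N, hN⟩ := (T.image i).exists_nat_subset_range
    exact ⟨N, fun l hl => Finset.mem_range.mp (hN (Finset.mem_image_of_mem i hl))⟩
  have hcov : ∑ l ∈ T, ρ l ≤ ∑ j ∈ range N, ∑ m ∈ (range N).filter (fun m => j + g ≤ m),
      ∑ l ∈ T with i l = m ∧ ε * q ^ (m - j) ≤ DF n a k f j l, ρ l := by
    have e1 : ∑ j ∈ range N, ∑ m ∈ (range N).filter (fun m => j + g ≤ m),
        ∑ l ∈ T with i l = m ∧ ε * q ^ (m - j) ≤ DF n a k f j l, ρ l =
        ∑ l ∈ T, ∑ j ∈ range N, ∑ m ∈ (range N).filter (fun m => j + g ≤ m),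
          if i l = m ∧ ε * q ^ (m - j) ≤ DF n a k f j l then ρ l else 0 := by
      simp_rw [Finset.sum_filter (s := T)]
      symm
      rw [Finset.sum_comm]
      refine Finset.sum_congr rfl fun j _ => ?_
      rw [Finset.sum_comm]
    rw [e1]
    refine Finset.sum_le_sum fun l hl => ?_
    obtain ⟨j, hj, hD⟩ := hT l hl
    have hil := hN l hl
    have h1 : (0 : ℝ) ≤ ρ l := hρ l
    have h2 : ρ l ≤ ∑ m ∈ (range N).filter (fun m => j + g ≤ m),
        if i l = m ∧ ε * q ^ (m - j) ≤ DF n a k f j l then ρ l else 0 := by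
      have h3 : (if i l = i l ∧ ε * q ^ (i l - j) ≤ DF n a k f j l then ρ l else 0) = ρ l :=
        if_pos ⟨rfl, hD⟩
      calc ρ l = (if i l = i l ∧ ε * q ^ (i l - j) ≤ DF n a k f j l then ρ l else 0) := h3.symm
        _ ≤ ∑ m ∈ (range N).filter (fun m => j + g ≤ m),
            if i l = m ∧ ε * q ^ (m - j) ≤ DF n a k f j l then ρ l else 0 :=
            Finset.single_le_sum
              (f := fun m => if i l = m ∧ ε * q ^ (m - j) ≤ DF n a k f j l then ρ l else 0)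
              (fun m _ => by
                split_ifs
                · exact h1
                · exact le_rfl)
              (Finset.mem_filter.mpr ⟨Finset.mem_range.mpr hil, hj⟩)
    refine h2.trans ?_
    exact Finset.single_le_sum
      (f := fun j => ∑ m ∈ (range N).filter (fun m => j + g ≤ m),
        if i l = m ∧ ε * q ^ (m - j) ≤ DF n a k f j l then ρ l else 0)
      (fun j _ => Finset.sum_nonneg fun m _ => by
        split_ifs
        · exact h1
        · exact le_rfl)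
      (Finset.mem_range.mpr (by omega))
  refine hcov.trans ?_
  have hnj : ∀ j, 0 ≤ ∑ x with k x = j, n x := fun j => Finset.sum_nonneg fun x _ => hn x
  have hgeo : ∀ j, ∑ m ∈ (range N).filter (fun m => j + g ≤ m), q ^ (m - j) ≤
      q ^ g / (1 - q) := by
    intro j
    have h1 : ∑ m ∈ (range N).filter (fun m => j + g ≤ m), q ^ (m - j) =
        q ^ g * ∑ m ∈ (range N).filter (fun m => j + g ≤ m), q ^ (m - j - g) := by
      rw [Finset.mul_sum]
      refine Finset.sum_congr rfl fun m hm => ?_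
      have := (Finset.mem_filter.mp hm).2
      rw [← pow_add]
      congr 1
      omega
    rw [h1, div_eq_mul_one_div]
    refine mul_le_mul_of_nonneg_left ?_ (by positivity)
    refine geo_inj hq0.le hq1 _ _ ?_
    intro x hx y hy h
    have hx1 := (Finset.mem_filter.mp hx).2
    have hy1 := (Finset.mem_filter.mp hy).2
    simp only at h
    omega
  calc ∑ j ∈ range N, ∑ m ∈ (range N).filter (fun m => j + g ≤ m),
        ∑ l ∈ T with i l = m ∧ ε * q ^ (m - j) ≤ DF n a k f j l, ρ l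
      ≤ ∑ j ∈ range N, ∑ m ∈ (range N).filter (fun m => j + g ≤ m),
        K / ε * q ^ (m - j) * ∑ x with k x = j, n x :=
        Finset.sum_le_sum fun j _ => Finset.sum_le_sum fun m hm =>
          hpair j m (Finset.mem_filter.mp hm).2
    _ = ∑ j ∈ range N, K / ε * (∑ x with k x = j, n x) *
        ∑ m ∈ (range N).filter (fun m => j + g ≤ m), q ^ (m - j) := by
        refine Finset.sum_congr rfl fun j _ => ?_
        rw [Finset.mul_sum]
        exact Finset.sum_congr rfl fun m _ => by ring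
    _ ≤ ∑ j ∈ range N, K / ε * (∑ x with k x = j, n x) * (q ^ g / (1 - q)) :=
        Finset.sum_le_sum fun j _ => mul_le_mul_of_nonneg_left (hgeo j)
          (mul_nonneg (div_nonneg hK hε.le) (hnj j))
    _ = K / ε * (q ^ g / (1 - q)) * ∑ j ∈ range N, ∑ x with k x = j, n x := by
        rw [Finset.mul_sum]
        exact Finset.sum_congr rfl fun j _ => by ring
    _ ≤ K / ε * (q ^ g / (1 - q)) * ∑ x, n x := by
        refine mul_le_mul_of_nonneg_left ?_ ?_
        · have h1 : ∑ j ∈ range N, ∑ x with k x = j, n x = ∑ x with k x ∈ range N, n x := by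
            rw [← Finset.sum_fiberwise_of_maps_to (s := univ.filter fun x => k x ∈ range N)
              (t := range N) (g := k)]
            · refine Finset.sum_congr rfl fun j hj => Finset.sum_congr ?_ fun _ _ => rfl
              ext x
              simp only [Finset.mem_filter, Finset.mem_univ, true_and]
              constructor
              · intro h
                exact ⟨h ▸ hj, h⟩
              · exact fun h => h.2
            · intro x hx
              exact (Finset.mem_filter.mp hx).2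
          rw [h1]
          exact Finset.sum_le_sum_of_subset_of_nonneg (Finset.subset_univ _) fun x _ _ => hn x
        · refine mul_nonneg (div_nonneg hK hε.le) (div_nonneg (by positivity) (by linarith))

/-- Light labels: the near mass is bounded in the mean. -/
theorem light_mean {n : V → ℝ} {f : Λ → V → ℝ} {ρ : Λ → ℝ} {i : Λ → ℕ} (hρ : ∀ l, 0 ≤ ρ l)
    {K : ℝ} (T : Finset Λ) (hF : ∀ l ∈ T, ∑ x, n x * f l x ≤ K * (1 / 2 : ℝ) ^ i l) :
    ∑ x, n x * ∑ l ∈ T, ρ l / (1 / 2 : ℝ) ^ i l * f l x ≤ K * ∑ l ∈ T, ρ l := by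
  have e1 : ∑ x, n x * ∑ l ∈ T, ρ l / (1 / 2 : ℝ) ^ i l * f l x =
      ∑ l ∈ T, ρ l / (1 / 2 : ℝ) ^ i l * ∑ x, n x * f l x := by
    simp_rw [Finset.mul_sum]
    rw [Finset.sum_comm]
    refine Finset.sum_congr rfl fun l _ => Finset.sum_congr rfl fun x _ => ?_
    ring
  rw [e1, Finset.mul_sum]
  refine Finset.sum_le_sum fun l hl => ?_
  have hp : (0 : ℝ) < (1 / 2 : ℝ) ^ i l := by positivity
  calc ρ l / (1 / 2 : ℝ) ^ i l * ∑ x, n x * f l x
      ≤ ρ l / (1 / 2 : ℝ) ^ i l * (K * (1 / 2 : ℝ) ^ i l) :=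
        mul_le_mul_of_nonneg_left (hF l hl) (div_nonneg (hρ l) hp.le)
    _ = K * ρ l := by field_simp

/-- **Density of the own nodes of a fan of one scale**: the labels of `T` have scale `(1/2)^m` and
total weight `≥ η (1/2)^m`, their own nodes have level within `g₀` of `m`, every node has own
weight at most `H a x`, and the scale in the denominator is `≥ θ a x`.  Then the mean of any
`h ≥ 0` over the own nodes of the fan is at most a constant times `∑ n x / a x * h x` over these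
levels. -/
theorem fan_density {n a A' : V → ℝ} {k : V → ℕ} {c : V → Λ → ℝ} {ρ : Λ → ℝ} {m g₀ : ℕ}
    (hn : ∀ x, 0 ≤ n x) (ha : ∀ x, 0 < a x) (hk : ∀ x, a x < 2 * (1 / 2 : ℝ) ^ k x)
    {H θ η : ℝ} (hθ : 0 < θ) (hη : 0 < η) (hH : 0 ≤ H) (hA : ∀ x, θ * a x ≤ A' x)
    (T : Finset Λ) (hc0 : ∀ x, ∀ l ∈ T, 0 ≤ c x l) (hρ : ∀ l ∈ T, 0 ≤ ρ l)
    (hc : ∀ x, ∀ l ∈ T, c x l ≠ 0 → ds (k x) m ≤ g₀)
    (hown : ∀ x, ∑ l ∈ T, c x l * ρ l ≤ H * a x) (hT : η * (1 / 2 : ℝ) ^ m ≤ ∑ l ∈ T, ρ l)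
    (h : V → ℝ) (hh : ∀ x, 0 ≤ h x) :
    ∑ l ∈ T, ρ l * ∑ x, n x / A' x * c x l * h x ≤
      (2 * 2 ^ g₀ * H / (θ * η)) * (∑ x with ds (k x) m ≤ g₀, n x / a x * h x) *
        ∑ l ∈ T, ρ l := by
  have hA0 : ∀ x, 0 < A' x := fun x => lt_of_lt_of_le (mul_pos hθ (ha x)) (hA x)
  have hpm : (0 : ℝ) < (1 / 2 : ℝ) ^ m := by positivity
  have e1 : ∑ l ∈ T, ρ l * ∑ x, n x / A' x * c x l * h x =
      ∑ x, n x / A' x * h x * ∑ l ∈ T, c x l * ρ l := by
    simp_rw [Finset.mul_sum]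
    rw [Finset.sum_comm]
    refine Finset.sum_congr rfl fun x _ => Finset.sum_congr rfl fun l _ => ?_
    ring
  have h1 : ∀ x, n x / A' x * h x * ∑ l ∈ T, c x l * ρ l ≤
      if ds (k x) m ≤ g₀ then (2 * 2 ^ g₀ * H / θ * (1 / 2 : ℝ) ^ m) * (n x / a x * h x) else 0 := by
    intro x
    have hax := ha x
    by_cases hx : ds (k x) m ≤ g₀
    · rw [if_pos hx]
      have h2 : n x / A' x ≤ n x / (θ * a x) :=
        div_le_div_of_nonneg_left (hn x) (mul_pos hθ hax) (hA x)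
      have h3 : a x ≤ 2 * 2 ^ g₀ * (1 / 2 : ℝ) ^ m := by
        have h4 : (1 / 2 : ℝ) ^ k x ≤ 2 ^ g₀ * (1 / 2 : ℝ) ^ m := by
          have h5 : m ≤ k x + g₀ := by
            unfold ds at hx
            omega
          have h6 : (1 / 2 : ℝ) ^ (k x + g₀) ≤ (1 / 2 : ℝ) ^ m :=
            pow_le_pow_of_le_one (by norm_num) (by norm_num) h5
          have h7 : (2 : ℝ) ^ g₀ * (1 / 2 : ℝ) ^ (k x + g₀) = (1 / 2 : ℝ) ^ k x := by
            have h8 : (2 : ℝ) ^ g₀ * (1 / 2 : ℝ) ^ g₀ = 1 := by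
              rw [← mul_pow]
              norm_num
            rw [pow_add]
            calc (2 : ℝ) ^ g₀ * ((1 / 2 : ℝ) ^ k x * (1 / 2 : ℝ) ^ g₀)
                = (1 / 2 : ℝ) ^ k x * ((2 : ℝ) ^ g₀ * (1 / 2 : ℝ) ^ g₀) := by ring
              _ = (1 / 2 : ℝ) ^ k x := by rw [h8, mul_one]
          rw [← h7]
          exact mul_le_mul_of_nonneg_left h6 (by positivity)
        have := hk x
        nlinarith
      have h4 : 0 ≤ ∑ l ∈ T, c x l * ρ l :=
        Finset.sum_nonneg fun l hl => mul_nonneg (hc0 x l hl) (hρ l hl)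
      have h5 : 0 ≤ n x / (θ * a x) := div_nonneg (hn x) (mul_pos hθ hax).le
      calc n x / A' x * h x * ∑ l ∈ T, c x l * ρ l
          ≤ n x / (θ * a x) * h x * ∑ l ∈ T, c x l * ρ l :=
            mul_le_mul_of_nonneg_right (mul_le_mul_of_nonneg_right h2 (hh x)) h4
        _ ≤ n x / (θ * a x) * h x * (H * a x) :=
            mul_le_mul_of_nonneg_left (hown x) (mul_nonneg h5 (hh x))
        _ = (H / θ * a x) * (n x / a x * h x) := by field_simp
        _ ≤ (2 * 2 ^ g₀ * H / θ * (1 / 2 : ℝ) ^ m) * (n x / a x * h x) := by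
            refine mul_le_mul_of_nonneg_right ?_ (mul_nonneg (div_nonneg (hn x) hax.le) (hh x))
            calc H / θ * a x ≤ H / θ * (2 * 2 ^ g₀ * (1 / 2 : ℝ) ^ m) :=
                  mul_le_mul_of_nonneg_left h3 (div_nonneg hH hθ.le)
              _ = 2 * 2 ^ g₀ * H / θ * (1 / 2 : ℝ) ^ m := by ring
    · rw [if_neg hx]
      have h2 : ∑ l ∈ T, c x l * ρ l = 0 := by
        refine Finset.sum_eq_zero fun l hl => ?_
        have h3 : c x l = 0 := by
          by_contra h4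
          exact hx (hc x l hl h4)
        rw [h3, zero_mul]
      rw [h2, mul_zero]
  rw [e1]
  have h2 : ∑ x, n x / A' x * h x * ∑ l ∈ T, c x l * ρ l ≤
      (2 * 2 ^ g₀ * H / θ * (1 / 2 : ℝ) ^ m) * ∑ x with ds (k x) m ≤ g₀, n x / a x * h x := by
    rw [Finset.mul_sum, Finset.sum_filter]
    refine Finset.sum_le_sum fun x _ => ?_
    have := h1 x
    split_ifs at this ⊢
    · exact this
    · exact this
  refine h2.trans ?_
  have h3 : 0 ≤ ∑ x with ds (k x) m ≤ g₀, n x / a x * h x :=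
    Finset.sum_nonneg fun x _ => mul_nonneg (div_nonneg (hn x) (ha x).le) (hh x)
  calc (2 * 2 ^ g₀ * H / θ * (1 / 2 : ℝ) ^ m) * ∑ x with ds (k x) m ≤ g₀, n x / a x * h x
      = (2 * 2 ^ g₀ * H / (θ * η)) * (∑ x with ds (k x) m ≤ g₀, n x / a x * h x) *
        (η * (1 / 2 : ℝ) ^ m) := by
        field_simp
    _ ≤ (2 * 2 ^ g₀ * H / (θ * η)) * (∑ x with ds (k x) m ≤ g₀, n x / a x * h x) *
        ∑ l ∈ T, ρ l := by
        refine mul_le_mul_of_nonneg_left hT (mul_nonneg (by positivity) h3)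

end count

section decay

variable {Λ : Type*} [Fintype Λ]

/-- Labels of much larger scale: if the kernel `c l q ^ ds k (i l)` has total weight at most `Bd`,
then the labels with `i l + g ≤ k` have `∑ c l ρ l 2 ^ i l ≤ Bd 2 ^ k q ^ g`. -/
theorem decay_high {c ρ : Λ → ℝ} {i : Λ → ℕ} {k g : ℕ} (hc : ∀ l, 0 ≤ c l) (hρ : ∀ l, 0 ≤ ρ l)
    {q Bd : ℝ} (hq0 : 0 < q) (hq1 : q ≤ 1) (hq : q * q = 1 / 2)
    (hB : ∑ l, c l * ρ l * q ^ ds k (i l) ≤ Bd) :
    ∑ l with i l + g ≤ k, c l * ρ l / (1 / 2 : ℝ) ^ i l ≤ Bd * q ^ g / (1 / 2 : ℝ) ^ k := by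
  have hpk : (0 : ℝ) < (1 / 2 : ℝ) ^ k := by positivity
  rw [le_div_iff₀ hpk, Finset.sum_mul]
  calc ∑ l with i l + g ≤ k, c l * ρ l / (1 / 2 : ℝ) ^ i l * (1 / 2 : ℝ) ^ k
      ≤ ∑ l with i l + g ≤ k, c l * ρ l * q ^ ds k (i l) * q ^ g := by
        refine Finset.sum_le_sum fun l hl => ?_
        have h1 := (Finset.mem_filter.mp hl).2
        obtain ⟨d, hd⟩ := Nat.exists_eq_add_of_le (show i l ≤ k by omega)
        have h2 : ds k (i l) = d := by unfold ds; omega
        have h3 : (1 / 2 : ℝ) ^ k = (1 / 2 : ℝ) ^ i l * (q ^ d * q ^ d) := by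
          rw [hd, pow_add, ← mul_pow, hq]
        have h4 : q ^ d ≤ q ^ g := pow_le_pow_of_le_one hq0.le hq1 (by omega)
        have h5 : 0 ≤ c l * ρ l := mul_nonneg (hc l) (hρ l)
        rw [h2, h3]
        have h6 : c l * ρ l / (1 / 2 : ℝ) ^ i l * ((1 / 2 : ℝ) ^ i l * (q ^ d * q ^ d)) =
            c l * ρ l * q ^ d * q ^ d := by
          have : (1 / 2 : ℝ) ^ i l ≠ 0 := by positivity
          field_simp
        rw [h6]
        exact mul_le_mul_of_nonneg_left h4 (mul_nonneg h5 (by positivity))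
    _ ≤ ∑ l, c l * ρ l * q ^ ds k (i l) * q ^ g :=
        Finset.sum_le_sum_of_subset_of_nonneg (Finset.subset_univ _) fun l _ _ =>
          mul_nonneg (mul_nonneg (mul_nonneg (hc l) (hρ l)) (by positivity)) (by positivity)
    _ = (∑ l, c l * ρ l * q ^ ds k (i l)) * q ^ g := by rw [Finset.sum_mul]
    _ ≤ Bd * q ^ g := mul_le_mul_of_nonneg_right hB (by positivity)

/-- Labels of scale at least `(1/2)^(k+u)`: near mass. -/
theorem decay_near {c ρ : Λ → ℝ} {i : Λ → ℕ} {k u : ℕ} (hc : ∀ l, 0 ≤ c l) (hρ : ∀ l, 0 ≤ ρ l)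
    {q Bd : ℝ} (hq0 : 0 < q) (hq1 : q ≤ 1) (hq : q * q = 1 / 2)
    (hB : ∑ l, c l * ρ l * q ^ ds k (i l) ≤ Bd) :
    ∑ l with i l ≤ k + u, c l * ρ l / (1 / 2 : ℝ) ^ i l ≤
      Bd / ((1 / 2 : ℝ) ^ k * (q ^ u * q ^ u * q ^ u)) := by
  have hpk : (0 : ℝ) < (1 / 2 : ℝ) ^ k * (q ^ u * q ^ u * q ^ u) := by positivity
  rw [le_div_iff₀ hpk, Finset.sum_mul]
  calc ∑ l with i l ≤ k + u, c l * ρ l / (1 / 2 : ℝ) ^ i l *
        ((1 / 2 : ℝ) ^ k * (q ^ u * q ^ u * q ^ u))
      ≤ ∑ l with i l ≤ k + u, c l * ρ l * q ^ ds k (i l) := by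
        refine Finset.sum_le_sum fun l hl => ?_
        have h1 := (Finset.mem_filter.mp hl).2
        have h5 : 0 ≤ c l * ρ l := mul_nonneg (hc l) (hρ l)
        have hpi : (0 : ℝ) < (1 / 2 : ℝ) ^ i l := by positivity
        have h2 : (1 / 2 : ℝ) ^ k * (q ^ u * q ^ u * q ^ u) ≤
            (1 / 2 : ℝ) ^ i l * q ^ ds k (i l) := by
          rcases le_total (i l) k with h | h
          · obtain ⟨d, hd⟩ := Nat.exists_eq_add_of_le h
            have h3 : ds k (i l) = d := by unfold ds; omega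
            rw [h3, hd, pow_add, ← hq, mul_pow q q d]
            have h4 : q ^ u ≤ 1 := pow_le_one₀ hq0.le hq1
            have h6 : q ^ d ≤ 1 := pow_le_one₀ hq0.le hq1
            have h7 : 0 < q ^ u := by positivity
            have h8 : 0 < q ^ d := by positivity
            have h9 : 0 < (q * q) ^ i l := by positivity
            have h10 : q ^ u * q ^ u * q ^ u ≤ 1 := by nlinarith [mul_pos h7 h7]
            calc (q * q) ^ i l * (q ^ d * q ^ d) * (q ^ u * q ^ u * q ^ u)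
                ≤ (q * q) ^ i l * (q ^ d * q ^ d) * 1 :=
                  mul_le_mul_of_nonneg_left h10 (by positivity)
              _ ≤ (q * q) ^ i l * q ^ d := by
                  rw [mul_one]
                  refine mul_le_mul_of_nonneg_left ?_ h9.le
                  nlinarith
          · obtain ⟨d, hd⟩ := Nat.exists_eq_add_of_le h
            have h3 : ds k (i l) = d := by unfold ds; omega
            have hdu : d ≤ u := by omega
            rw [h3, hd, pow_add, ← hq, mul_pow q q d]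
            have h4 : q ^ u ≤ q ^ d := pow_le_pow_of_le_one hq0.le hq1 hdu
            have h7 : 0 < q ^ u := by positivity
            have h8 : 0 < q ^ d := by positivity
            have h9 : 0 < (q * q) ^ k := by positivity
            have h10 : q ^ u * q ^ u * q ^ u ≤ q ^ d * q ^ d * q ^ d := by
              refine mul_le_mul (mul_le_mul h4 h4 h7.le h8.le) h4 h7.le (by positivity)
            calc (q * q) ^ k * (q ^ u * q ^ u * q ^ u) ≤ (q * q) ^ k * (q ^ d * q ^ d * q ^ d) :=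
                  mul_le_mul_of_nonneg_left h10 h9.le
              _ = (q * q) ^ k * (q ^ d * q ^ d) * q ^ d := by ring
        calc c l * ρ l / (1 / 2 : ℝ) ^ i l * ((1 / 2 : ℝ) ^ k * (q ^ u * q ^ u * q ^ u))
            ≤ c l * ρ l / (1 / 2 : ℝ) ^ i l * ((1 / 2 : ℝ) ^ i l * q ^ ds k (i l)) :=
              mul_le_mul_of_nonneg_left h2 (div_nonneg h5 hpi.le)
          _ = c l * ρ l * q ^ ds k (i l) := by field_simp
    _ ≤ ∑ l, c l * ρ l * q ^ ds k (i l) :=
        Finset.sum_le_sum_of_subset_of_nonneg (Finset.subset_univ _) fun l _ _ =>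
          mul_nonneg (mul_nonneg (hc l) (hρ l)) (by positivity)
    _ ≤ Bd := hB

end decay

end Pool.Agent.Lib.GSLE
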