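import Mathlib

/-!
# Self-consistent scales

For `e > 0`, weights `p j ≥ 0` and thresholds `b j > 0` the equation
`a = e + ∑ j, p j * kp (a / b j)` has exactly one positive root `sc e p b`, and the root is a
continuous function of `e` and `p`.  Here `kp u = min (u, 1 / u) ^ (1 / 2)`.
This is the scale `alp` of the localised equilibrium.
-/

set_option autoImplicit false

open Finset Topology

namespace Pool.Agent.Lib.GSLE

/-- The kernel `min (u, 1 / u) ^ (1 / 2)`. -/
noncomputable def kp (u : ℝ) : ℝ := √(min u 1) / √(max u 1)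

theorem kp_nonneg (u : ℝ) : 0 ≤ kp u := div_nonneg (Real.sqrt_nonneg _) (Real.sqrt_nonneg _)

theorem kp_of_le {u : ℝ} (h : u ≤ 1) : kp u = √u := by
  unfold kp
  rw [min_eq_left h, max_eq_right h, Real.sqrt_one, div_one]

theorem kp_of_ge {u : ℝ} (h : 1 ≤ u) : kp u = 1 / √u := by
  unfold kp
  rw [min_eq_right h, max_eq_left h, Real.sqrt_one]

theorem kp_le_one (u : ℝ) : kp u ≤ 1 := by
  rcases le_total u 1 with h | h
  · rw [kp_of_le h]
    exact Real.sqrt_le_one.mpr h
  · rw [kp_of_ge h, div_le_one (Real.sqrt_pos.mpr (by linarith))]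
    exact Real.one_le_sqrt.mpr h

theorem kp_pos {u : ℝ} (h : 0 < u) : 0 < kp u := by
  unfold kp
  refine div_pos (Real.sqrt_pos.mpr (lt_min h one_pos)) (Real.sqrt_pos.mpr ?_)
  exact lt_of_lt_of_le one_pos (le_max_right _ _)

theorem kp_continuous : Continuous kp := by
  unfold kp
  refine Continuous.div (by fun_prop) (by fun_prop) ?_
  intro u
  exact (Real.sqrt_pos.mpr (lt_of_lt_of_le one_pos (le_max_right _ _))).ne'

/-- `kp u ≤ √v * kp (u / v)`-type monotonicity: `kp u / u` is decreasing. -/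
theorem kp_div_anti {u v : ℝ} (hu : 0 < u) (h : u ≤ v) : kp v / v ≤ kp u / u := by
  have hv : 0 < v := lt_of_lt_of_le hu h
  have key1 : ∀ s t : ℝ, 0 < s → s ≤ t → t ≤ 1 → kp t / t ≤ kp s / s := by
    intro s t hs hst ht
    have ht0 : 0 < t := lt_of_lt_of_le hs hst
    rw [kp_of_le ht, kp_of_le (hst.trans ht), Real.sqrt_div_self', Real.sqrt_div_self']
    exact one_div_le_one_div_of_le (Real.sqrt_pos.mpr hs) (Real.sqrt_le_sqrt hst)
  have key2 : ∀ s t : ℝ, 1 ≤ s → s ≤ t → kp t / t ≤ kp s / s := by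
    intro s t hs hst
    have hs0 : 0 < s := by linarith
    rw [kp_of_ge hs, kp_of_ge (hs.trans hst), div_div, div_div]
    refine one_div_le_one_div_of_le (mul_pos (Real.sqrt_pos.mpr hs0) hs0) ?_
    exact mul_le_mul (Real.sqrt_le_sqrt hst) hst hs0.le (Real.sqrt_nonneg _)
  rcases le_total v 1 with h1 | h1
  · exact key1 u v hu h h1
  · rcases le_total 1 u with h2 | h2
    · exact key2 u v h2 h
    · exact (key2 1 v le_rfl h1).trans (key1 u 1 hu h2 le_rfl)

variable {J : Type*} [Fintype J]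

/-- The right side of the equation. -/
noncomputable def rs (e : ℝ) (p b : J → ℝ) (a : ℝ) : ℝ := e + ∑ j, p j * kp (a / b j)

theorem rs_continuous (e : ℝ) (p b : J → ℝ) : Continuous (rs e p b) := by
  unfold rs
  refine continuous_const.add (continuous_finsetSum _ fun j _ => continuous_const.mul ?_)
  exact kp_continuous.comp (continuous_id.div_const _)

theorem le_rs {e : ℝ} {p b : J → ℝ} (hp : ∀ j, 0 ≤ p j) (a : ℝ) : e ≤ rs e p b a := by
  unfold rs
  have : 0 ≤ ∑ j, p j * kp (a / b j) :=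
    Finset.sum_nonneg fun j _ => mul_nonneg (hp j) (kp_nonneg _)
  linarith

theorem rs_le {e : ℝ} {p b : J → ℝ} (hp : ∀ j, 0 ≤ p j) (a : ℝ) : rs e p b a ≤ e + ∑ j, p j := by
  unfold rs
  have : ∑ j, p j * kp (a / b j) ≤ ∑ j, p j :=
    Finset.sum_le_sum fun j _ => mul_le_of_le_one_right (hp j) (kp_le_one _)
  linarith

/-- `rs a / a` is strictly decreasing. -/
theorem rs_div_anti {e : ℝ} {p b : J → ℝ} (he : 0 < e) (hp : ∀ j, 0 ≤ p j) (hb : ∀ j, 0 < b j)
    {a a' : ℝ} (ha : 0 < a) (h : a < a') : rs e p b a' / a' < rs e p b a / a := by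
  have ha' : 0 < a' := ha.trans h
  unfold rs
  rw [add_div, add_div]
  refine add_lt_add_of_lt_of_le (div_lt_div_of_pos_left he ha h) ?_
  rw [Finset.sum_div, Finset.sum_div]
  refine Finset.sum_le_sum fun j _ => ?_
  have h1 := kp_div_anti (div_pos ha (hb j)) (div_le_div_of_nonneg_right h.le (hb j).le)
  have h2 : ∀ t : ℝ, 0 < t → p j * kp (t / b j) / t = p j / b j * (kp (t / b j) / (t / b j)) := by
    intro t ht
    have := (hb j).ne'
    field_simp
  rw [h2 a ha, h2 a' ha']
  exact mul_le_mul_of_nonneg_left h1 (div_nonneg (hp j) (hb j).le)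

theorem exists_root {e : ℝ} {p b : J → ℝ} (he : 0 < e) (hp : ∀ j, 0 ≤ p j) :
    ∃ a, 0 < a ∧ rs e p b a = a := by
  have h1 : e ≤ e + ∑ j, p j := by
    have : 0 ≤ ∑ j, p j := Finset.sum_nonneg fun j _ => hp j
    linarith
  have hc : ContinuousOn (fun a => rs e p b a - a) (Set.Icc e (e + ∑ j, p j)) :=
    ((rs_continuous e p b).sub continuous_id).continuousOn
  have h2 : (0 : ℝ) ∈ Set.Icc (rs e p b (e + ∑ j, p j) - (e + ∑ j, p j)) (rs e p b e - e) :=
    ⟨by linarith [rs_le (e := e) (b := b) hp (e + ∑ j, p j)], by linarith [le_rs (e := e) (b := b) hp e]⟩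
  obtain ⟨a, ha, h3⟩ := intermediate_value_Icc' h1 hc h2
  exact ⟨a, he.trans_le ha.1, by linarith⟩

/-- The scale: the positive root. -/
noncomputable def sc (e : ℝ) (p b : J → ℝ) : ℝ :=
  open Classical in if h : ∃ a, 0 < a ∧ rs e p b a = a then h.choose else 1

theorem sc_pos (e : ℝ) (p b : J → ℝ) : 0 < sc e p b := by
  unfold sc
  split_ifs with h
  · exact h.choose_spec.1
  · exact one_pos

theorem sc_eq {e : ℝ} {p b : J → ℝ} (he : 0 < e) (hp : ∀ j, 0 ≤ p j) :
    e + ∑ j, p j * kp (sc e p b / b j) = sc e p b := by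
  have h := exists_root (b := b) he hp
  have h1 : sc e p b = h.choose := by
    unfold sc
    rw [dif_pos h]
  rw [h1]
  exact h.choose_spec.2

theorem le_sc {e : ℝ} {p b : J → ℝ} (he : 0 < e) (hp : ∀ j, 0 ≤ p j) : e ≤ sc e p b := by
  have := le_rs (e := e) (b := b) hp (sc e p b)
  unfold rs at this
  rwa [sc_eq he hp] at this

theorem sc_le {e : ℝ} {p b : J → ℝ} (he : 0 < e) (hp : ∀ j, 0 ≤ p j) :
    sc e p b ≤ e + ∑ j, p j := by
  have := rs_le (e := e) (b := b) hp (sc e p b)
  unfold rs at this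
  rwa [sc_eq he hp] at this

theorem lt_sc_iff {e : ℝ} {p b : J → ℝ} (he : 0 < e) (hp : ∀ j, 0 ≤ p j) (hb : ∀ j, 0 < b j)
    {a : ℝ} (ha : 0 < a) : a < sc e p b ↔ a < rs e p b a := by
  have h0 : rs e p b (sc e p b) = sc e p b := sc_eq he hp
  have hs := sc_pos e p b
  have h1 : rs e p b (sc e p b) / sc e p b = 1 := by rw [h0, div_self hs.ne']
  constructor
  · intro h
    have := rs_div_anti he hp hb ha h
    rw [h1, one_lt_div ha] at this
    exact this
  · intro h
    by_contra h2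
    push Not at h2
    rcases h2.lt_or_eq with h3 | h3
    · have := rs_div_anti he hp hb hs h3
      rw [h1, div_lt_one ha] at this
      linarith
    · rw [← h3, h0] at h
      exact lt_irrefl _ h

theorem sc_lt_iff {e : ℝ} {p b : J → ℝ} (he : 0 < e) (hp : ∀ j, 0 ≤ p j) (hb : ∀ j, 0 < b j)
    {a : ℝ} (ha : 0 < a) : sc e p b < a ↔ rs e p b a < a := by
  have h0 : rs e p b (sc e p b) = sc e p b := sc_eq he hp
  have hs := sc_pos e p b
  have h1 : rs e p b (sc e p b) / sc e p b = 1 := by rw [h0, div_self hs.ne']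
  constructor
  · intro h
    have := rs_div_anti he hp hb hs h
    rw [h1, div_lt_one ha] at this
    exact this
  · intro h
    by_contra h2
    push Not at h2
    rcases h2.lt_or_eq with h3 | h3
    · have := rs_div_anti he hp hb ha h3
      rw [h1, one_lt_div ha] at this
      linarith
    · rw [h3, h0] at h
      exact lt_irrefl _ h

/-- The root is unique. -/
theorem sc_unique {e : ℝ} {p b : J → ℝ} (he : 0 < e) (hp : ∀ j, 0 ≤ p j) (hb : ∀ j, 0 < b j)
    {a : ℝ} (ha : 0 < a) (h : e + ∑ j, p j * kp (a / b j) = a) : a = sc e p b := by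
  have h0 : rs e p b a = a := h
  rcases lt_trichotomy a (sc e p b) with h1 | h1 | h1
  · rw [lt_sc_iff he hp hb ha, h0] at h1
    exact absurd h1 (lt_irrefl _)
  · exact h1
  · rw [sc_lt_iff he hp hb ha, h0] at h1
    exact absurd h1 (lt_irrefl _)

/-- The root is monotone. -/
theorem sc_mono {e e' : ℝ} {p p' b : J → ℝ} (he : 0 < e) (hee : e ≤ e') (hp : ∀ j, 0 ≤ p j)
    (hpp : ∀ j, p j ≤ p' j) (hb : ∀ j, 0 < b j) : sc e p b ≤ sc e' p' b := by
  by_contra h
  push Not at h
  have hp' : ∀ j, 0 ≤ p' j := fun j => (hp j).trans (hpp j)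
  have he' : 0 < e' := he.trans_le hee
  rw [lt_sc_iff he hp hb (sc_pos _ _ _)] at h
  have h1 : rs e p b (sc e' p' b) ≤ rs e' p' b (sc e' p' b) := by
    unfold rs
    refine add_le_add hee (Finset.sum_le_sum fun j _ => ?_)
    exact mul_le_mul_of_nonneg_right (hpp j) (kp_nonneg _)
  have h2 : rs e' p' b (sc e' p' b) = sc e' p' b := sc_eq he' hp'
  linarith

/-- **The root is continuous.** -/
theorem sc_continuousOn {T : Type*} [TopologicalSpace T] {S : Set T} {e : T → ℝ} {p : T → J → ℝ}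
    {b : J → ℝ} (hec : ContinuousOn e S) (hpc : ∀ j, ContinuousOn (fun t => p t j) S)
    (he : ∀ t ∈ S, 0 < e t) (hp : ∀ t ∈ S, ∀ j, 0 ≤ p t j) (hb : ∀ j, 0 < b j) :
    ContinuousOn (fun t => sc (e t) (p t) b) S := by
  have hrs : ∀ a, ContinuousOn (fun t => rs (e t) (p t) b a) S := by
    intro a
    unfold rs
    exact hec.add (continuousOn_finsetSum _ fun j _ => (hpc j).mul continuousOn_const)
  intro t ht
  rw [ContinuousWithinAt, tendsto_order]
  constructor
  · intro a ha
    by_cases ha0 : 0 < a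
    · have h1 : a < rs (e t) (p t) b a := (lt_sc_iff (he t ht) (hp t ht) hb ha0).mp ha
      have h2 := (hrs a t ht).eventually (lt_mem_nhds h1)
      filter_upwards [h2, self_mem_nhdsWithin] with s hs hsS
      exact (lt_sc_iff (he s hsS) (hp s hsS) hb ha0).mpr hs
    · filter_upwards with s
      exact lt_of_le_of_lt (not_lt.mp ha0) (sc_pos _ _ _)
  · intro a ha
    have ha0 : 0 < a := (sc_pos _ _ _).trans ha
    have h1 : rs (e t) (p t) b a < a := (sc_lt_iff (he t ht) (hp t ht) hb ha0).mp ha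
    have h2 := (hrs a t ht).eventually (gt_mem_nhds h1)
    filter_upwards [h2, self_mem_nhdsWithin] with s hs hsS
    exact (sc_lt_iff (he s hsS) (hp s hsS) hb ha0).mpr hs

/-- (L3), first part. -/
theorem mass_high {e : ℝ} {p b : J → ℝ} (he : 0 < e) (hp : ∀ j, 0 ≤ p j) (hb : ∀ j, 0 < b j)
    {Γ : ℝ} (hΓ : 1 ≤ Γ) (S : Finset J) (hS : ∀ j ∈ S, Γ * sc e p b ≤ b j) :
    ∑ j ∈ S, p j / b j ≤ 1 / √Γ := by
  set a := sc e p b with ha
  have ha0 : 0 < a := sc_pos _ _ _
  have hG : 0 < √Γ := Real.sqrt_pos.mpr (by linarith)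
  have h1 : ∀ j ∈ S, √Γ * (p j / b j) ≤ p j * kp (a / b j) / a := by
    intro j hj
    have hbj := hb j
    have h2 : a / b j ≤ 1 := by
      rw [div_le_one hbj]
      have := hS j hj
      nlinarith
    rw [kp_of_le h2]
    have h3 : √Γ ≤ b j * √(a / b j) / a := by
      rw [le_div_iff₀ ha0]
      refine Real.le_sqrt_of_sq_le ?_ |>.trans (le_of_eq ?_) (b := √(a * b j))
      · rw [mul_pow, Real.sq_sqrt (by linarith)]
        have := hS j hj
        nlinarith
      · rw [Real.sqrt_div ha0.le, Real.sqrt_mul ha0.le]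
        have h4 : √(b j) * √(b j) = b j := Real.mul_self_sqrt hbj.le
        have h5 : 0 < √(b j) := Real.sqrt_pos.mpr hbj
        field_simp
        nlinarith
    calc √Γ * (p j / b j) ≤ b j * √(a / b j) / a * (p j / b j) :=
          mul_le_mul_of_nonneg_right h3 (div_nonneg (hp j) hbj.le)
      _ = p j * √(a / b j) / a := by field_simp
  have h2 : ∑ j ∈ S, p j * kp (a / b j) / a ≤ 1 := by
    rw [← Finset.sum_div, div_le_one ha0]
    have h3 : ∑ j ∈ S, p j * kp (a / b j) ≤ ∑ j, p j * kp (a / b j) :=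
      Finset.sum_le_sum_of_subset_of_nonneg (Finset.subset_univ _)
        fun j _ _ => mul_nonneg (hp j) (kp_nonneg _)
    have h4 := sc_eq (b := b) he hp
    rw [← ha] at h4
    linarith
  have h3 : √Γ * ∑ j ∈ S, p j / b j ≤ 1 := by
    rw [Finset.mul_sum]
    exact (Finset.sum_le_sum h1).trans h2
  rw [le_div_iff₀ hG, mul_comm]
  exact h3

/-- (L3), second part. -/
theorem mass_near {e : ℝ} {p b : J → ℝ} (he : 0 < e) (hp : ∀ j, 0 ≤ p j) (hb : ∀ j, 0 < b j)
    {Υ : ℝ} (hΥ : 1 ≤ Υ) (S : Finset J) (hS : ∀ j ∈ S, sc e p b ≤ Υ * b j) :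
    ∑ j ∈ S, p j / b j ≤ Υ * √Υ := by
  set a := sc e p b with ha
  have ha0 : 0 < a := sc_pos _ _ _
  have hY0 : 0 < Υ := by linarith
  have hY : 0 < √Υ := Real.sqrt_pos.mpr hY0
  have h1 : ∀ j ∈ S, p j / b j ≤ Υ * √Υ * (p j * kp (a / b j) / a) := by
    intro j hj
    have hbj := hb j
    have h3 : 1 ≤ Υ * √Υ * (b j * kp (a / b j) / a) := by
      rcases le_total (a / b j) 1 with h2 | h2
      · rw [kp_of_le h2]
        have h4 : a ≤ b j := by rwa [div_le_one hbj] at h2
        have h5 : 1 ≤ b j * √(a / b j) / a := by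
          rw [le_div_iff₀ ha0, one_mul]
          refine (Real.le_sqrt_of_sq_le ?_).trans (le_of_eq ?_) (b := √(a * b j))
          · nlinarith
          · rw [Real.sqrt_div ha0.le, Real.sqrt_mul ha0.le]
            have h4 : √(b j) * √(b j) = b j := Real.mul_self_sqrt hbj.le
            have h5 : 0 < √(b j) := Real.sqrt_pos.mpr hbj
            field_simp
            nlinarith
        have h6 : 1 ≤ √Υ := Real.one_le_sqrt.mpr hΥ
        have h7 : 1 ≤ Υ * √Υ := by nlinarith
        nlinarith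
      · rw [kp_of_ge h2]
        have h4 : a ≤ Υ * b j := hS j hj
        have h5 : √(a / b j) ≤ √Υ := Real.sqrt_le_sqrt (by rwa [div_le_iff₀ hbj])
        have h6 : 0 < √(a / b j) := Real.sqrt_pos.mpr (div_pos ha0 hbj)
        have h7 : Υ * √Υ * (b j * (1 / √(a / b j)) / a) = (√Υ / √(a / b j)) * (Υ * b j / a) := by
          field_simp
        rw [h7]
        have h8 : 1 ≤ √Υ / √(a / b j) := by rwa [one_le_div h6]
        have h9 : 1 ≤ Υ * b j / a := by rwa [one_le_div ha0]
        nlinarith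
    calc p j / b j = 1 * (p j / b j) := by ring
      _ ≤ Υ * √Υ * (b j * kp (a / b j) / a) * (p j / b j) :=
          mul_le_mul_of_nonneg_right h3 (div_nonneg (hp j) hbj.le)
      _ = Υ * √Υ * (p j * kp (a / b j) / a) := by field_simp
  have h2 : ∑ j ∈ S, p j * kp (a / b j) / a ≤ 1 := by
    rw [← Finset.sum_div, div_le_one ha0]
    have h3 : ∑ j ∈ S, p j * kp (a / b j) ≤ ∑ j, p j * kp (a / b j) :=
      Finset.sum_le_sum_of_subset_of_nonneg (Finset.subset_univ _)
        fun j _ _ => mul_nonneg (hp j) (kp_nonneg _)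
    have h4 := sc_eq (b := b) he hp
    rw [← ha] at h4
    linarith
  calc ∑ j ∈ S, p j / b j ≤ ∑ j ∈ S, Υ * √Υ * (p j * kp (a / b j) / a) := Finset.sum_le_sum h1
    _ = Υ * √Υ * ∑ j ∈ S, p j * kp (a / b j) / a := by rw [Finset.mul_sum]
    _ ≤ Υ * √Υ * 1 := mul_le_mul_of_nonneg_left h2 (by positivity)
    _ = Υ * √Υ := mul_one _

end Pool.Agent.Lib.GSLE
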