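import Pool.Agent.Lib.FGF.Avg

/-!
# Fractional domination

`vio G M j v m L` is the violation of the measure `m` at the root `v`: the largest value of
`1 - m` (closed neighbourhoods of the body of `K`) over the copies `K` of the `M`-ary tree of
depth `j` with the root `v` and the body in `L` (and `0` if this is negative or if there is no
copy).  It is convex and continuous in `m`, and it is `0` if `m` dominates.
-/

set_option autoImplicit false

namespace Pool.Agent.Lib.GSLE

open Finset Classical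
open Pool.Agent.Lib.GSR3 (Tree)
open Pool.Agent.Lib.FGF (cm nm Dom)
open Pool.Agent.Lib.FGF.Avg (wds mem_wds card_wds cm_nonneg)

/-- The `m`-weight of the closed neighbourhoods of the vertices `φ u`, `u ≠ []`. -/
noncomputable def bw {V : Type} [Fintype V] (G : SimpleGraph V) (M j : ℕ) (m : V → ℝ)
    (φ : List (Fin M) → V) : ℝ :=
  ∑ u ∈ wds M j, cm G m (φ u)

/-- The copies of the tree with the root `v` and the body in `L`, restricted to the body. -/
noncomputable def cps {V : Type} [Fintype V] (G : SimpleGraph V) (M j : ℕ) (v : V)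
    (L : Finset V) : Finset ({u // u ∈ wds M j} → V) :=
  Finset.univ.filter fun ψ => ∃ φ : List (Fin M) → V, Tree G j M φ ∧ φ [] = v ∧
    (∀ u ∈ wds M j, φ u ∈ L) ∧ ∀ u : {u // u ∈ wds M j}, φ u.1 = ψ u

/-- The violation. -/
noncomputable def vio {V : Type} [Fintype V] (G : SimpleGraph V) (M j : ℕ) (v : V) (m : V → ℝ)
    (L : Finset V) : ℝ :=
  (insert 0 ((cps G M j v L).image fun ψ => 1 - ∑ u, cm G m (ψ u))).max'
    (Finset.insert_nonempty _ _)

section

variable {V : Type} [Fintype V] {G : SimpleGraph V} {M j : ℕ} {v : V} {m m' : V → ℝ}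
  {L L' : Finset V}

theorem vio_nonneg : 0 ≤ vio G M j v m L :=
  Finset.le_max' _ _ (Finset.mem_insert_self _ _)

theorem le_vio {φ : List (Fin M) → V} (h1 : Tree G j M φ) (h2 : φ [] = v)
    (h3 : ∀ u ∈ wds M j, φ u ∈ L) : 1 - bw G M j m φ ≤ vio G M j v m L := by
  refine Finset.le_max' _ _ (Finset.mem_insert_of_mem (Finset.mem_image.2
    ⟨fun u => φ u.1, Finset.mem_filter.2 ⟨Finset.mem_univ _, φ, h1, h2, h3, fun _ => rfl⟩, ?_⟩))
  unfold bw
  rw [← Finset.sum_coe_sort (wds M j) fun u => cm G m (φ u)]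

theorem vio_le {a : ℝ} (ha : 0 ≤ a) (h : ∀ φ : List (Fin M) → V, Tree G j M φ → φ [] = v →
    (∀ u ∈ wds M j, φ u ∈ L) → 1 - bw G M j m φ ≤ a) : vio G M j v m L ≤ a := by
  refine Finset.max'_le _ _ _ fun x hx => ?_
  rcases Finset.mem_insert.1 hx with rfl | hx
  · exact ha
  · obtain ⟨ψ, hψ, rfl⟩ := Finset.mem_image.1 hx
    obtain ⟨φ, h1, h2, h3, h4⟩ := (Finset.mem_filter.1 hψ).2
    refine le_of_eq_of_le ?_ (h φ h1 h2 h3)
    unfold bw
    rw [← Finset.sum_coe_sort (wds M j) fun u => cm G m (φ u)]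
    congr 1
    exact Finset.sum_congr rfl fun u _ => by rw [h4]

theorem bw_nonneg (hm : ∀ u, 0 ≤ m u) (φ : List (Fin M) → V) : 0 ≤ bw G M j m φ :=
  Finset.sum_nonneg fun _ _ => cm_nonneg G hm _

theorem vio_le_one (hm : ∀ u, 0 ≤ m u) : vio G M j v m L ≤ 1 :=
  vio_le zero_le_one fun φ _ _ _ => by linarith [bw_nonneg (j := j) (G := G) hm φ]

theorem cm_mono (h : ∀ u, m u ≤ m' u) (x : V) : cm G m x ≤ cm G m' x := by
  unfold cm nm FracGS.wnb
  exact add_le_add (h x) (Finset.sum_le_sum fun u _ => h u)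

theorem bw_mono (h : ∀ u, m u ≤ m' u) (φ : List (Fin M) → V) :
    bw G M j m φ ≤ bw G M j m' φ :=
  Finset.sum_le_sum fun _ _ => cm_mono h _

/-- The violation is antitone in the measure and monotone in the body set. -/
theorem vio_anti (h : ∀ u, m u ≤ m' u) (hL : L ⊆ L') : vio G M j v m' L ≤ vio G M j v m L' :=
  vio_le vio_nonneg fun φ h1 h2 h3 => by
    have h4 := le_vio (m := m) h1 h2 fun u hu => hL (h3 u hu)
    have h5 := bw_mono (G := G) (j := j) h φ
    linarith

/-! ### Domination -/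

theorem vio_eq_zero_of_dom (hm : ∀ u, 0 ≤ m u) (h : Dom G M j v m L) :
    vio G M j v m L = 0 := by
  refine le_antisymm (vio_le le_rfl fun φ h1 h2 h3 => ?_) vio_nonneg
  by_contra hcon
  push Not at hcon
  refine h φ h1 h2 fun u hu0 hu => ⟨h3 u (mem_wds.2 ⟨hu, hu0⟩), ?_⟩
  have h4 : cm G m (φ u) ≤ bw G M j m φ :=
    Finset.single_le_sum (f := fun u => cm G m (φ u)) (fun u _ => cm_nonneg G hm _)
      (mem_wds.2 ⟨hu, hu0⟩)
  linarith

theorem cm_smul (c : ℝ) (x : V) : cm G (fun u => c * m u) x = c * cm G m x := by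
  unfold cm nm FracGS.wnb
  rw [← Finset.mul_sum, mul_add]

/-- A measure which has the weight `c` on all copies dominates after scaling. -/
theorem dom_of_bw {c τ : ℝ} (hc : 0 < c) (hτ : ((M + 1 : ℕ) : ℝ) ^ j ≤ τ)
    (h : ∀ φ : List (Fin M) → V, Tree G j M φ → φ [] = v → (∀ u ∈ wds M j, φ u ∈ L) →
      c ≤ bw G M j m φ) : Dom G M j v (fun u => τ / c * m u) L := by
  intro φ h1 h2 hall
  have h4 : c ≤ bw G M j m φ := h φ h1 h2 fun u hu =>
    (hall u (mem_wds.1 hu).2 (mem_wds.1 hu).1).1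
  have hτ0 : 0 ≤ τ := le_trans (by positivity) hτ
  have hne : (wds M j).Nonempty := by
    by_contra hne
    rw [Finset.not_nonempty_iff_eq_empty] at hne
    unfold bw at h4
    rw [hne, Finset.sum_empty] at h4
    linarith
  have h5 : ∑ u ∈ wds M j, τ / c * cm G m (φ u) < ∑ _u ∈ wds M j, (1 : ℝ) := by
    refine Finset.sum_lt_sum_of_nonempty hne fun u hu => ?_
    have h6 := (hall u (mem_wds.1 hu).2 (mem_wds.1 hu).1).2
    rwa [cm_smul] at h6
  rw [← Finset.mul_sum, Finset.sum_const, nsmul_eq_mul, mul_one] at h5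
  have h7 : ((wds M j).card : ℝ) ≤ τ := le_trans (by exact_mod_cast card_wds M j) hτ
  have h8 : τ ≤ τ / c * bw G M j m φ := by
    rw [div_mul_eq_mul_div, le_div_iff₀ hc]
    exact mul_le_mul_of_nonneg_left h4 hτ0
  unfold bw at h8
  linarith

/-- A measure with a violation less than one dominates after scaling. -/
theorem dom_of_vio {c τ : ℝ} (hc : 0 < c) (hτ : ((M + 1 : ℕ) : ℝ) ^ j ≤ τ)
    (h : vio G M j v m L ≤ 1 - c) : Dom G M j v (fun u => τ / c * m u) L :=
  dom_of_bw hc hτ fun φ h1 h2 h3 => by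
    have h4 := le_vio (m := m) h1 h2 h3
    linarith

/-! ### Convexity -/

theorem cm_sum {ι : Type} (s : Finset ι) (P : ι → ℝ) (f : ι → V → ℝ) (x : V) :
    cm G (fun u => ∑ l ∈ s, P l * f l u) x = ∑ l ∈ s, P l * cm G (f l) x := by
  unfold cm nm FracGS.wnb
  rw [Finset.sum_comm, ← Finset.sum_add_distrib]
  refine Finset.sum_congr rfl fun l _ => ?_
  rw [← Finset.mul_sum, mul_add]

theorem bw_sum {ι : Type} (s : Finset ι) (P : ι → ℝ) (f : ι → V → ℝ)
    (φ : List (Fin M) → V) :
    bw G M j (fun u => ∑ l ∈ s, P l * f l u) φ = ∑ l ∈ s, P l * bw G M j (f l) φ := by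
  unfold bw
  simp only [cm_sum]
  rw [Finset.sum_comm]
  exact Finset.sum_congr rfl fun l _ => (Finset.mul_sum _ _ _).symm

/-- The violation is convex. -/
theorem vio_sum_le {ι : Type} (s : Finset ι) (P : ι → ℝ) (f : ι → V → ℝ)
    (hP : ∀ l ∈ s, 0 ≤ P l) (h1 : ∑ l ∈ s, P l = 1) :
    vio G M j v (fun u => ∑ l ∈ s, P l * f l u) L ≤ ∑ l ∈ s, P l * vio G M j v (f l) L := by
  refine vio_le (Finset.sum_nonneg fun l hl => mul_nonneg (hP l hl) vio_nonneg)
    fun φ h2 h3 h4 => ?_
  rw [bw_sum, ← h1, ← Finset.sum_sub_distrib]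
  refine Finset.sum_le_sum fun l hl => ?_
  have h5 := mul_le_mul_of_nonneg_left (le_vio (m := f l) h2 h3 h4) (hP l hl)
  linarith

/-- The violation of a convex combination. -/
theorem vio_convex {a b : ℝ} (ha : 0 ≤ a) (hb : 0 ≤ b) (hab : a + b = 1) :
    vio G M j v (fun u => a * m u + b * m' u) L ≤
      a * vio G M j v m L + b * vio G M j v m' L := by
  have h := vio_sum_le (G := G) (M := M) (j := j) (v := v) (L := L) (Finset.univ : Finset Bool)
    (fun l => if l then a else b) (fun l => if l then m else m')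
    (fun l _ => by cases l <;> simpa) (by simpa using hab)
  simpa using h

/-- Masters from a share: if the labels `l` which are well dominated have the share `c` then
the average dominates after scaling. -/
theorem dom_avg {ι : Type} (s : Finset ι) (P : ι → ℝ) (f : ι → V → ℝ) {c τ : ℝ}
    (hc : 0 < c) (hτ : ((M + 1 : ℕ) : ℝ) ^ j ≤ τ) (hP : ∀ l ∈ s, 0 ≤ P l)
    (h : c ≤ ∑ l ∈ s, P l * (1 - vio G M j v (f l) L)) :
    Dom G M j v (fun u => τ / c * ∑ l ∈ s, P l * f l u) L := by
  refine dom_of_bw (m := fun u => ∑ l ∈ s, P l * f l u) hc hτ fun φ h1 h2 h3 => ?_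
  rw [bw_sum]
  refine h.trans (Finset.sum_le_sum fun l hl => mul_le_mul_of_nonneg_left ?_ (hP l hl))
  have h5 := le_vio (m := f l) h1 h2 h3
  linarith

/-! ### Continuity -/

theorem cm_sub_le (x : V) : |cm G m x - cm G m' x| ≤ ∑ u, |m u - m' u| := by
  have h1 : cm G m x - cm G m' x =
      ∑ u ∈ insert x (Finset.univ.filter fun u => G.Adj x u), (m u - m' u) := by
    rw [Finset.sum_insert (by simp)]
    unfold cm nm FracGS.wnb FracGS.nb
    rw [Finset.sum_sub_distrib]
    ring
  rw [h1]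
  refine (Finset.abs_sum_le_sum_abs _ _).trans ?_
  exact Finset.sum_le_sum_of_subset_of_nonneg (Finset.subset_univ _) fun _ _ _ => abs_nonneg _

theorem bw_sub_le (φ : List (Fin M) → V) :
    |bw G M j m φ - bw G M j m' φ| ≤ (wds M j).card * ∑ u, |m u - m' u| := by
  unfold bw
  rw [← Finset.sum_sub_distrib]
  refine (Finset.abs_sum_le_sum_abs _ _).trans ?_
  refine (Finset.sum_le_card_nsmul _ _ _ fun u _ => cm_sub_le (G := G) _).trans ?_
  rw [nsmul_eq_mul]

/-- The violation is Lipschitz. -/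
theorem vio_sub_le :
    |vio G M j v m L - vio G M j v m' L| ≤ (wds M j).card * ∑ u, |m u - m' u| := by
  have key : ∀ f g : V → ℝ, vio G M j v f L ≤
      vio G M j v g L + (wds M j).card * ∑ u, |f u - g u| := by
    intro f g
    refine vio_le (add_nonneg vio_nonneg (mul_nonneg (Nat.cast_nonneg _)
      (Finset.sum_nonneg fun _ _ => abs_nonneg _))) fun φ h1 h2 h3 => ?_
    have h4 := le_vio (m := g) h1 h2 h3
    have h5 := abs_le.1 (bw_sub_le (G := G) (j := j) (m := f) (m' := g) φ)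
    linarith [h5.1]
  rw [abs_sub_le_iff]
  refine ⟨by linarith [key m m'], ?_⟩
  have h1 := key m' m
  have h2 : ∑ u, |m' u - m u| = ∑ u, |m u - m' u| :=
    Finset.sum_congr rfl fun u _ => abs_sub_comm _ _
  rw [h2] at h1
  linarith

/-- The violation is continuous. -/
theorem continuous_vio {T : Type} [TopologicalSpace T] {f : T → V → ℝ}
    (hf : ∀ u, Continuous fun θ => f θ u) : Continuous fun θ => vio G M j v (f θ) L := by
  rw [continuous_iff_continuousAt]
  intro θ
  unfold ContinuousAt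
  rw [tendsto_iff_dist_tendsto_zero]
  have h1 : Filter.Tendsto (fun θ' => ((wds M j).card : ℝ) * ∑ u, |f θ' u - f θ u|)
      (nhds θ) (nhds (((wds M j).card : ℝ) * ∑ u, |f θ u - f θ u|)) := by
    refine Filter.Tendsto.const_mul _ (tendsto_finsetSum _ fun u _ => ?_)
    exact ((hf u).continuousAt.sub continuousAt_const).abs
  simp only [sub_self, abs_zero, Finset.sum_const_zero, mul_zero] at h1
  refine squeeze_zero (fun _ => dist_nonneg) (fun θ' => ?_) h1
  rw [Real.dist_eq]
  exact vio_sub_le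

end

end Pool.Agent.Lib.GSLE
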